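import Pool.Agent.helper65.WB.Defs

set_option autoImplicit false

namespace Pool.Agent.helper65.WB

open Finset Matrix

theorem TP_mul {ι α : Type} [Fintype ι] [DecidableEq ι] [Fintype α] (R S : ι → Matrix α α ℂ) :
    TP R * TP S = TP (fun i => R i * S i) := by
  ext x y
  simp only [Matrix.mul_apply, TP]
  rw [Finset.prod_univ_sum, Fintype.piFinset_univ]
  exact Finset.sum_congr rfl (fun z _ => Finset.prod_mul_distrib.symm)

theorem TP_one {ι α : Type} [Fintype ι] [DecidableEq ι] [Fintype α] [DecidableEq α] :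
    TP (fun _ : ι => (1 : Matrix α α ℂ)) = 1 := by
  ext x y
  simp only [TP, Matrix.one_apply]
  by_cases h : x = y
  · subst h; simp
  · rw [if_neg h]
    obtain ⟨i, hi⟩ := Function.ne_iff.1 h
    exact Finset.prod_eq_zero (Finset.mem_univ i) (if_neg hi)

theorem TP_conjTranspose {ι α : Type} [Fintype ι] (R : ι → Matrix α α ℂ) :
    (TP R)ᴴ = TP (fun i => (R i)ᴴ) := by
  ext x y
  simp only [TP, Matrix.conjTranspose_apply, star_prod]

theorem TP_pow {ι α : Type} [Fintype ι] [DecidableEq ι] [Fintype α] [DecidableEq α]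
    (R : ι → Matrix α α ℂ) (c : ℕ) : (TP R) ^ c = TP (fun i => R i ^ c) := by
  induction c with
  | zero => simp only [pow_zero]; exact TP_one.symm
  | succ n ih => simp only [pow_succ]; rw [ih, TP_mul]

theorem TP_unitary {ι α : Type} [Fintype ι] [DecidableEq ι] [Fintype α] [DecidableEq α]
    (R : ι → Matrix α α ℂ) (hR : ∀ i, R i ∈ Matrix.unitaryGroup α ℂ) :
    TP R ∈ Matrix.unitaryGroup (ι → α) ℂ := by
  rw [Matrix.mem_unitaryGroup_iff, Matrix.star_eq_conjTranspose, TP_conjTranspose, TP_mul]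
  have : (fun i => R i * (R i)ᴴ) = fun _ => (1 : Matrix α α ℂ) := by
    funext i
    have := Matrix.mem_unitaryGroup_iff.1 (hR i)
    rwa [Matrix.star_eq_conjTranspose] at this
  rw [this, TP_one]

end Pool.Agent.helper65.WB
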