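import Pool.Agent.helper65.WB.Defs3
import Pool.Agent.helper65.WB.TP

set_option autoImplicit false

/-!
# The inverse Fourier matrix
-/

namespace Pool.Agent.helper65.WB

open Finset Matrix
open scoped ComplexOrder

/-- the root of unity -/
noncomputable def xi (D : ℕ) : ℂ := (Complex.exp (2 * Real.pi * Complex.I / D))⁻¹

lemma xi_prim (D : ℕ) (hD : D ≠ 0) : IsPrimitiveRoot (xi D) D :=
  (Complex.isPrimitiveRoot_exp D hD).inv

lemma fou_eq (D : ℕ) (a b : Fin D) :
    fou D a b = xi D ^ (a.val * b.val) / (Real.sqrt D : ℝ) := by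
  unfold fou xi
  congr 1
  rw [← Complex.exp_neg, ← Complex.exp_nat_mul]
  congr 1
  push_cast
  ring

lemma star_xi (D : ℕ) : star (xi D) = (xi D)⁻¹ := by
  unfold xi
  rw [star_inv₀, Complex.star_def, ← Complex.exp_conj]
  congr 1
  rw [← Complex.exp_neg]
  congr 1
  simp only [map_div₀, map_mul, Complex.conj_I, Complex.conj_ofReal, map_natCast, map_ofNat]
  ring

lemma xi_sum (D : ℕ) (hD : D ≠ 0) (k : ℕ) :
    ∑ b : Fin D, (xi D ^ k) ^ b.val = if D ∣ k then (D : ℂ) else 0 := by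
  rw [Fin.sum_univ_eq_sum_range (fun b => (xi D ^ k) ^ b) D]
  split_ifs with h
  · rw [((xi_prim D hD).pow_eq_one_iff_dvd k).2 h]; simp
  · have h1 : xi D ^ k ≠ 1 := fun h' => h (((xi_prim D hD).pow_eq_one_iff_dvd k).1 h')
    rw [geom_sum_eq h1, ← pow_mul, mul_comm k D, pow_mul, (xi_prim D hD).pow_eq_one, one_pow,
      sub_self, zero_div]

lemma sqrt_sq_D (D : ℕ) : ((Real.sqrt D : ℝ) : ℂ) * ((Real.sqrt D : ℝ) : ℂ) = D := by
  rw [← Complex.ofReal_mul, Real.mul_self_sqrt (Nat.cast_nonneg D), Complex.ofReal_natCast]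

lemma fou_norm_sq (D : ℕ) (hD : D ≠ 0) (a b : Fin D) : ‖fou D a b‖ ^ 2 = 1 / D := by
  rw [fou_eq, norm_div, norm_pow, (xi_prim D hD).norm'_eq_one hD, one_pow, div_pow, one_pow,
    Complex.norm_real, Real.norm_of_nonneg (Real.sqrt_nonneg _), Real.sq_sqrt (Nat.cast_nonneg D)]

lemma fou_unitary (D : ℕ) : fou D ∈ Matrix.unitaryGroup (Fin D) ℂ := by
  rw [Matrix.mem_unitaryGroup_iff]
  ext a c
  have hD : D ≠ 0 := by rintro rfl; exact Fin.elim0 a
  have hDC : (D : ℂ) ≠ 0 := by exact_mod_cast hD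
  have hDp : 0 < D := Nat.pos_of_ne_zero hD
  rw [Matrix.mul_apply, Matrix.one_apply]
  have hinv : (xi D)⁻¹ = xi D ^ (D - 1) := by
    have h1 : xi D ^ (D - 1) * xi D = 1 := by
      rw [← pow_succ, Nat.sub_add_cancel hDp, (xi_prim D hD).pow_eq_one]
    have h0 : xi D ≠ 0 := (xi_prim D hD).ne_zero hD
    exact (eq_inv_of_mul_eq_one_left h1).symm
  have e : ∀ b : Fin D, fou D a b * (star (fou D)) b c =
      (xi D ^ (a.val + (D - 1) * c.val)) ^ b.val / D := by
    intro b
    rw [Matrix.star_apply, fou_eq, fou_eq, star_div₀, star_pow, star_xi, hinv, Complex.star_def,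
      Complex.conj_ofReal, div_mul_div_comm, sqrt_sq_D]
    congr 1
    rw [← pow_mul, ← pow_mul, ← pow_add]
    congr 1
    ring
  simp only [e]
  rw [← Finset.sum_div, xi_sum D hD]
  by_cases hac : a = c
  · subst hac
    have : D ∣ a.val + (D - 1) * a.val := by
      refine ⟨a.val, ?_⟩
      obtain ⟨d, rfl⟩ := Nat.exists_eq_add_of_le hDp
      rw [Nat.add_sub_cancel_left]; ring
    rw [if_pos this, if_pos rfl, div_self hDC]
  · have : ¬ D ∣ a.val + (D - 1) * c.val := by
      rintro ⟨q, hq⟩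
      apply hac
      apply Fin.ext
      have h1 : a.val + D * c.val = c.val + D * q := by
        have h4 : (D - 1) * c.val + c.val = D * c.val := by
          rw [← Nat.succ_mul, Nat.succ_eq_add_one, Nat.sub_add_cancel hDp]
        rw [← hq, ← h4]; ring
      have h2 : (a.val + D * c.val) % D = a.val := by
        rw [Nat.add_mul_mod_self_left, Nat.mod_eq_of_lt a.isLt]
      have h3 : (c.val + D * q) % D = c.val := by
        rw [Nat.add_mul_mod_self_left, Nat.mod_eq_of_lt c.isLt]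
      rw [← h2, h1, h3]
    rw [if_neg this, if_neg hac, zero_div]

lemma fou_sq (D : ℕ) [NeZero D] (a c : Fin D) :
    (fou D * fou D) a c = if a = -c then 1 else 0 := by
  have hD : D ≠ 0 := NeZero.ne D
  have hDC : (D : ℂ) ≠ 0 := by exact_mod_cast hD
  rw [Matrix.mul_apply]
  have e : ∀ b : Fin D, fou D a b * fou D b c = (xi D ^ (a.val + c.val)) ^ b.val / D := by
    intro b
    rw [fou_eq, fou_eq, div_mul_div_comm, sqrt_sq_D]
    congr 1
    rw [← pow_mul, ← pow_add]
    congr 1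
    ring
  simp only [e]
  rw [← Finset.sum_div, xi_sum D hD]
  have hiff : D ∣ a.val + c.val ↔ a = -c := by
    rw [eq_neg_iff_add_eq_zero, Fin.ext_iff, Fin.val_add, Fin.val_zero]
    exact Nat.dvd_iff_mod_eq_zero
  by_cases h : a = -c
  · rw [if_pos (hiff.2 h), if_pos h, div_self hDC]
  · rw [if_neg (fun h' => h (hiff.1 h')), if_neg h, zero_div]

end Pool.Agent.helper65.WB
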