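import Pool.Agent.helper65.WB.Sca

set_option autoImplicit false

/-!
# Scarring on periodic orbits: the upper bound
-/

namespace Pool.Agent.helper65.WB

open Finset Matrix MeasureTheory Filter
open scoped ComplexOrder ENNReal

lemma per_mul {α : Type} (a : ℕ → α) (s : ℕ) (hp : ∀ t, a (t + s) = a t) (j t : ℕ) :
    a (t + j * s) = a t := by
  induction j with
  | zero => simp
  | succ j ih => rw [Nat.succ_mul, ← add_assoc, hp, ih]

lemma prod_periodic (a : ℕ → ℝ) (s : ℕ) (hp : ∀ t, a (t + s) = a t) (j : ℕ) :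
    ∏ t ∈ range (j * s), a t = (∏ t ∈ range s, a t) ^ j := by
  induction j with
  | zero => simp
  | succ j ih =>
    rw [Nat.succ_mul, Finset.prod_range_add, ih, pow_succ]
    congr 1
    refine Finset.prod_congr rfl (fun t _ => ?_)
    rw [add_comm, per_mul a s hp]

lemma prod_periodic_tendsto (a : ℕ → ℝ) (s : ℕ) (hs : 1 ≤ s) (h0 : ∀ t, 0 ≤ a t)
    (h1 : ∀ t, a t ≤ 1) (hp : ∀ t, a (t + s) = a t) (t₀ : ℕ) (ht : a t₀ < 1) :
    Tendsto (fun n => ∏ t ∈ range n, a t) atTop (nhds 0) := by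
  set q : ℝ := ∏ t ∈ range s, a t with hq
  have hq0 : 0 ≤ q := Finset.prod_nonneg (fun t _ => h0 t)
  have hq1 : q < 1 := by
    have hmem : t₀ % s ∈ range s := Finset.mem_range.2 (Nat.mod_lt _ hs)
    have ha : a (t₀ % s) = a t₀ := by
      have := per_mul a s hp (t₀ / s) (t₀ % s)
      rw [mul_comm, Nat.mod_add_div] at this
      exact this.symm
    rw [hq, ← Finset.mul_prod_erase _ _ hmem, ha]
    have h2 : ∏ t ∈ (range s).erase (t₀ % s), a t ≤ 1 :=
      Finset.prod_le_one (fun t _ => h0 t) (fun t _ => h1 t)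
    have h3 : 0 ≤ ∏ t ∈ (range s).erase (t₀ % s), a t := Finset.prod_nonneg (fun t _ => h0 t)
    nlinarith [h0 t₀]
  have hlim : Tendsto (fun n : ℕ => q ^ (n / s)) atTop (nhds 0) :=
    (tendsto_pow_atTop_nhds_zero_of_lt_one hq0 hq1).comp
      (Nat.tendsto_div_const_atTop (by omega))
  refine squeeze_zero (fun n => Finset.prod_nonneg (fun t _ => h0 t)) (fun n => ?_) hlim
  rw [hq, ← prod_periodic a s hp]
  have hle : n / s * s ≤ n := Nat.div_mul_le_self n s
  obtain ⟨d, hd⟩ := Nat.exists_eq_add_of_le hle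
  conv_lhs => rw [hd]
  rw [Finset.prod_range_add]
  refine mul_le_of_le_one_right (Finset.prod_nonneg (fun t _ => h0 t)) ?_
  exact Finset.prod_le_one (fun t _ => h0 _) (fun t _ => h1 _)

lemma fam_dot {D : ℕ} (U : Matrix (Fin D) (Fin D) ℂ) (hU : U ∈ Matrix.unitaryGroup (Fin D) ℂ)
    (w : ℕ → Fin D) (i j r r' t : ℕ) :
    star (fam U w i r t) ⬝ᵥ fam U w (i + j) r' t = (U ^ j) (w (t + r)) (w (t + r')) := by
  unfold fam
  rw [pow_add, ← Matrix.mulVec_mulVec, dot_unitary _ (pow_mem hU i), bas_mulVec]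

lemma norm_dot_comm {D : ℕ} (φ χ : Fin D → ℂ) : ‖star φ ⬝ᵥ χ‖ = ‖star χ ⬝ᵥ φ‖ := by
  have : star (star φ ⬝ᵥ χ) = star χ ⬝ᵥ φ := by
    rw [Matrix.star_dotProduct, star_star]
  rw [← this, norm_star]

/-- the overlap of two different members of the family tends to zero -/
lemma overlap {D : ℕ} (U : Matrix (Fin D) (Fin D) ℂ) (hU : U ∈ Matrix.unitaryGroup (Fin D) ℂ)
    (w : ℕ → Fin D) (s : ℕ) (hs : 1 ≤ s) (hw : ∀ t, w (t + s) = w t)
    (hmin : ∀ r, 1 ≤ r → r < s → ∃ t, w (t + r) ≠ w t) (M : ℕ)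
    (hret : ∀ i, i < M → ¬ Returns U w i) (i i' r r' : ℕ) (hi' : i' < M)
    (hr : r < s) (hr' : r' < s) (hii : i ≤ i') (hne : (i, r) ≠ (i', r')) :
    Tendsto (fun n => ∏ t ∈ range n, ‖star (fam U w i r t) ⬝ᵥ fam U w i' r' t‖) atTop (nhds 0) := by
  obtain ⟨j, rfl⟩ := Nat.exists_eq_add_of_le hii
  simp only [fam_dot U hU]
  have hlt : ∃ t₀, ‖(U ^ j) (w (t₀ + r)) (w (t₀ + r'))‖ < 1 := by
    by_contra hcon
    push Not at hcon
    have h1 : ∀ t, ‖(U ^ j) (w (t + r)) (w (t + r'))‖ = 1 := fun t =>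
      le_antisymm (entry_norm_bound_of_unitary (pow_mem hU j) _ _) (hcon t)
    -- shift so that the second index is `t`
    have h2 : ∀ t, ‖(U ^ j) (w (t + ((s - 1) * r' + r))) (w t)‖ = 1 := by
      intro t
      have h3 := h1 (t + (s - 1) * r')
      have e1 : t + (s - 1) * r' + r' = t + r' * s := by
        obtain ⟨s', rfl⟩ := Nat.exists_eq_add_of_le hs
        rw [Nat.add_sub_cancel_left]; ring
      rw [e1, per_mul w s hw] at h3
      rw [← add_assoc]; exact h3
    rcases Nat.eq_zero_or_pos j with hj | hj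
    · subst hj
      have hrr : r ≠ r' := fun h => hne (by rw [h, add_zero])
      have h4 : ∀ t, w (t + ((s - 1) * r' + r)) = w t := by
        intro t
        by_contra hc
        have := h2 t
        rw [pow_zero, Matrix.one_apply_ne hc, norm_zero] at this
        exact zero_ne_one this
      set q := ((s - 1) * r' + r) with hq
      have h5 : ∀ t, w (t + q % s) = w t := by
        intro t
        have := per_mul w s hw (q / s) (t + q % s)
        rw [add_assoc, mul_comm (q / s), Nat.mod_add_div, h4] at this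
        exact this.symm
      have h6 : q % s ≠ 0 := by
        intro h0
        obtain ⟨c, hc⟩ := Nat.dvd_of_mod_eq_zero h0
        have h7 : q + r' = r + s * r' := by
          rw [hq]
          obtain ⟨s', rfl⟩ := Nat.exists_eq_add_of_le hs
          rw [Nat.add_sub_cancel_left]; ring
        have h8 : (q + r') % s = r := by
          rw [h7, Nat.add_mul_mod_self_left, Nat.mod_eq_of_lt hr]
        have h9 : (q + r') % s = r' := by
          rw [hc, add_comm, Nat.add_mul_mod_self_left, Nat.mod_eq_of_lt hr']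
        exact hrr (h8.symm.trans h9)
      obtain ⟨t, ht⟩ := hmin (q % s) (by omega) (Nat.mod_lt _ hs)
      exact ht (h5 t)
    · exact hret j (by omega) ⟨hj, _, h2⟩
  obtain ⟨t₀, ht₀⟩ := hlt
  refine prod_periodic_tendsto _ s hs (fun t => norm_nonneg _)
    (fun t => entry_norm_bound_of_unitary (pow_mem hU j) _ _) ?_ t₀ ht₀
  intro t
  rw [add_right_comm t s r, add_right_comm t s r', hw, hw]

lemma tpow_unitary {D : ℕ} (U : Matrix (Fin D) (Fin D) ℂ)
    (hU : U ∈ Matrix.unitaryGroup (Fin D) ℂ) (n : ℕ) :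
    tpow U n ∈ Matrix.unitaryGroup (Fin n → Fin D) ℂ :=
  TP_unitary (fun _ : Fin n => U) (fun _ => hU)

/-- expectations in an invariant state -/
lemma expect_inv {W : Type} [Fintype W] [DecidableEq W] (T ρ : Matrix W W ℂ)
    (hT : T ∈ Matrix.unitaryGroup W ℂ) (h : T * ρ * Tᴴ = ρ) (f : W → ℂ) :
    star (T.mulVec f) ⬝ᵥ (ρ.mulVec (T.mulVec f)) = star f ⬝ᵥ (ρ.mulVec f) := by
  have h1 : Tᴴ * T = 1 := by
    have := Matrix.mem_unitaryGroup_iff'.1 hT
    simpa [Matrix.star_eq_conjTranspose] using this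
  have h2 : Tᴴ * ρ * T = ρ := by
    calc Tᴴ * ρ * T = Tᴴ * (T * ρ * Tᴴ) * T := by rw [h]
      _ = (Tᴴ * T) * ρ * (Tᴴ * T) := by simp only [Matrix.mul_assoc]
      _ = ρ := by rw [h1, one_mul, mul_one]
  rw [Matrix.star_mulVec, ← Matrix.dotProduct_mulVec, Matrix.mulVec_mulVec, Matrix.mulVec_mulVec,
    h2]

lemma fam_expect {D : ℕ} (U : Matrix (Fin D) (Fin D) ℂ)
    (hU : U ∈ Matrix.unitaryGroup (Fin D) ℂ)
    (ρ : ∀ n : ℕ, Matrix (Fin n → Fin D) (Fin n → Fin D) ℂ) (hρ : IsInvState U ρ)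
    (w : ℕ → Fin D) (i r n : ℕ) :
    star (pvs (fam U w i r) n) ⬝ᵥ ((ρ n).mulVec (pvs (fam U w i r) n)) =
      ρ n (fun t => w (t.val + r)) (fun t => w (t.val + r)) := by
  induction i with
  | zero =>
    have h1 : pvs (fam U w 0 r) n = Pi.single (fun t : Fin n => w (t.val + r)) 1 := by
      funext x
      unfold pvs fam bas
      simp only [pow_zero, Matrix.one_mulVec]
      by_cases hx : x = fun t : Fin n => w (t.val + r)
      · subst hx
        rw [Pi.single_eq_same]
        exact Finset.prod_eq_one (fun t _ => by rw [Pi.single_eq_same])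
      · rw [Pi.single_eq_of_ne hx]
        have : ∃ t, x t ≠ w (t.val + r) := by
          by_contra hc; push Not at hc; exact hx (funext hc)
        obtain ⟨t, ht⟩ := this
        exact Finset.prod_eq_zero (Finset.mem_univ t) (Pi.single_eq_of_ne ht _)
    rw [h1, Matrix.mulVec_single_one]
    unfold dotProduct
    rw [Finset.sum_eq_single (fun t : Fin n => w (t.val + r))]
    · simp [Matrix.col]
    · intro c _ hc; simp [hc]
    · intro h; exact absurd (Finset.mem_univ _) h
  | succ i ih =>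
    have h1 : pvs (fam U w (i + 1) r) n = (tpow U n).mulVec (pvs (fam U w i r) n) := by
      rw [tpow_pvs]; congr 1; funext t; unfold fam
      rw [Matrix.mulVec_mulVec, ← pow_succ']
    rw [h1, expect_inv _ _ (tpow_unitary U hU n) (hρ.inv n), ih]

theorem scar_upper {D : ℕ} (U : Matrix (Fin D) (Fin D) ℂ)
    (hU : U ∈ Matrix.unitaryGroup (Fin D) ℂ)
    (w : ℕ → Fin D) (s : ℕ) (hs : 1 ≤ s) (hw : ∀ t, w (t + s) = w t)
    (hmin : ∀ r, 1 ≤ r → r < s → ∃ t, w (t + r) ≠ w t) (M : ℕ)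
    (hret : ∀ i, i < M → ¬ Returns U w i)
    (ν : Measure (ℕ → Fin D)) [IsProbabilityMeasure ν] (hν : IsQuantumLimit U ν) :
    M * (ν (trans w)).toReal ≤ 1 := by
  obtain ⟨ρ, hρ, hd⟩ := (classification U hU ν).1 hν
  -- the overlaps tend to zero
  let G : ℕ → ℝ := fun n => ∑ p : Fin M × Fin s, ∑ q ∈ univ.erase p,
    ‖star (pvs (fam U w p.1 p.2) n) ⬝ᵥ pvs (fam U w q.1 q.2) n‖
  have hG : Tendsto G atTop (nhds 0) := by
    have h0 : (0 : ℝ) = ∑ p : Fin M × Fin s, ∑ q ∈ univ.erase p, 0 := by simp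
    rw [h0]
    refine tendsto_finsetSum _ (fun p _ => tendsto_finsetSum _ (fun q hq => ?_))
    have hpq : q ≠ p := (Finset.mem_erase.1 hq).1
    have e : ∀ n, ‖star (pvs (fam U w p.1 p.2) n) ⬝ᵥ pvs (fam U w q.1 q.2) n‖ =
        ∏ t ∈ range n, ‖star (fam U w p.1 p.2 t) ⬝ᵥ fam U w q.1 q.2 t‖ := by
      intro n
      rw [pvs_dot, norm_prod, Finset.prod_range]
    simp only [e]
    rcases le_total p.1.val q.1.val with h | h
    · refine overlap U hU w s hs hw hmin M hret _ _ _ _ q.1.isLt p.2.isLt q.2.isLt h ?_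
      intro hc
      rw [Prod.mk.injEq] at hc
      exact hpq (Prod.ext (Fin.ext hc.1.symm) (Fin.ext hc.2.symm))
    · have := overlap U hU w s hs hw hmin M hret q.1 p.1 q.2 p.2 p.1.isLt q.2.isLt p.2.isLt h (by
        intro hc
        rw [Prod.mk.injEq] at hc
        exact hpq (Prod.ext (Fin.ext hc.1) (Fin.ext hc.2)))
      refine this.congr (fun n => ?_)
      exact Finset.prod_congr rfl (fun t _ => norm_dot_comm _ _)
  have hmain : ∀ n, M * (ν (trans w)).toReal ≤ 1 + G n := by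
    intro n
    have h1 := gram_trace (ρ n) (hρ.pos n) (fun p : Fin M × Fin s => pvs (fam U w p.1 p.2) n) (by
      intro p
      have h2 := pvs_dot (fam U w p.1 p.2) (fam U w p.1 p.2) n
      rw [Finset.prod_eq_one (fun i _ => fam_unit U hU w _ _ _)] at h2
      have h3 : ((∑ x, ‖pvs (fam U w p.1 p.2) n x‖ ^ 2 : ℝ) : ℂ) = 1 := by
        rw [← h2]; unfold dotProduct; push_cast
        exact Finset.sum_congr rfl (fun c _ => (Complex.conj_mul' _).symm)
      exact_mod_cast h3)
    rw [hρ.trace n] at h1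
    simp only [fam_expect U hU ρ hρ w, hd, Complex.ofReal_re, Complex.one_re, mul_one] at h1
    refine le_trans ?_ h1
    rw [Fintype.sum_prod_type]
    simp only [Finset.sum_const, Finset.card_univ, Fintype.card_fin, nsmul_eq_mul]
    have h4 : (ν (trans w)).toReal ≤ ∑ r : Fin s, (ν (cyl (fun t : Fin n => w (t.val + r)))).toReal := by
      rw [← ENNReal.toReal_sum (fun r _ => measure_ne_top ν _)]
      refine ENNReal.toReal_mono (ENNReal.sum_ne_top.2 (fun r _ => measure_ne_top ν _)) ?_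
      refine le_trans (measure_mono ?_) (measure_iUnion_fintype_le ν _)
      rintro x ⟨r, hr⟩
      refine Set.mem_iUnion.2 ⟨⟨r % s, Nat.mod_lt _ hs⟩, ?_⟩
      intro t
      rw [hr]
      have := per_mul w s hw (r / s) (t + r % s)
      rw [add_assoc, mul_comm (r / s), Nat.mod_add_div] at this
      exact this
    exact mul_le_mul_of_nonneg_left h4 (Nat.cast_nonneg _)
  have hlim : Tendsto (fun n => 1 + G n) atTop (nhds (1 + 0)) := hG.const_add 1
  rw [add_zero] at hlim
  exact ge_of_tendsto' hlim hmain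

/-- the exact maximal mass of quantum limits on a periodic orbit -/
theorem scarring {D : ℕ} (U : Matrix (Fin D) (Fin D) ℂ)
    (hU : U ∈ Matrix.unitaryGroup (Fin D) ℂ) (w : ℕ → Fin D)
    (hw : ∃ s : ℕ, 1 ≤ s ∧ ∀ t, w (t + s) = w t) :
    (∀ m : ℕ, IsLeast {m : ℕ | Returns U w m} m →
      IsGreatest {x : ℝ | ∃ ν : Measure (ℕ → Fin D), IsProbabilityMeasure ν ∧
        IsQuantumLimit U ν ∧ x = (ν (trans w)).toReal} (1 / m)) ∧
    ((∀ m : ℕ, ¬ Returns U w m) → ∀ ν : Measure (ℕ → Fin D), IsProbabilityMeasure ν →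
      IsQuantumLimit U ν → ν (trans w) = 0) := by
  classical
  obtain ⟨⟨hs, hws⟩, hmin'⟩ := Nat.find_spec hw, @Nat.find_min _ _ hw
  set s := Nat.find hw with hsdef
  have hmin : ∀ r, 1 ≤ r → r < s → ∃ t, w (t + r) ≠ w t := by
    intro r hr hrs
    have := hmin' hrs
    push Not at this
    exact this hr
  constructor
  · intro m hm
    obtain ⟨⟨hm1, r₀, hr₀⟩, hleast⟩ := hm
    have hret : ∀ i, i < m → ¬ Returns U w i := fun i hi hR => by
      have := hleast hR; omega
    have hm0 : (0 : ℝ) < m := by exact_mod_cast hm1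
    have hup : ∀ ν : Measure (ℕ → Fin D), IsProbabilityMeasure ν → IsQuantumLimit U ν →
        (ν (trans w)).toReal ≤ 1 / m := by
      intro ν hν hq
      have := scar_upper U hU w s hs hws hmin m hret ν hq
      rw [le_div_iff₀ hm0]; linarith
    refine ⟨⟨nuP U w m s, nuP_prob U hU w m s hm1 hs, nuP_limit U hU w s hs hws m hm1 r₀ hr₀, ?_⟩,
      ?_⟩
    · refine le_antisymm ?_ (hup _ (nuP_prob U hU w m s hm1 hs)
        (nuP_limit U hU w s hs hws m hm1 r₀ hr₀))
      have hp := nuP_prob U hU w m s hm1 hs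
      have := ENNReal.toReal_mono (measure_ne_top _ _) (nuP_ge U w m s hm1 hs)
      rwa [ENNReal.toReal_ofReal (by positivity)] at this
    · rintro x ⟨ν, hν, hq, rfl⟩
      exact hup ν hν hq
  · intro hno ν hν hq
    have h1 : ∀ M : ℕ, M * (ν (trans w)).toReal ≤ 1 := fun M =>
      scar_upper U hU w s hs hws hmin M (fun i _ => hno i) ν hq
    have h2 : (ν (trans w)).toReal = 0 := by
      by_contra hne
      have hpos : 0 < (ν (trans w)).toReal := lt_of_le_of_ne ENNReal.toReal_nonneg (Ne.symm hne)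
      obtain ⟨M, hM⟩ := exists_nat_gt (1 / (ν (trans w)).toReal)
      have := h1 M
      rw [div_lt_iff₀ hpos] at hM
      linarith
    rcases (ENNReal.toReal_eq_zero_iff _).1 h2 with h | h
    · exact h
    · exact absurd h (measure_ne_top ν _)

end Pool.Agent.helper65.WB
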