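import Pool.Agent.helper65.WB.Cnj
import Pool.Agent.helper65.WB.Fou
import Pool.Agent.helper65.WB.Ups

set_option autoImplicit false

/-!
# The atomic parts of the quantum limits of the Walsh-quantised baker map
-/

namespace Pool.Agent.helper65.WB

open Finset Matrix MeasureTheory Filter
open scoped ComplexOrder ENNReal

/-! ## upper bound for finite sets -/

lemma fam_dot2 {D : ℕ} (U : Matrix (Fin D) (Fin D) ℂ) (hU : U ∈ Matrix.unitaryGroup (Fin D) ℂ)
    (x y : ℕ → Fin D) (i j t : ℕ) :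
    star (fam U x i 0 t) ⬝ᵥ fam U y (i + j) 0 t = (U ^ j) (x t) (y t) := by
  unfold fam
  rw [pow_add, ← Matrix.mulVec_mulVec, dot_unitary _ (pow_mem hU i), bas_mulVec, add_zero]

lemma prod_eventually_zero {D : ℕ} (U : Matrix (Fin D) (Fin D) ℂ)
    (hU : U ∈ Matrix.unitaryGroup (Fin D) ℂ) (x y : ℕ → Fin D) (hxy : x ≠ y) (i : ℕ) :
    Tendsto (fun n => ∏ t ∈ range n, ‖star (fam U x i 0 t) ⬝ᵥ fam U y i 0 t‖) atTop (nhds 0) := by
  obtain ⟨t₀, ht₀⟩ := Function.ne_iff.1 hxy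
  refine tendsto_const_nhds.congr' ?_
  filter_upwards [eventually_gt_atTop t₀] with n hn
  symm
  refine Finset.prod_eq_zero (Finset.mem_range.2 hn) ?_
  have := fam_dot2 U hU x y i 0 t₀
  rw [add_zero] at this
  rw [this, pow_zero, Matrix.one_apply_ne ht₀, norm_zero]

lemma prod_flat {D : ℕ} (hD : 2 ≤ D) (x y : ℕ → Fin D) (i : ℕ) :
    Tendsto (fun n => ∏ t ∈ range n, ‖star (fam (fou D) x i 0 t) ⬝ᵥ fam (fou D) y (i + 1) 0 t‖)
      atTop (nhds 0) := by
  have hD0 : (0 : ℝ) < D := by exact_mod_cast (by omega : 0 < D)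
  have hD2 : (2 : ℝ) ≤ D := by exact_mod_cast hD
  have h1 : ∀ a b, ‖fou D a b‖ = Real.sqrt (1 / D) := by
    intro a b
    rw [← fou_norm_sq D (by omega) a b, Real.sqrt_sq (norm_nonneg _)]
  have e : ∀ n, ∏ t ∈ range n, ‖star (fam (fou D) x i 0 t) ⬝ᵥ fam (fou D) y (i + 1) 0 t‖ =
      (Real.sqrt (1 / D)) ^ n := by
    intro n
    rw [Finset.prod_congr rfl (fun t _ => by
      rw [fam_dot2 (fou D) (fou_unitary D) x y i 1 t, pow_one, h1]), Finset.prod_const,
      Finset.card_range]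
  simp only [e]
  refine tendsto_pow_atTop_nhds_zero_of_lt_one (Real.sqrt_nonneg _) ?_
  rw [Real.sqrt_lt' one_pos, one_pow, div_lt_one hD0]
  linarith

theorem finite_upper {D : ℕ} (hD : 2 ≤ D) (X : Finset (ℕ → Fin D))
    (ν : Measure (ℕ → Fin D)) [IsProbabilityMeasure ν] (hν : IsQuantumLimit (fou D) ν) :
    ∑ x ∈ X, ν {x} ≤ 1 / 2 := by
  classical
  have hU := fou_unitary D
  obtain ⟨ρ, hρ, hd⟩ := (classification (fou D) hU ν).1 hν
  let U := fou D
  let f : ∀ n : ℕ, Fin 2 × X → (Fin n → Fin D) → ℂ := fun n p => pvs (fam (fou D) p.2.1 p.1.val 0) n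
  let G : ℕ → ℝ := fun n => ∑ p : Fin 2 × X, ∑ q ∈ univ.erase p, ‖star (f n p) ⬝ᵥ f n q‖
  have hG : Tendsto G atTop (nhds 0) := by
    have h0 : (0 : ℝ) = ∑ p : Fin 2 × X, ∑ q ∈ univ.erase p, 0 := by simp
    rw [h0]
    refine tendsto_finsetSum _ (fun p _ => tendsto_finsetSum _ (fun q hq => ?_))
    have hpq : q ≠ p := (Finset.mem_erase.1 hq).1
    have e : ∀ n, ‖star (f n p) ⬝ᵥ f n q‖ =
        ∏ t ∈ range n, ‖star (fam (fou D) p.2.1 p.1.val 0 t) ⬝ᵥ fam (fou D) q.2.1 q.1.val 0 t‖ := by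
      intro n
      show ‖star (pvs (fam (fou D) p.2.1 p.1.val 0) n) ⬝ᵥ pvs (fam (fou D) q.2.1 q.1.val 0) n‖ = _
      rw [pvs_dot, norm_prod, Finset.prod_range]
    simp only [e]
    obtain ⟨i, x⟩ := p
    obtain ⟨j, y⟩ := q
    dsimp only
    rcases lt_trichotomy i.val j.val with h | h | h
    · have hi : i.val = 0 := by omega
      have hj : j.val = 0 + 1 := by omega
      rw [hi, hj]
      exact prod_flat hD x.1 y.1 0
    · have hij : i = j := Fin.ext h
      subst hij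
      refine prod_eventually_zero (fou D) hU x.1 y.1 ?_ i.val
      intro hxy
      exact hpq (by rw [Subtype.ext hxy])
    · have hj : j.val = 0 := by omega
      have hi : i.val = 0 + 1 := by omega
      rw [hi, hj]
      refine (prod_flat hD y.1 x.1 0).congr (fun n => ?_)
      exact Finset.prod_congr rfl (fun t _ => norm_dot_comm _ _)
  have hmain : ∀ n, 2 * ∑ x ∈ X, (ν {x}).toReal ≤ 1 + G n := by
    intro n
    have h1 := gram_trace (ρ n) (hρ.pos n) (f n) (by
      intro p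
      have h2 := pvs_dot (fam (fou D) p.2.1 p.1.val 0) (fam (fou D) p.2.1 p.1.val 0) n
      rw [Finset.prod_eq_one (fun i _ => fam_unit (fou D) hU _ _ _ _)] at h2
      have h3 : ((∑ x, ‖pvs (fam (fou D) p.2.1 p.1.val 0) n x‖ ^ 2 : ℝ) : ℂ) = 1 := by
        rw [← h2]; unfold dotProduct; push_cast
        exact Finset.sum_congr rfl (fun c _ => (Complex.conj_mul' _).symm)
      exact_mod_cast h3)
    rw [hρ.trace n] at h1
    have h5 : ∀ p : Fin 2 × X, (star (f n p) ⬝ᵥ ((ρ n).mulVec (f n p))).re =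
        (ν (cyl (fun t : Fin n => p.2.1 (t.val + 0)))).toReal := by
      intro p
      show (star (pvs (fam (fou D) p.2.1 p.1.val 0) n) ⬝ᵥ
        ((ρ n).mulVec (pvs (fam (fou D) p.2.1 p.1.val 0) n))).re = _
      rw [fam_expect (fou D) hU ρ hρ, hd, Complex.ofReal_re]
    simp only [h5, Complex.one_re, mul_one] at h1
    refine le_trans ?_ h1
    rw [Fintype.sum_prod_type]
    simp only [Finset.sum_const, Finset.card_univ, Fintype.card_fin, nsmul_eq_mul]
    have h4 : ∑ x ∈ X, (ν {x}).toReal ≤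
        ∑ x : X, (ν (cyl (fun t : Fin n => x.1 (t.val + 0)))).toReal := by
      rw [← Finset.sum_coe_sort X (fun x => (ν {x}).toReal)]
      refine Finset.sum_le_sum (fun x _ => ?_)
      refine ENNReal.toReal_mono (measure_ne_top ν _) (measure_mono ?_)
      rintro y hy t
      rw [Set.mem_singleton_iff.1 hy]; rfl
    push_cast
    linarith
  have hlim : Tendsto (fun n => 1 + G n) atTop (nhds (1 + 0)) := hG.const_add 1
  rw [add_zero] at hlim
  have h2 := ge_of_tendsto' hlim hmain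
  rw [← ENNReal.toReal_sum (fun x _ => measure_ne_top ν _)] at h2
  have h3 : (∑ x ∈ X, ν {x}).toReal ≤ (1 / 2 : ℝ≥0∞).toReal := by
    rw [ENNReal.toReal_div]; simp only [ENNReal.toReal_one, ENNReal.toReal_ofNat]; linarith
  exact (ENNReal.toReal_le_toReal (ENNReal.sum_ne_top.2 (fun x _ => measure_ne_top ν _))
    (by simp)).1 h3

end Pool.Agent.helper65.WB
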