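import Pool.Agent.helper65.WB.TP

set_option autoImplicit false

namespace Pool.Agent.helper65.WB

open Finset Matrix

lemma BP_cyc_lt {D k : ℕ} (x : Fin (k + 1) → Fin D) (m : ℕ) (h : m < k + 1) :
    cyc x m = x ⟨m, h⟩ := by
  unfold cyc; congr 1; ext; exact Nat.mod_eq_of_lt h

lemma BP_cyc_mod {D k : ℕ} (x : Fin (k + 1) → Fin D) (m : ℕ) :
    cyc x (m % (k + 1)) = cyc x m := by
  unfold cyc; congr 1; ext; exact Nat.mod_mod _ _

lemma BP_cyc_sh {D k : ℕ} (x : Fin (k + 1) → Fin D) (m : ℕ) :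
    cyc (sh x) m = cyc x (m + k) := by
  have : cyc (sh x) m = cyc x (m % (k + 1) + k) := rfl
  rw [this]
  unfold cyc; congr 1; ext
  exact Nat.mod_add_mod _ _ _

lemma BP_cyc_iter {D k : ℕ} (x : Fin (k + 1) → Fin D) (t m : ℕ) :
    cyc (sh^[t] x) m = cyc x (m + t * k) := by
  induction t generalizing x m with
  | zero => simp
  | succ t ih => rw [Function.iterate_succ_apply, ih, BP_cyc_sh]; congr 1; ring

lemma BP_ext {D k : ℕ} {x y : Fin (k + 1) → Fin D} (h : ∀ m, cyc x m = cyc y m) : x = y := by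
  funext i
  have := h i.val
  rwa [BP_cyc_lt x i.val i.isLt, BP_cyc_lt y i.val i.isLt] at this

theorem sh_full {D k : ℕ} (x : Fin (k + 1) → Fin D) : sh^[k + 1] x = x := by
  apply BP_ext
  intro m
  rw [BP_cyc_iter]
  unfold cyc; congr 1; ext
  simp

theorem sh_bijective {D k : ℕ} : Function.Bijective (sh : (Fin (k + 1) → Fin D) → _) := by
  have h : ∀ x : Fin (k + 1) → Fin D, sh (sh^[k] x) = x := fun x => by
    rw [← Function.iterate_succ_apply' sh k x]; exact sh_full x
  have h' : ∀ x : Fin (k + 1) → Fin D, sh^[k] (sh x) = x := fun x => by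
    rw [← Function.iterate_succ_apply sh k x]; exact sh_full x
  exact ⟨Function.LeftInverse.injective h', Function.RightInverse.surjective h⟩

/-- the one-step factor -/
def BP_V0 {D : ℕ} (U : Matrix (Fin D) (Fin D) ℂ) (k : ℕ) (i : Fin (k + 1)) :
    Matrix (Fin D) (Fin D) ℂ := if i.val = 0 then U else 1

lemma BP_sh_zero {D k : ℕ} (x : Fin (k + 1) → Fin D) : sh x 0 = x (Fin.last k) := by
  unfold sh
  rw [BP_cyc_lt _ _ (by simp)]
  congr 1; ext; simp

lemma BP_sh_succ {D k : ℕ} (x : Fin (k + 1) → Fin D) (i : Fin k) :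
    sh x i.succ = Fin.init x i := by
  unfold sh cyc Fin.init
  congr 1; ext
  simp only [Fin.val_succ, Fin.val_castSucc]
  rw [show i.val + 1 + k = i.val + (k + 1) by ring, Nat.add_mod_right,
    Nat.mod_eq_of_lt (by omega)]

lemma BP_TP {D k : ℕ} (U : Matrix (Fin D) (Fin D) ℂ) (x : Fin (k + 1) → Fin D) (c : Fin D)
    (z : Fin k → Fin D) :
    TP (BP_V0 U k) (sh x) (Fin.cons c z) = if z = Fin.init x then U (x (Fin.last k)) c else 0 := by
  have e0 : BP_V0 U k 0 = U := by simp [BP_V0]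
  have e2 : ∀ i : Fin k, BP_V0 U k i.succ = 1 := fun i => by simp [BP_V0]
  have e3 : TP (BP_V0 U k) (sh x) (Fin.cons c z)
      = U (x (Fin.last k)) c * ∏ i : Fin k, (if Fin.init x i = z i then (1 : ℂ) else 0) := by
    unfold TP
    rw [Fin.prod_univ_succ, e0, BP_sh_zero, Fin.cons_zero]
    congr 1
    refine Finset.prod_congr rfl (fun i _ => ?_)
    rw [e2, BP_sh_succ, Fin.cons_succ, Matrix.one_apply]
  rw [e3]
  split_ifs with h
  · subst h; simp
  · obtain ⟨i, hi⟩ := Function.ne_iff.1 h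
    have : ∏ i : Fin k, (if Fin.init x i = z i then (1 : ℂ) else 0) = 0 := by
      refine Finset.prod_eq_zero (Finset.mem_univ i) (if_neg (fun h => hi h.symm))
    rw [this, mul_zero]

lemma BP_one {D k : ℕ} (U : Matrix (Fin D) (Fin D) ℂ) (ψ : (Fin (k + 1) → Fin D) → ℂ)
    (x : Fin (k + 1) → Fin D) :
    baker U ψ x = (TP (BP_V0 U k)).mulVec ψ (sh x) := by
  have h : (TP (BP_V0 U k)).mulVec ψ (sh x) = ∑ c : Fin D, ∑ z : Fin k → Fin D,
      TP (BP_V0 U k) (sh x) (Fin.cons c z) * ψ (Fin.cons c z) := by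
    unfold Matrix.mulVec dotProduct
    rw [← Equiv.sum_comp (Fin.consEquiv (fun _ : Fin (k + 1) => Fin D)), Fintype.sum_prod_type]
    rfl
  rw [h]
  unfold baker
  refine Finset.sum_congr rfl (fun c _ => ?_)
  rw [Finset.sum_eq_single (Fin.init x)]
  · rw [BP_TP, if_pos rfl]
  · intro z _ hz
    rw [BP_TP, if_neg hz, zero_mul]
  · intro h; exact absurd (Finset.mem_univ _) h

lemma BP_cnt_succ (k t : ℕ) (i : Fin (k + 1)) :
    cnt k (t + 1) i = (if i.val = t % (k + 1) then 1 else 0) + cnt k t i := by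
  unfold cnt
  have hi := i.isLt
  have hlt := Nat.mod_lt t (Nat.succ_pos k)
  have hdm := Nat.div_add_mod t (k + 1)
  by_cases h : t % (k + 1) = k
  · have e : t + 1 = (k + 1) * (t / (k + 1) + 1) := by
      rw [mul_add, mul_one]; omega
    have e1 : (t + 1) / (k + 1) = t / (k + 1) + 1 := by
      conv_lhs => rw [e]
      exact Nat.mul_div_cancel_left _ (Nat.succ_pos k)
    have e2 : (t + 1) % (k + 1) = 0 := by
      conv_lhs => rw [e]
      exact Nat.mul_mod_right _ _
    rw [e1, e2, h]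
    by_cases hik : i.val = k
    · simp [hik]; omega
    · have : i.val < k := by omega
      simp [hik, this]
  · have hlt' : t % (k + 1) + 1 < k + 1 := by
      have : t % (k + 1) < k + 1 := hlt
      omega
    have e : t + 1 = (t % (k + 1) + 1) + (k + 1) * (t / (k + 1)) := by omega
    have e1 : (t + 1) / (k + 1) = t / (k + 1) := by
      conv_lhs => rw [e, Nat.add_mul_div_left _ _ (Nat.succ_pos k), Nat.div_eq_of_lt hlt']
      simp
    have e2 : (t + 1) % (k + 1) = t % (k + 1) + 1 := by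
      conv_lhs => rw [e, Nat.add_mul_mod_self_left, Nat.mod_eq_of_lt hlt']
    rw [e1, e2]
    split_ifs <;> omega

/-- `B ^ t = T ^ t (⊗ᵢ U ^ cnt)` -/
theorem baker_iterate {D k : ℕ} (U : Matrix (Fin D) (Fin D) ℂ) (t : ℕ)
    (ψ : (Fin (k + 1) → Fin D) → ℂ) :
    (baker U)^[t] ψ = fun x => (TP (fun i => U ^ cnt k t i)).mulVec ψ (sh^[t] x) := by
  induction t with
  | zero =>
    funext x
    have : (fun i => U ^ cnt k 0 i) = fun _ => (1 : Matrix (Fin D) (Fin D) ℂ) := by
      funext i; simp [cnt]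
    rw [this, TP_one]
    simp
  | succ t ih =>
    rw [Function.iterate_succ_apply', ih]
    funext x
    rw [BP_one]
    -- reindex by `sh^[t]`
    have hbij : Function.Bijective (sh^[t] : (Fin (k + 1) → Fin D) → _) :=
      sh_bijective.iterate t
    have hmul : TP (fun i => U ^ cnt k (t + 1) i)
        = TP (fun i : Fin (k + 1) => if i.val = t % (k + 1) then U else 1) *
          TP (fun i => U ^ cnt k t i) := by
      rw [TP_mul]; congr 1; funext i
      rw [BP_cnt_succ, pow_add]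
      split_ifs <;> simp
    rw [hmul, ← Matrix.mulVec_mulVec]
    conv_lhs => unfold Matrix.mulVec dotProduct
    conv_rhs => unfold Matrix.mulVec dotProduct
    refine Fintype.sum_bijective _ hbij _ _ (fun y => ?_)
    congr 1
    -- the product over sites
    unfold TP
    have hperm : Function.Bijective (fun i : Fin (k + 1) =>
        (⟨(i.val + t) % (k + 1), Nat.mod_lt _ (Nat.succ_pos k)⟩ : Fin (k + 1))) := by
      rw [Fintype.bijective_iff_injective_and_card]
      refine ⟨fun i j hij => ?_, rfl⟩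
      simp only [Fin.mk.injEq] at hij
      have h1 : i.val ≡ j.val [MOD (k + 1)] := Nat.ModEq.add_right_cancel' t hij
      ext
      exact Nat.ModEq.eq_of_lt_of_lt h1 i.isLt j.isLt
    refine Fintype.prod_bijective _ hperm _ _ (fun i => ?_)
    have hV : BP_V0 U k i = (if (i.val + t) % (k + 1) = t % (k + 1) then U else 1) := by
      unfold BP_V0
      congr 1
      apply propext
      constructor
      · intro h; rw [h, zero_add]
      · intro h
        have h1 : i.val + t ≡ 0 + t [MOD (k + 1)] := by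
          rw [zero_add]; exact h
        have h2 := Nat.ModEq.add_right_cancel' t h1
        exact Nat.ModEq.eq_of_lt_of_lt h2 i.isLt (Nat.succ_pos k)
    have hx : ∀ z : Fin (k + 1) → Fin D, (sh^[t] z)
        ⟨(i.val + t) % (k + 1), Nat.mod_lt _ (Nat.succ_pos k)⟩ = z i := by
      intro z
      have h1 : (sh^[t] z) ⟨(i.val + t) % (k + 1), Nat.mod_lt _ (Nat.succ_pos k)⟩
          = cyc (sh^[t] z) (i.val + t) := rfl
      rw [h1, BP_cyc_iter, show i.val + t + t * k = i.val + t * (k + 1) by ring]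
      unfold cyc; congr 1; ext
      simp only
      rw [Nat.add_mul_mod_self_right, Nat.mod_eq_of_lt i.isLt]
    simp only []
    rw [hV, Function.iterate_succ_apply]
    rw [hx (sh x), hx y]

/-- `B ^ N = U ⊗ ⋯ ⊗ U` -/
theorem baker_full {D k : ℕ} (U : Matrix (Fin D) (Fin D) ℂ) (ψ : (Fin (k + 1) → Fin D) → ℂ) :
    (baker U)^[k + 1] ψ = (tpow U (k + 1)).mulVec ψ := by
  rw [baker_iterate]
  funext x
  rw [sh_full]
  have : (fun i => U ^ cnt k (k + 1) i) = fun _ : Fin (k + 1) => U := by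
    funext i; simp [cnt]
  rw [this]
  rfl

/-- the matrix of the baker map is unitary -/
theorem exists_bakerM {D : ℕ} (U : Matrix (Fin D) (Fin D) ℂ)
    (hU : U ∈ Matrix.unitaryGroup (Fin D) ℂ) (k : ℕ) :
    ∃ B ∈ Matrix.unitaryGroup (Fin (k + 1) → Fin D) ℂ,
      ∀ ψ : (Fin (k + 1) → Fin D) → ℂ, B.mulVec ψ = baker U ψ := by
  have hV : TP (BP_V0 U k) ∈ Matrix.unitaryGroup (Fin (k + 1) → Fin D) ℂ := by
    apply TP_unitary
    intro i
    unfold BP_V0
    split_ifs
    · exact hU
    · exact one_mem _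
  refine ⟨Matrix.of (fun x y => TP (BP_V0 U k) (sh x) y), ?_, ?_⟩
  · rw [Matrix.mem_unitaryGroup_iff]
    ext x y
    have h1 := congrFun (congrFun (Matrix.mem_unitaryGroup_iff.1 hV) (sh x)) (sh y)
    rw [Matrix.mul_apply] at h1 ⊢
    have h2 : (1 : Matrix (Fin (k + 1) → Fin D) (Fin (k + 1) → Fin D) ℂ) x y
        = (1 : Matrix (Fin (k + 1) → Fin D) (Fin (k + 1) → Fin D) ℂ) (sh x) (sh y) := by
      simp only [Matrix.one_apply, sh_bijective.injective.eq_iff]
    rw [h2, ← h1]
    rfl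
  · intro ψ
    funext x
    rw [BP_one]
    rfl

end Pool.Agent.helper65.WB
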