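import Pool.Agent.helper65.WB.Gram

set_option autoImplicit false

/-!
# Bombieri's inequality for the expectations in a density matrix
-/

namespace Pool.Agent.helper65.WB

open Finset Matrix
open scoped ComplexOrder

/-- Bombieri's inequality -/
lemma bombieri {E : Type} [NormedAddCommGroup E] [InnerProductSpace ℂ E] {P : Type} [Fintype P]
    (f : P → E) (R : ℝ) (hR : ∀ p, ∑ q, ‖inner ℂ (f p) (f q)‖ ≤ R) (hR0 : 0 ≤ R) (v : E) :
    ∑ p, ‖inner ℂ (f p) v‖ ^ 2 ≤ R * ‖v‖ ^ 2 := by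
  set b : P → ℂ := fun p => inner ℂ (f p) v with hb
  set Q : ℝ := ∑ p, ‖b p‖ ^ 2 with hQ
  set S : E := ∑ p, b p • f p with hS
  have hQ0 : 0 ≤ Q := Finset.sum_nonneg (fun _ _ => by positivity)
  have h1 : inner ℂ S v = (Q : ℂ) := by
    rw [hS, sum_inner, hQ]
    push_cast
    refine Finset.sum_congr rfl (fun p _ => ?_)
    rw [inner_smul_left]
    exact Complex.conj_mul' (b p)
  have h2 : Q ≤ ‖S‖ * ‖v‖ := by
    have := norm_inner_le_norm (𝕜 := ℂ) S v
    rw [h1, Complex.norm_real, Real.norm_of_nonneg hQ0] at this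
    exact this
  have h3 : ‖S‖ ^ 2 ≤ R * Q := by
    have e1 : ‖S‖ ^ 2 = ‖inner ℂ S S‖ := by
      rw [inner_self_eq_norm_sq_to_K]; simp
    have e2 : inner ℂ S S = ∑ p, ∑ q, (starRingEnd ℂ) (b p) * (b q * inner ℂ (f p) (f q)) := by
      conv_lhs => rw [hS]
      rw [sum_inner]
      refine Finset.sum_congr rfl (fun p _ => ?_)
      rw [inner_smul_left, inner_sum, Finset.mul_sum]
      refine Finset.sum_congr rfl (fun q _ => ?_)
      rw [inner_smul_right]
    rw [e1, e2]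
    refine (norm_sum_le _ _).trans ?_
    have hsymm : ∀ p q, ‖inner ℂ (f p) (f q)‖ = ‖inner ℂ (f q) (f p)‖ := fun p q =>
      norm_inner_symm _ _
    calc ∑ p, ‖∑ q, (starRingEnd ℂ) (b p) * (b q * inner ℂ (f p) (f q))‖
        ≤ ∑ p, ∑ q, (‖b p‖ ^ 2 / 2 * ‖inner ℂ (f p) (f q)‖ +
            ‖b q‖ ^ 2 / 2 * ‖inner ℂ (f q) (f p)‖) := by
          refine Finset.sum_le_sum (fun p _ => (norm_sum_le _ _).trans
            (Finset.sum_le_sum (fun q _ => ?_)))
          rw [norm_mul, norm_mul, RCLike.norm_conj, ← hsymm p q]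
          nlinarith [mul_nonneg (sq_nonneg (‖b p‖ - ‖b q‖)) (norm_nonneg (inner ℂ (f p) (f q)))]
      _ = ∑ p, ‖b p‖ ^ 2 / 2 * ∑ q, ‖inner ℂ (f p) (f q)‖ +
            ∑ q, ‖b q‖ ^ 2 / 2 * ∑ p, ‖inner ℂ (f q) (f p)‖ := by
          simp only [Finset.sum_add_distrib]
          congr 1
          · simp only [Finset.mul_sum]
          · rw [Finset.sum_comm]; simp only [Finset.mul_sum]
      _ ≤ ∑ p, ‖b p‖ ^ 2 / 2 * R + ∑ q, ‖b q‖ ^ 2 / 2 * R := by
          refine add_le_add (Finset.sum_le_sum (fun p _ => ?_)) (Finset.sum_le_sum (fun p _ => ?_))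
          · exact mul_le_mul_of_nonneg_left (hR p) (by positivity)
          · exact mul_le_mul_of_nonneg_left (hR p) (by positivity)
      _ = R * Q := by
          rw [← Finset.sum_mul, ← Finset.sum_div, ← hQ]; ring
  have h4 : Q ^ 2 ≤ R * Q * ‖v‖ ^ 2 := by
    calc Q ^ 2 ≤ (‖S‖ * ‖v‖) ^ 2 := by gcongr
      _ = ‖S‖ ^ 2 * ‖v‖ ^ 2 := by ring
      _ ≤ R * Q * ‖v‖ ^ 2 := by gcongr
  rcases hQ0.eq_or_lt with h0 | h0
  · show Q ≤ R * ‖v‖ ^ 2
    rw [← h0]; positivity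
  · have : Q * Q ≤ Q * (R * ‖v‖ ^ 2) := by nlinarith
    exact le_of_mul_le_mul_left this h0

/-- the sum of the expectations of almost orthonormal vectors in a density matrix -/
lemma bombieri_trace {W P : Type} [Fintype W] [DecidableEq W] [Fintype P]
    (ρ : Matrix W W ℂ) (hρ : ρ.PosSemidef) (f : P → W → ℂ) (R : ℝ)
    (hR : ∀ p, ∑ q, ‖star (f p) ⬝ᵥ f q‖ ≤ R) (hR0 : 0 ≤ R) :
    ∑ p, (star (f p) ⬝ᵥ (ρ.mulVec (f p))).re ≤ R * ρ.trace.re := by
  obtain ⟨M, hM⟩ := psd_fact ρ hρ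
  -- rows of `M`
  set r : W → EuclideanSpace ℂ W := fun c => WithLp.toLp 2 (fun x => star (M c x)) with hr
  set F : P → EuclideanSpace ℂ W := fun p => WithLp.toLp 2 (f p) with hF
  have hin : ∀ p q, inner ℂ (F p) (F q) = star (f p) ⬝ᵥ f q := by
    intro p q
    rw [EuclideanSpace.inner_eq_star_dotProduct, dotProduct_comm]
  have hexp : ∀ p, star (f p) ⬝ᵥ (ρ.mulVec (f p)) = ((∑ c, ‖inner ℂ (F p) (r c)‖ ^ 2 : ℝ) : ℂ) := by
    intro p
    rw [hM, ← Matrix.mulVec_mulVec, Matrix.dotProduct_mulVec, ← Matrix.star_mulVec]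
    push_cast
    simp only [dotProduct, Pi.star_apply]
    refine Finset.sum_congr rfl (fun c _ => ?_)
    have : inner ℂ (F p) (r c) = star (M.mulVec (f p) c) := by
      rw [EuclideanSpace.inner_eq_star_dotProduct]
      simp only [hF, hr, Matrix.mulVec, dotProduct, Pi.star_apply, star_sum, star_mul']
    rw [this, norm_star, ← Complex.conj_mul']
    rfl
  have htr : ρ.trace = ((∑ c, ‖r c‖ ^ 2 : ℝ) : ℂ) := by
    rw [hM]
    simp only [Matrix.trace, Matrix.diag, Matrix.mul_apply, Matrix.conjTranspose_apply]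
    rw [Finset.sum_comm]
    push_cast
    refine Finset.sum_congr rfl (fun c _ => ?_)
    have hn : ‖r c‖ ^ 2 = ∑ x, ‖M c x‖ ^ 2 := by
      rw [EuclideanSpace.norm_sq_eq]; simp [hr]
    have hn' : ((‖r c‖ : ℂ)) ^ 2 = ((∑ x, ‖M c x‖ ^ 2 : ℝ) : ℂ) := by
      rw [← hn]; push_cast; rfl
    rw [hn']
    push_cast
    exact Finset.sum_congr rfl (fun x _ => Complex.conj_mul' (M c x))
  simp only [hexp, Complex.ofReal_re, htr]
  rw [Finset.sum_comm, Finset.mul_sum]
  refine Finset.sum_le_sum (fun c _ => ?_)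
  have := bombieri F R (by simpa only [hin] using hR) hR0 (r c)
  simpa only [hin] using this

end Pool.Agent.helper65.WB
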