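import Pool.Agent.helper65.WB.Meas

set_option autoImplicit false

/-!
# Product vectors depending on the site
-/

namespace Pool.Agent.helper65.WB

open Finset Matrix MeasureTheory
open scoped ComplexOrder

/-- the product vector `φ 0 ⊗ ⋯ ⊗ φ (n - 1)` -/
def pvs {D : ℕ} (φ : ℕ → Fin D → ℂ) (n : ℕ) : (Fin n → Fin D) → ℂ := fun x => ∏ i, φ i.val (x i)

/-- its state -/
def psts {D : ℕ} (φ : ℕ → Fin D → ℂ) (n : ℕ) : Matrix (Fin n → Fin D) (Fin n → Fin D) ℂ :=
  vecMulVec (pvs φ n) (star (pvs φ n))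

lemma tpow_pvs {D : ℕ} (U : Matrix (Fin D) (Fin D) ℂ) (φ : ℕ → Fin D → ℂ) (n : ℕ) :
    (tpow U n).mulVec (pvs φ n) = pvs (fun i => U.mulVec (φ i)) n := by
  funext x
  simp only [Matrix.mulVec, dotProduct, tpow, pvs]
  rw [Finset.prod_univ_sum, Fintype.piFinset_univ]
  exact Finset.sum_congr rfl (fun z _ => Finset.prod_mul_distrib.symm)

lemma tpow_psts {D : ℕ} (U : Matrix (Fin D) (Fin D) ℂ) (φ : ℕ → Fin D → ℂ) (n : ℕ) :
    tpow U n * psts φ n * (tpow U n)ᴴ = psts (fun i => U.mulVec (φ i)) n := by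
  unfold psts
  rw [Matrix.mul_vecMulVec, Matrix.vecMulVec_mul, tpow_pvs, ← tpow_pvs, ← Matrix.star_mulVec]

lemma pvs_dot {D : ℕ} (φ χ : ℕ → Fin D → ℂ) (n : ℕ) :
    star (pvs φ n) ⬝ᵥ pvs χ n = ∏ i : Fin n, (star (φ i.val) ⬝ᵥ χ i.val) := by
  simp only [dotProduct, pvs, Pi.star_apply, star_prod]
  rw [Finset.prod_univ_sum, Fintype.piFinset_univ]
  exact Finset.sum_congr rfl (fun z _ => Finset.prod_mul_distrib.symm)

lemma psts_trace {D : ℕ} (φ : ℕ → Fin D → ℂ) (hφ : ∀ i, star (φ i) ⬝ᵥ φ i = 1) (n : ℕ) :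
    (psts φ n).trace = 1 := by
  unfold psts
  rw [Matrix.trace_vecMulVec, dotProduct_comm, pvs_dot]
  exact Finset.prod_eq_one (fun i _ => hφ i.val)

lemma psts_pos {D : ℕ} (φ : ℕ → Fin D → ℂ) (n : ℕ) : (psts φ n).PosSemidef :=
  Matrix.posSemidef_vecMulVec_self_star _

lemma psts_right {D : ℕ} (φ : ℕ → Fin D → ℂ) (hφ : ∀ i, star (φ i) ⬝ᵥ φ i = 1) (n : ℕ)
    (u v : Fin n → Fin D) :
    ∑ c, psts φ (n + 1) (Fin.snoc (α := fun _ => Fin D) u c) (Fin.snoc (α := fun _ => Fin D) v c)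
      = psts φ n u v := by
  simp only [psts, vecMulVec_apply, pvs, Pi.star_apply, Fin.prod_univ_castSucc, Fin.snoc_castSucc,
    Fin.snoc_last, star_mul', Fin.val_castSucc, Fin.val_last]
  have h := hφ n
  simp only [dotProduct, Pi.star_apply] at h
  rw [← mul_one ((∏ i : Fin n, φ i.val (u i)) * star (∏ i : Fin n, φ i.val (v i))), ← h,
    Finset.mul_sum]
  exact Finset.sum_congr rfl (fun c _ => by ring)

lemma psts_left {D : ℕ} (φ : ℕ → Fin D → ℂ) (hφ : ∀ i, star (φ i) ⬝ᵥ φ i = 1) (n : ℕ)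
    (u v : Fin n → Fin D) :
    ∑ c, psts φ (n + 1) (Fin.cons (α := fun _ => Fin D) c u) (Fin.cons (α := fun _ => Fin D) c v)
      = psts (fun i => φ (i + 1)) n u v := by
  simp only [psts, vecMulVec_apply, pvs, Pi.star_apply, Fin.prod_univ_succ, Fin.cons_succ,
    Fin.cons_zero, star_mul', Fin.val_zero, Fin.val_succ]
  have h := hφ 0
  simp only [dotProduct, Pi.star_apply] at h
  rw [← mul_one ((∏ i : Fin n, φ (i.val + 1) (u i)) * star (∏ i : Fin n, φ (i.val + 1) (v i))),
    ← h, Finset.mul_sum]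
  exact Finset.sum_congr rfl (fun c _ => by ring)

lemma psts_phase {D : ℕ} (φ : ℕ → Fin D → ℂ) (z : ℕ → ℂ) (hz : ∀ i, z i * star (z i) = 1)
    (n : ℕ) : psts (fun i => z i • φ i) n = psts φ n := by
  ext x y
  simp only [psts, vecMulVec_apply, pvs, Pi.star_apply, Pi.smul_apply, smul_eq_mul,
    Finset.prod_mul_distrib, star_mul']
  have : (∏ i : Fin n, z i.val) * star (∏ i : Fin n, z i.val) = 1 := by
    rw [star_prod, ← Finset.prod_mul_distrib]
    exact Finset.prod_eq_one (fun i _ => hz i.val)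
  calc _ = (∏ i : Fin n, z i.val) * star (∏ i : Fin n, z i.val) *
        ((∏ i : Fin n, φ i.val (x i)) * star (∏ i : Fin n, φ i.val (y i))) := by ring
    _ = _ := by rw [this, one_mul]

/-- the basis vector `e_a` -/
def bas {D : ℕ} (a : Fin D) : Fin D → ℂ := Pi.single a 1

lemma bas_dot {D : ℕ} (a b : Fin D) : star (bas a) ⬝ᵥ bas b = if a = b then 1 else 0 := by
  unfold bas dotProduct
  rw [Finset.sum_eq_single a]
  · simp only [Pi.star_apply, Pi.single_eq_same, star_one, one_mul, Pi.single_apply]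
  · intro c _ hc; simp [Pi.single_apply, hc]
  · intro h; exact absurd (Finset.mem_univ _) h

lemma dot_unitary {D : ℕ} (V : Matrix (Fin D) (Fin D) ℂ) (hV : V ∈ Matrix.unitaryGroup (Fin D) ℂ)
    (φ χ : Fin D → ℂ) : star (V.mulVec φ) ⬝ᵥ V.mulVec χ = star φ ⬝ᵥ χ := by
  rw [Matrix.star_mulVec, ← Matrix.dotProduct_mulVec, Matrix.mulVec_mulVec]
  have h : Vᴴ * V = 1 := by
    have := Matrix.mem_unitaryGroup_iff'.1 hV
    simpa [Matrix.star_eq_conjTranspose] using this
  rw [h, Matrix.one_mulVec]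

lemma bas_mulVec {D : ℕ} (V : Matrix (Fin D) (Fin D) ℂ) (a b : Fin D) :
    star (bas a) ⬝ᵥ V.mulVec (bas b) = V a b := by
  unfold bas
  rw [Matrix.mulVec_single_one]
  unfold dotProduct
  rw [Finset.sum_eq_single a]
  · simp [Matrix.col]
  · intro c _ hc; simp [Pi.single_apply, hc]
  · intro h; exact absurd (Finset.mem_univ _) h

/-- the periodic family `U ^ i e_{w (t + r)}` -/
def fam {D : ℕ} (U : Matrix (Fin D) (Fin D) ℂ) (w : ℕ → Fin D) (i r : ℕ) : ℕ → Fin D → ℂ :=
  fun t => (U ^ i).mulVec (bas (w (t + r)))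

lemma fam_unit {D : ℕ} (U : Matrix (Fin D) (Fin D) ℂ)
    (hU : U ∈ Matrix.unitaryGroup (Fin D) ℂ) (w : ℕ → Fin D) (i r t : ℕ) :
    star (fam U w i r t) ⬝ᵥ fam U w i r t = 1 := by
  unfold fam
  rw [dot_unitary _ (pow_mem hU i), bas_dot, if_pos rfl]

/-- sums over a period -/
lemma sum_period {M : Type} [AddCommGroup M] (F : ℕ → M) (s : ℕ) (h : ∀ r, F (r + s) = F r)
    (r₀ : ℕ) : ∑ r ∈ range s, F (r + r₀) = ∑ r ∈ range s, F r := by
  induction r₀ with
  | zero => simp
  | succ n ih =>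
    rw [← ih]
    have h1 := Finset.sum_range_succ' (fun r => F (r + n)) s
    have h2 := Finset.sum_range_succ (fun r => F (r + n)) s
    rw [h2] at h1
    have h3 : F (s + n) = F (0 + n) := by rw [add_comm s n, h, zero_add]
    rw [h3] at h1
    have h4 := add_right_cancel h1
    rw [h4]
    exact Finset.sum_congr rfl (fun r _ => by congr 1; ring)

/-- the mixture of all `U ^ i`-images and translates of a periodic product vector -/
noncomputable def orbP {D : ℕ} (U : Matrix (Fin D) (Fin D) ℂ) (w : ℕ → Fin D) (m s n : ℕ) :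
    Matrix (Fin n → Fin D) (Fin n → Fin D) ℂ :=
  (1 / ((m : ℂ) * s)) • ∑ i ∈ range m, ∑ r ∈ range s, psts (fam U w i r) n

lemma unit_col {D : ℕ} (V : Matrix (Fin D) (Fin D) ℂ) (hV : V ∈ Matrix.unitaryGroup (Fin D) ℂ)
    (a b : Fin D) (h : ‖V a b‖ = 1) : V.mulVec (bas b) = V a b • bas a := by
  have h1 := dot_unitary V hV (bas b) (bas b)
  rw [bas_dot, if_pos rfl] at h1
  unfold bas at h1 ⊢
  rw [Matrix.mulVec_single_one] at h1 ⊢
  have h2 : ∑ c, ‖V c b‖ ^ 2 = 1 := by
    have : ((∑ c, ‖V c b‖ ^ 2 : ℝ) : ℂ) = 1 := by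
      rw [← h1]; unfold dotProduct; push_cast
      refine Finset.sum_congr rfl (fun c _ => ?_)
      exact (Complex.conj_mul' _).symm
    exact_mod_cast this
  rw [← Finset.add_sum_erase _ _ (Finset.mem_univ a), h] at h2
  have h3 : ∑ c ∈ univ.erase a, ‖V c b‖ ^ 2 = 0 := by linarith
  rw [Finset.sum_eq_zero_iff_of_nonneg (fun _ _ => by positivity)] at h3
  funext c
  by_cases hc : c = a
  · subst hc; simp [Matrix.col]
  · have := h3 c (Finset.mem_erase.2 ⟨hc, Finset.mem_univ c⟩)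
    have h0 : V c b = 0 := by simpa using this
    simp [Matrix.col, hc, h0]

theorem orbP_isInvState {D : ℕ} (U : Matrix (Fin D) (Fin D) ℂ)
    (hU : U ∈ Matrix.unitaryGroup (Fin D) ℂ) (w : ℕ → Fin D) (s : ℕ) (hs : 1 ≤ s)
    (hw : ∀ t, w (t + s) = w t) (m : ℕ) (hm : 1 ≤ m) (r₀ : ℕ)
    (h : ∀ t, ‖(U ^ m) (w (t + r₀)) (w t)‖ = 1) : IsInvState U (orbP U w m s) := by
  have hm0 : (m : ℂ) ≠ 0 := by exact_mod_cast (by omega : m ≠ 0)
  have hs0 : (s : ℂ) ≠ 0 := by exact_mod_cast (by omega : s ≠ 0)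
  have hfamshift : ∀ i r, (fun t => fam U w i r (t + 1)) = fam U w i (r + 1) := by
    intro i r; funext t; unfold fam; congr 3; ring
  have hfamper : ∀ i r, fam U w i (r + s) = fam U w i r := by
    intro i r; funext t; unfold fam; rw [← add_assoc, hw]
  refine ⟨?_, ?_, ?_, ?_, ?_⟩
  · intro n
    refine Matrix.PosSemidef.smul (Matrix.posSemidef_sum _ (fun i _ =>
      Matrix.posSemidef_sum _ (fun r _ => psts_pos _ n))) ?_
    have : (1 / ((m : ℂ) * s)) = (((1 / ((m : ℝ) * s) : ℝ)) : ℂ) := by push_cast; rfl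
    rw [this]
    exact_mod_cast (by positivity : (0 : ℝ) ≤ 1 / ((m : ℝ) * s))
  · intro n
    unfold orbP
    rw [Matrix.trace_smul, Matrix.trace_sum]
    have : ∀ i ∈ range m, (∑ r ∈ range s, psts (fam U w i r) n).trace = s := by
      intro i _
      rw [Matrix.trace_sum, Finset.sum_congr rfl
        (fun r _ => psts_trace _ (fam_unit U hU w i r) n)]
      simp
    rw [Finset.sum_congr rfl this]
    simp only [Finset.sum_const, Finset.card_range, nsmul_eq_mul, smul_eq_mul]
    field_simp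
  · intro n u v
    unfold orbP
    simp only [Matrix.smul_apply, Matrix.sum_apply, ← Finset.smul_sum]
    rw [Finset.sum_comm]
    congr 1
    refine Finset.sum_congr rfl (fun i _ => ?_)
    rw [Finset.sum_comm]
    exact Finset.sum_congr rfl (fun r _ => psts_right _ (fam_unit U hU w i r) n u v)
  · intro n u v
    unfold orbP
    simp only [Matrix.smul_apply, Matrix.sum_apply, ← Finset.smul_sum]
    rw [Finset.sum_comm]
    congr 1
    refine Finset.sum_congr rfl (fun i _ => ?_)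
    rw [Finset.sum_comm, Finset.sum_congr rfl
      (fun r _ => psts_left _ (fam_unit U hU w i r) n u v)]
    simp only [hfamshift]
    exact sum_period (fun r => psts (fam U w i r) n u v) s (fun r => by rw [hfamper]) 1
  · intro n
    unfold orbP
    rw [Matrix.mul_smul, Matrix.smul_mul]
    congr 1
    simp only [Finset.mul_sum, Finset.sum_mul]
    have e : ∀ i r, tpow U n * psts (fam U w i r) n * (tpow U n)ᴴ = psts (fam U w (i + 1) r) n := by
      intro i r
      rw [tpow_psts]; congr 1; funext t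
      unfold fam
      rw [Matrix.mulVec_mulVec, ← pow_succ']
    simp only [e]
    have h1 := Finset.sum_range_succ' (fun i => ∑ r ∈ range s, psts (fam U w i r) n) m
    have h2 := Finset.sum_range_succ (fun i => ∑ r ∈ range s, psts (fam U w i r) n) m
    have h3 : ∑ r ∈ range s, psts (fam U w m r) n = ∑ r ∈ range s, psts (fam U w 0 r) n := by
      rw [← sum_period (fun r => psts (fam U w 0 r) n) s (fun r => by rw [hfamper]) r₀]
      refine Finset.sum_congr rfl (fun r _ => ?_)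
      have h4 : fam U w m r = fun t => ((U ^ m) (w (t + r + r₀)) (w (t + r))) •
          fam U w 0 (r + r₀) t := by
        funext t
        unfold fam
        rw [unit_col _ (pow_mem hU m) _ _ (h (t + r)), pow_zero, Matrix.one_mulVec, add_assoc]
      rw [h4, psts_phase]
      intro t
      have := h (t + r)
      rw [RCLike.star_def, Complex.mul_conj', this]; simp
    rw [h2, h3] at h1
    exact (add_right_cancel h1).symm

end Pool.Agent.helper65.WB
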