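import Pool.Agent.helper65.WB.Exm
import Pool.Agent.helper65.WB.Per

set_option autoImplicit false

/-!
# Conjugation of states by tensor powers; equality of measures on cylinders
-/

namespace Pool.Agent.helper65.WB

open Finset Matrix MeasureTheory
open scoped ComplexOrder

lemma sum_snoc {D n : ℕ} {M : Type} [AddCommMonoid M] (f : (Fin (n + 1) → Fin D) → M) :
    ∑ x, f x = ∑ x : Fin n → Fin D, ∑ d, f (Fin.snoc (α := fun _ => Fin D) x d) := by
  rw [← (Fin.snocEquiv (fun _ : Fin (n + 1) => Fin D)).sum_comp, Fintype.sum_prod_type,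
    Finset.sum_comm]
  rfl

lemma sum_cons {D n : ℕ} {M : Type} [AddCommMonoid M] (f : (Fin (n + 1) → Fin D) → M) :
    ∑ x, f x = ∑ x : Fin n → Fin D, ∑ d, f (Fin.cons (α := fun _ => Fin D) d x) := by
  rw [← (Fin.consEquiv (fun _ : Fin (n + 1) => Fin D)).sum_comp, Fintype.sum_prod_type,
    Finset.sum_comm]
  rfl

lemma tpow_snoc {D n : ℕ} (V : Matrix (Fin D) (Fin D) ℂ) (u x : Fin n → Fin D) (c d : Fin D) :
    tpow V (n + 1) (Fin.snoc (α := fun _ => Fin D) u c) (Fin.snoc (α := fun _ => Fin D) x d) =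
      tpow V n u x * V c d := by
  unfold tpow
  rw [Fin.prod_univ_castSucc]
  simp only [Fin.snoc_castSucc, Fin.snoc_last]

lemma tpow_cons {D n : ℕ} (V : Matrix (Fin D) (Fin D) ℂ) (u x : Fin n → Fin D) (c d : Fin D) :
    tpow V (n + 1) (Fin.cons (α := fun _ => Fin D) c u) (Fin.cons (α := fun _ => Fin D) d x) =
      tpow V n u x * V c d := by
  unfold tpow
  rw [Fin.prod_univ_succ]
  simp only [Fin.cons_succ, Fin.cons_zero]
  rw [mul_comm]

lemma unitary_col {D : ℕ} (V : Matrix (Fin D) (Fin D) ℂ) (hV : V ∈ Matrix.unitaryGroup (Fin D) ℂ)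
    (d e : Fin D) : ∑ c, V c d * star (V c e) = if d = e then 1 else 0 := by
  have h := Matrix.mem_unitaryGroup_iff'.1 hV
  have h1 := congrFun (congrFun h e) d
  rw [Matrix.mul_apply, Matrix.one_apply] at h1
  rw [← (show (if e = d then (1 : ℂ) else 0) = if d = e then 1 else 0 by simp [eq_comm]), ← h1]
  exact Finset.sum_congr rfl (fun c _ => by rw [Matrix.star_apply, mul_comm])

lemma conj_right {D n : ℕ} (V : Matrix (Fin D) (Fin D) ℂ)
    (hV : V ∈ Matrix.unitaryGroup (Fin D) ℂ)
    (σ : Matrix (Fin (n + 1) → Fin D) (Fin (n + 1) → Fin D) ℂ)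
    (τ : Matrix (Fin n → Fin D) (Fin n → Fin D) ℂ)
    (h : ∀ u v : Fin n → Fin D, ∑ c, σ (Fin.snoc (α := fun _ => Fin D) u c)
      (Fin.snoc (α := fun _ => Fin D) v c) = τ u v) (u v : Fin n → Fin D) :
    ∑ c, (tpow V (n + 1) * σ * (tpow V (n + 1))ᴴ) (Fin.snoc (α := fun _ => Fin D) u c)
      (Fin.snoc (α := fun _ => Fin D) v c) = (tpow V n * τ * (tpow V n)ᴴ) u v := by
  simp only [Matrix.mul_apply, Matrix.conjTranspose_apply, sum_snoc, tpow_snoc, ← h]
  calc _ = ∑ y : Fin n → Fin D, ∑ e, ∑ x : Fin n → Fin D, ∑ d,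
        (tpow V n u x * star (tpow V n v y) * σ (Fin.snoc (α := fun _ => Fin D) x d)
          (Fin.snoc (α := fun _ => Fin D) y e)) * ∑ c, V c d * star (V c e) := by
        rw [Finset.sum_comm]
        refine Finset.sum_congr rfl (fun y _ => ?_)
        rw [Finset.sum_comm]
        refine Finset.sum_congr rfl (fun e _ => ?_)
        simp only [Finset.sum_mul, Finset.mul_sum]
        rw [Finset.sum_comm]
        refine Finset.sum_congr rfl (fun x _ => ?_)
        rw [Finset.sum_comm]
        refine Finset.sum_congr rfl (fun d _ => ?_)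
        refine Finset.sum_congr rfl (fun c _ => ?_)
        rw [star_mul']; ring
    _ = _ := by
        simp only [unitary_col V hV, mul_ite, mul_one, mul_zero, Finset.sum_ite_eq',
          Finset.mem_univ, if_true]
        refine Finset.sum_congr rfl (fun y _ => ?_)
        rw [Finset.sum_comm, Finset.sum_mul]
        refine Finset.sum_congr rfl (fun x _ => ?_)
        rw [Finset.mul_sum, Finset.sum_mul]
        refine Finset.sum_congr rfl (fun d _ => ?_)
        ring

lemma conj_left {D n : ℕ} (V : Matrix (Fin D) (Fin D) ℂ)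
    (hV : V ∈ Matrix.unitaryGroup (Fin D) ℂ)
    (σ : Matrix (Fin (n + 1) → Fin D) (Fin (n + 1) → Fin D) ℂ)
    (τ : Matrix (Fin n → Fin D) (Fin n → Fin D) ℂ)
    (h : ∀ u v : Fin n → Fin D, ∑ c, σ (Fin.cons (α := fun _ => Fin D) c u)
      (Fin.cons (α := fun _ => Fin D) c v) = τ u v) (u v : Fin n → Fin D) :
    ∑ c, (tpow V (n + 1) * σ * (tpow V (n + 1))ᴴ) (Fin.cons (α := fun _ => Fin D) c u)
      (Fin.cons (α := fun _ => Fin D) c v) = (tpow V n * τ * (tpow V n)ᴴ) u v := by
  simp only [Matrix.mul_apply, Matrix.conjTranspose_apply, sum_cons, tpow_cons, ← h]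
  calc _ = ∑ y : Fin n → Fin D, ∑ e, ∑ x : Fin n → Fin D, ∑ d,
        (tpow V n u x * star (tpow V n v y) * σ (Fin.cons (α := fun _ => Fin D) d x)
          (Fin.cons (α := fun _ => Fin D) e y)) * ∑ c, V c d * star (V c e) := by
        rw [Finset.sum_comm]
        refine Finset.sum_congr rfl (fun y _ => ?_)
        rw [Finset.sum_comm]
        refine Finset.sum_congr rfl (fun e _ => ?_)
        simp only [Finset.sum_mul, Finset.mul_sum]
        rw [Finset.sum_comm]
        refine Finset.sum_congr rfl (fun x _ => ?_)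
        rw [Finset.sum_comm]
        refine Finset.sum_congr rfl (fun d _ => ?_)
        refine Finset.sum_congr rfl (fun c _ => ?_)
        rw [star_mul']; ring
    _ = _ := by
        simp only [unitary_col V hV, mul_ite, mul_one, mul_zero, Finset.sum_ite_eq',
          Finset.mem_univ, if_true]
        refine Finset.sum_congr rfl (fun y _ => ?_)
        rw [Finset.sum_comm, Finset.sum_mul]
        refine Finset.sum_congr rfl (fun x _ => ?_)
        rw [Finset.mul_sum, Finset.sum_mul]
        refine Finset.sum_congr rfl (fun d _ => ?_)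
        ring

/-- two finite measures which agree on all cylinders are equal -/
theorem ext_cyl {D : ℕ} (μ ν : Measure (ℕ → Fin D)) [IsFiniteMeasure μ]
    (h : ∀ (n : ℕ) (w : Fin n → Fin D), μ (cyl w) = ν (cyl w)) : μ = ν := by
  let C : Set (Set (ℕ → Fin D)) := {s | ∃ (n : ℕ) (w : Fin n → Fin D), s = cyl w}
  have hgen : (inferInstance : MeasurableSpace (ℕ → Fin D)) = MeasurableSpace.generateFrom C := by
    apply le_antisymm
    · show MeasurableSpace.pi ≤ _
      refine iSup_le (fun i => ?_)
      rw [MeasurableSpace.comap_le_iff_le_map]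
      intro s _
      show @MeasurableSet _ (MeasurableSpace.generateFrom C) ((fun x : ℕ → Fin D => x i) ⁻¹' s)
      have : (fun x : ℕ → Fin D => x i) ⁻¹' s =
          ⋃ w ∈ {w : Fin (i + 1) → Fin D | w (Fin.last i) ∈ s}, cyl w := by
        ext x
        simp only [Set.mem_preimage, Set.mem_iUnion, Set.mem_ofPred_eq, exists_prop]
        constructor
        · intro hx
          exact ⟨fun t => x t.val, hx, fun t => rfl⟩
        · rintro ⟨w, hw, hx⟩
          have h1 : x i = w (Fin.last i) := hx (Fin.last i)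
          show x i ∈ s
          rw [h1]; exact hw
      rw [this]
      refine MeasurableSet.biUnion (Set.to_countable _) (fun w _ => ?_)
      exact MeasurableSpace.measurableSet_generateFrom ⟨_, w, rfl⟩
    · refine MeasurableSpace.generateFrom_le ?_
      rintro s ⟨n, w, rfl⟩
      exact (cyl_isClopen w).isOpen.measurableSet
  have hpi : IsPiSystem C := by
    rintro _ ⟨n, v, rfl⟩ _ ⟨m, w, rfl⟩ ⟨x, hx1, hx2⟩
    rcases le_total n m with hnm | hnm
    · refine ⟨m, w, ?_⟩
      ext y
      constructor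
      · exact fun hy => hy.2
      · intro hy
        refine ⟨fun i => ?_, hy⟩
        have h1 := hx1 i
        have h2 := hx2 ⟨i.val, by omega⟩
        have h3 := hy ⟨i.val, by omega⟩
        rw [h3, ← h2, h1]
    · refine ⟨n, v, ?_⟩
      ext y
      constructor
      · exact fun hy => hy.1
      · intro hy
        refine ⟨hy, fun i => ?_⟩
        have h1 := hx2 i
        have h2 := hx1 ⟨i.val, by omega⟩
        have h3 := hy ⟨i.val, by omega⟩
        rw [h3, ← h2, h1]
  refine MeasureTheory.ext_of_generate_finite C hgen hpi ?_ ?_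
  · rintro _ ⟨n, w, rfl⟩
    exact h n w
  · have := h 0 Fin.elim0
    have hu : cyl (Fin.elim0 : Fin 0 → Fin D) = Set.univ := by
      ext x; simp [cyl]
    rwa [hu] at this

end Pool.Agent.helper65.WB
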