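import Pool.Agent.helper65.WB.Inv

set_option autoImplicit false

/-!
# Quantum limits with a prescribed part
-/

namespace Pool.Agent.helper65.WB

open Finset Matrix MeasureTheory Filter
open scoped ComplexOrder ENNReal

/-- the diagonal matrices of a measure -/
noncomputable def dg {D : ℕ} (η : Measure (ℕ → Fin D)) (n : ℕ) :
    Matrix (Fin n → Fin D) (Fin n → Fin D) ℂ :=
  Matrix.diagonal (fun w => (((η (cyl w)).toReal : ℝ) : ℂ))

lemma snoc_inj_iff {D n : ℕ} (u v : Fin n → Fin D) (c : Fin D) :
    (Fin.snoc (α := fun _ => Fin D) u c = Fin.snoc (α := fun _ => Fin D) v c) ↔ u = v := by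
  constructor
  · intro h
    have := congrArg (Fin.init (α := fun _ => Fin D)) h
    rwa [Fin.init_snoc, Fin.init_snoc] at this
  · rintro rfl; rfl

lemma cons_inj_iff' {D n : ℕ} (u v : Fin n → Fin D) (c : Fin D) :
    (Fin.cons (α := fun _ => Fin D) c u = Fin.cons (α := fun _ => Fin D) c v) ↔ u = v := by
  constructor
  · intro h
    have := congrArg (Fin.tail (α := fun _ => Fin D)) h
    rwa [Fin.tail_cons, Fin.tail_cons] at this
  · rintro rfl; rfl

lemma dg_right {D n : ℕ} (η : Measure (ℕ → Fin D)) [IsFiniteMeasure η] (u v : Fin n → Fin D) :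
    ∑ c, dg η (n + 1) (Fin.snoc (α := fun _ => Fin D) u c)
      (Fin.snoc (α := fun _ => Fin D) v c) = dg η n u v := by
  unfold dg
  simp only [Matrix.diagonal_apply, snoc_inj_iff]
  split_ifs with h
  · subst h
    rw [snoc_cyl η u, ENNReal.toReal_sum (fun c _ => measure_ne_top η _)]
    push_cast; rfl
  · simp

lemma dg_left {D n : ℕ} (η : Measure (ℕ → Fin D)) [IsFiniteMeasure η] (hη : η.map shift = η)
    (u v : Fin n → Fin D) :
    ∑ c, dg η (n + 1) (Fin.cons (α := fun _ => Fin D) c u)
      (Fin.cons (α := fun _ => Fin D) c v) = dg η n u v := by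
  unfold dg
  simp only [Matrix.diagonal_apply, cons_inj_iff']
  split_ifs with h
  · subst h
    have h1 := shift_cyl η u
    rw [hη] at h1
    rw [h1, ENNReal.toReal_sum (fun c _ => measure_ne_top η _)]
    push_cast; rfl
  · simp

lemma dg_trace {D : ℕ} (η : Measure (ℕ → Fin D)) [IsFiniteMeasure η] (n : ℕ) :
    (dg η n).trace = (((η Set.univ).toReal : ℝ) : ℂ) := by
  induction n with
  | zero =>
    have hu : ∀ w : Fin 0 → Fin D, cyl w = Set.univ := by
      intro w; ext x; simp [cyl]
    unfold dg Matrix.trace Matrix.diag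
    simp [hu]
  | succ n ih =>
    rw [← ih]
    unfold Matrix.trace Matrix.diag
    rw [sum_snoc]
    exact Finset.sum_congr rfl (fun u _ => dg_right η u u)

lemma dg_pos {D : ℕ} (η : Measure (ℕ → Fin D)) (n : ℕ) : (dg η n).PosSemidef := by
  unfold dg
  rw [Matrix.posSemidef_diagonal_iff]
  intro w
  exact_mod_cast (ENNReal.toReal_nonneg : 0 ≤ (η (cyl w)).toReal)

/-- the state -/
noncomputable def cvst {D : ℕ} (η : Measure (ℕ → Fin D)) (n : ℕ) :
    Matrix (Fin n → Fin D) (Fin n → Fin D) ℂ :=
  dg η n + tpow (fou D) n * dg η n * (tpow (fou D) n)ᴴ +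
    (((1 - 2 * (η Set.univ).toReal) * (1 / D) ^ n : ℝ) : ℂ) • (1 : Matrix _ _ ℂ)

lemma trace_conj {W : Type} [Fintype W] [DecidableEq W] (T M : Matrix W W ℂ)
    (hT : T ∈ Matrix.unitaryGroup W ℂ) : (T * M * Tᴴ).trace = M.trace := by
  have h1 : Tᴴ * T = 1 := by
    have := Matrix.mem_unitaryGroup_iff'.1 hT
    simpa [Matrix.star_eq_conjTranspose] using this
  rw [Matrix.trace_mul_comm, ← Matrix.mul_assoc, h1, one_mul]

theorem cvst_isInvState {D : ℕ} [NeZero D] (η : Measure (ℕ → Fin D)) [IsFiniteMeasure η]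
    (h1 : η.map shift = η) (h2 : η.map par = η) (h3 : η Set.univ ≤ 1 / 2) :
    IsInvState (fou D) (cvst η) := by
  have hD0 : (D : ℝ) ≠ 0 := by exact_mod_cast NeZero.ne D
  have hDC : (D : ℂ) ≠ 0 := by exact_mod_cast NeZero.ne D
  have hU := fou_unitary D
  have hc : (η Set.univ).toReal ≤ 1 / 2 := by
    have := ENNReal.toReal_mono (by simp) h3
    rw [ENNReal.toReal_div] at this
    simpa using this
  have hTT : ∀ n, tpow (fou D) n * (tpow (fou D) n)ᴴ = 1 := by
    intro n
    have := Matrix.mem_unitaryGroup_iff.1 (tpow_unitary (fou D) hU n)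
    simpa [Matrix.star_eq_conjTranspose] using this
  refine ⟨?_, ?_, ?_, ?_, ?_⟩
  · intro n
    unfold cvst
    refine ((dg_pos η n).add ((dg_pos η n).mul_mul_conjTranspose_same _)).add ?_
    refine Matrix.PosSemidef.one.smul ?_
    have : (0 : ℝ) ≤ (1 - 2 * (η Set.univ).toReal) * (1 / D) ^ n := by
      have : (0 : ℝ) ≤ 1 - 2 * (η Set.univ).toReal := by linarith
      positivity
    exact_mod_cast this
  · intro n
    unfold cvst
    rw [Matrix.trace_add, Matrix.trace_add, trace_conj _ _ (tpow_unitary (fou D) hU n), dg_trace,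
      Matrix.trace_smul, Matrix.trace_one, Fintype.card_fun, Fintype.card_fin, Fintype.card_fin]
    push_cast
    rw [smul_eq_mul]
    have : ((1 : ℂ) / D) ^ n * (D : ℂ) ^ n = 1 := by
      rw [← mul_pow, one_div, inv_mul_cancel₀ hDC, one_pow]
    rw [mul_assoc, this]; ring
  · intro n u v
    unfold cvst
    simp only [Matrix.add_apply, Finset.sum_add_distrib, Matrix.smul_apply]
    rw [dg_right, conj_right (fou D) hU (dg η (n + 1)) (dg η n) (fun u v => dg_right η u v)]
    congr 1
    simp only [Matrix.one_apply, snoc_inj_iff, smul_eq_mul, Finset.sum_const, Finset.card_univ,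
      Fintype.card_fin, nsmul_eq_mul]
    split_ifs
    · push_cast
      rw [pow_succ]
      field_simp
    · simp
  · intro n u v
    unfold cvst
    simp only [Matrix.add_apply, Finset.sum_add_distrib, Matrix.smul_apply]
    rw [dg_left η h1, conj_left (fou D) hU (dg η (n + 1)) (dg η n) (fun u v => dg_left η h1 u v)]
    congr 1
    simp only [Matrix.one_apply, cons_inj_iff', smul_eq_mul, Finset.sum_const, Finset.card_univ,
      Fintype.card_fin, nsmul_eq_mul]
    split_ifs
    · push_cast
      rw [pow_succ]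
      field_simp
    · simp
  · intro n
    unfold cvst
    rw [Matrix.mul_add, Matrix.mul_add, Matrix.add_mul, Matrix.add_mul]
    have e1 : tpow (fou D) n * (tpow (fou D) n * dg η n * (tpow (fou D) n)ᴴ) *
        (tpow (fou D) n)ᴴ = dg η n := by
      ext u v
      rw [conj_par]
      unfold dg
      simp only [Matrix.diagonal_apply]
      have hiff : ((fun t => -u t) = fun t => -v t) ↔ u = v := by
        constructor
        · intro h; funext t; exact neg_injective (congrFun h t)
        · rintro rfl; rfl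
      simp only [hiff]
      rw [← par_cyl, h2]
    rw [e1, Matrix.mul_smul, mul_one, Matrix.smul_mul, hTT, add_comm (tpow (fou D) n * _ * _)]

/-- the flat vector -/
noncomputable def flat (D : ℕ) : ℕ → Fin D → ℂ := fun _ _ => ((1 / Real.sqrt D : ℝ) : ℂ)

lemma flat_norm {D : ℕ} (t : ℕ) (a : Fin D) : ‖flat D t a‖ ^ 2 = 1 / D := by
  unfold flat
  rw [Complex.norm_real, Real.norm_of_nonneg (by positivity), div_pow, one_pow,
    Real.sq_sqrt (Nat.cast_nonneg D)]

lemma flat_unit {D : ℕ} [NeZero D] (t : ℕ) : star (flat D t) ⬝ᵥ flat D t = 1 := by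
  have hD0 : (D : ℂ) ≠ 0 := by exact_mod_cast NeZero.ne D
  unfold dotProduct
  have : ∀ a, star (flat D t) a * flat D t a = 1 / D := by
    intro a
    rw [Pi.star_apply, Complex.star_def, Complex.conj_mul']
    rw [← Complex.ofReal_pow, flat_norm (D := D) t a]
    push_cast; rfl
  simp only [this, Finset.sum_const, Finset.card_univ, Fintype.card_fin, nsmul_eq_mul]
  rw [mul_one_div_cancel hD0]

/-- the uniform measure -/
noncomputable def leb (D : ℕ) : Measure (ℕ → Fin D) := nuF (flat D)

lemma leb_prob (D : ℕ) [NeZero D] : IsProbabilityMeasure (leb D) := nuF_prob _ flat_unit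

lemma leb_cyl {D n : ℕ} [NeZero D] (w : Fin n → Fin D) : (leb D (cyl w)).toReal = (1 / D) ^ n := by
  unfold leb
  rw [nuF_cyl _ flat_unit]
  simp only [flat_norm, Finset.prod_const, Finset.card_univ, Fintype.card_fin]

lemma leb_Per {D : ℕ} [NeZero D] (hD : 2 ≤ D) : leb D (Per D) = 0 := by
  have hD0 : (0 : ℝ) < D := by exact_mod_cast (by omega : 0 < D)
  have hD2 : (2 : ℝ) ≤ D := by exact_mod_cast hD
  have := leb_prob D
  have hat : ∀ x : ℕ → Fin D, leb D {x} = 0 := by
    intro x
    have h1 : ∀ n : ℕ, (leb D {x}).toReal ≤ (1 / D) ^ n := by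
      intro n
      rw [← leb_cyl (fun t : Fin n => x t.val)]
      refine ENNReal.toReal_mono (measure_ne_top _ _) (measure_mono ?_)
      rintro y hy t
      rw [Set.mem_singleton_iff.1 hy]
    have h2 : Tendsto (fun n : ℕ => (1 / (D : ℝ)) ^ n) atTop (nhds 0) := by
      refine tendsto_pow_atTop_nhds_zero_of_lt_one (by positivity) ?_
      rw [div_lt_one hD0]; linarith
    have h3 := ge_of_tendsto' h2 h1
    have h4 : (leb D {x}).toReal = 0 := le_antisymm h3 ENNReal.toReal_nonneg
    rcases (ENNReal.toReal_eq_zero_iff _).1 h4 with h | h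
    · exact h
    · exact absurd h (measure_ne_top _ _)
  have : NullSingletonClass (leb D) := ⟨hat⟩
  exact (Per_countable D).measure_zero _

lemma cvst_diag {D : ℕ} [NeZero D] (η : Measure (ℕ → Fin D)) [IsFiniteMeasure η] (n : ℕ)
    (w : Fin n → Fin D) : cvst η n w w =
      (((η (cyl w)).toReal + (1 - (η Set.univ).toReal) * (1 / D) ^ n : ℝ) : ℂ) := by
  have hD : D ≠ 0 := NeZero.ne D
  have e1 : (tpow (fou D) n * dg η n * (tpow (fou D) n)ᴴ) w w =
      (((η Set.univ).toReal * (1 / D) ^ n : ℝ) : ℂ) := by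
    unfold dg
    rw [Matrix.mul_apply]
    simp only [Matrix.mul_diagonal, Matrix.conjTranspose_apply]
    have e2 : ∀ x : Fin n → Fin D, tpow (fou D) n w x * (((η (cyl x)).toReal : ℝ) : ℂ) *
        star (tpow (fou D) n w x) = (((1 / D) ^ n : ℝ) : ℂ) * (((η (cyl x)).toReal : ℝ) : ℂ) := by
      intro x
      have e3 : tpow (fou D) n w x * star (tpow (fou D) n w x) = (((1 / D) ^ n : ℝ) : ℂ) := by
        rw [Complex.star_def, Complex.mul_conj', ← Complex.ofReal_pow]
        congr 1
        unfold tpow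
        rw [norm_prod, ← Finset.prod_pow]
        simp only [fou_norm_sq D hD, Finset.prod_const, Finset.card_univ, Fintype.card_fin]
      rw [← e3]; ring
    simp only [e2]
    rw [← Finset.mul_sum]
    have e4 := dg_trace η n
    unfold dg Matrix.trace Matrix.diag at e4
    simp only [Matrix.diagonal_apply_eq] at e4
    rw [e4]
    push_cast
    ring
  unfold cvst
  rw [Matrix.add_apply, Matrix.add_apply, e1, Matrix.smul_apply, Matrix.one_apply_eq, smul_eq_mul,
    mul_one]
  unfold dg
  rw [Matrix.diagonal_apply_eq]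
  push_cast
  ring

/-- every invariant measure of mass at most `1/2`, completed by the uniform measure, is a quantum
limit of the Walsh-quantised baker map -/
theorem prescribed_limit {D : ℕ} [NeZero D] (η : Measure (ℕ → Fin D))
    (h1 : η.map shift = η) (h2 : η.map par = η) (h3 : η Set.univ ≤ 1 / 2) :
    IsProbabilityMeasure (η + (1 - η Set.univ) • leb D) ∧
      IsQuantumLimit (fou D) (η + (1 - η Set.univ) • leb D) := by
  have hfin : IsFiniteMeasure η := ⟨lt_of_le_of_lt h3 (by simp)⟩
  have hle1 : η Set.univ ≤ 1 := h3.trans (by simp)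
  have hL := leb_prob D
  have hprob : IsProbabilityMeasure (η + (1 - η Set.univ) • leb D) := by
    constructor
    rw [Measure.add_apply, Measure.smul_apply, hL.measure_univ, smul_eq_mul, mul_one,
      add_tsub_cancel_of_le hle1]
  refine ⟨hprob, (classification (fou D) (fou_unitary D) _).2
    ⟨cvst η, cvst_isInvState η h1 h2 h3, fun n w => ?_⟩⟩
  rw [cvst_diag, Measure.add_apply, Measure.smul_apply, smul_eq_mul,
    ENNReal.toReal_add (measure_ne_top η _)
      (ENNReal.mul_ne_top (ENNReal.sub_ne_top ENNReal.one_ne_top) (measure_ne_top _ _)),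
    ENNReal.toReal_mul, ENNReal.toReal_sub_of_le hle1 ENNReal.one_ne_top, leb_cyl]
  simp

/-- the periodic parts of the quantum limits of the Walsh-quantised baker map -/
theorem scar_parts {D : ℕ} [NeZero D] (hD : 2 ≤ D) (η : Measure (ℕ → Fin D)) :
    (∃ ν : Measure (ℕ → Fin D), IsProbabilityMeasure ν ∧ IsQuantumLimit (fou D) ν ∧
      η = ν.restrict (Per D)) ↔
    (η (Per D)ᶜ = 0 ∧ η.map (fun x t => x (t + 1)) = η ∧ η.map (fun x t => -x t) = η ∧
      η Set.univ ≤ 1 / 2) := by
  constructor
  · rintro ⟨ν, hν, hq, rfl⟩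
    refine ⟨?_, restrict_shift ν (limit_shift _ (fou_unitary D) ν hq),
      restrict_par ν (limit_par ν hq), ?_⟩
    · rw [Measure.restrict_apply (Per_measurable D).compl, Set.compl_inter_self, measure_empty]
    · rw [Measure.restrict_apply_univ]
      exact Per_le hD ν hq
  · rintro ⟨h0, h1, h2, h3⟩
    obtain ⟨hp, hq⟩ := prescribed_limit η h1 h2 h3
    refine ⟨_, hp, hq, ?_⟩
    rw [Measure.restrict_add, Measure.restrict_smul, Measure.restrict_eq_zero.2 (leb_Per hD),
      smul_zero, add_zero]
    refine (Measure.restrict_eq_self_of_ae_mem ?_).symm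
    rw [ae_iff]
    exact h0

end Pool.Agent.helper65.WB
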