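import Pool.Agent.helper65.WB.Exm
import Pool.Agent.helper65.WB.Per

set_option autoImplicit false

/-!
# The phase average of the product states of `(a + e^{iθ} b) / √2`
-/

namespace Pool.Agent.helper65.WB

open Finset Matrix MeasureTheory
open scoped ComplexOrder

/-- the generating polynomial `∏ (a(u_i) + b(u_i) X)` -/
noncomputable def gen {D : ℕ} (a b : Fin D → ℂ) {n : ℕ} (u : Fin n → Fin D) : Polynomial ℂ :=
  ∏ i, (Polynomial.C (a (u i)) + Polynomial.C (b (u i)) * Polynomial.X)

/-- its coefficients, as a vector -/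
noncomputable def gv {D : ℕ} (a b : Fin D → ℂ) (n m : ℕ) : (Fin n → Fin D) → ℂ :=
  fun u => (gen a b u).coeff m

/-- the state -/
noncomputable def dst {D : ℕ} (a b : Fin D → ℂ) (n : ℕ) :
    Matrix (Fin n → Fin D) (Fin n → Fin D) ℂ :=
  ((1 / 2 : ℂ) ^ n) • ∑ m ∈ range (n + 1), vecMulVec (gv a b n m) (star (gv a b n m))

lemma gen_snoc {D n : ℕ} (a b : Fin D → ℂ) (u : Fin n → Fin D) (c : Fin D) :
    gen a b (Fin.snoc (α := fun _ => Fin D) u c) =
      gen a b u * (Polynomial.C (a c) + Polynomial.C (b c) * Polynomial.X) := by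
  unfold gen
  rw [Fin.prod_univ_castSucc]
  simp only [Fin.snoc_castSucc, Fin.snoc_last]

lemma gen_cons {D n : ℕ} (a b : Fin D → ℂ) (u : Fin n → Fin D) (c : Fin D) :
    gen a b (Fin.cons (α := fun _ => Fin D) c u) =
      gen a b u * (Polynomial.C (a c) + Polynomial.C (b c) * Polynomial.X) := by
  unfold gen
  rw [Fin.prod_univ_succ]
  simp only [Fin.cons_succ, Fin.cons_zero]
  rw [mul_comm]

lemma gen_natDegree {D n : ℕ} (a b : Fin D → ℂ) (u : Fin n → Fin D) :
    (gen a b u).natDegree ≤ n := by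
  unfold gen
  refine (Polynomial.natDegree_prod_le _ _).trans ?_
  refine (Finset.sum_le_sum (g := fun _ => 1) (fun i _ => ?_)).trans (by simp)
  compute_degree

lemma coeff_mul_lin (P : Polynomial ℂ) (x y : ℂ) (m : ℕ) :
    (P * (Polynomial.C x + Polynomial.C y * Polynomial.X)).coeff m =
      x * P.coeff m + y * (if m = 0 then 0 else P.coeff (m - 1)) := by
  rw [mul_add, Polynomial.coeff_add, Polynomial.coeff_mul_C, ← mul_assoc]
  cases m with
  | zero => simp [mul_comm]
  | succ m =>
    rw [Polynomial.coeff_mul_X, Polynomial.coeff_mul_C]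
    simp [mul_comm]

lemma gen_sum {D : ℕ} (a b : Fin D → ℂ) (haa : star a ⬝ᵥ a = 1) (hbb : star b ⬝ᵥ b = 1)
    (hab : star a ⬝ᵥ b = 0) (n : ℕ) (P Q : Polynomial ℂ) (hP : P.natDegree ≤ n) :
    ∑ c, ∑ m ∈ range (n + 1 + 1),
      (P * (Polynomial.C (a c) + Polynomial.C (b c) * Polynomial.X)).coeff m *
        star ((Q * (Polynomial.C (a c) + Polynomial.C (b c) * Polynomial.X)).coeff m) =
      2 * ∑ m ∈ range (n + 1), P.coeff m * star (Q.coeff m) := by
  have haa' : ∑ c, a c * star (a c) = 1 := by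
    rw [← haa]; exact Finset.sum_congr rfl (fun c _ => mul_comm _ _)
  have hbb' : ∑ c, b c * star (b c) = 1 := by
    rw [← hbb]; exact Finset.sum_congr rfl (fun c _ => mul_comm _ _)
  have hba' : ∑ c, b c * star (a c) = 0 := by
    rw [← hab]; exact Finset.sum_congr rfl (fun c _ => mul_comm _ _)
  have hab' : ∑ c, a c * star (b c) = 0 := by
    have := congrArg star hba'
    rw [star_sum, star_zero] at this
    rw [← this]
    exact Finset.sum_congr rfl (fun c _ => by rw [star_mul', star_star, mul_comm])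
  rw [Finset.sum_comm]
  have e : ∀ m, ∑ c, (P * (Polynomial.C (a c) + Polynomial.C (b c) * Polynomial.X)).coeff m *
        star ((Q * (Polynomial.C (a c) + Polynomial.C (b c) * Polynomial.X)).coeff m) =
      P.coeff m * star (Q.coeff m) +
        (if m = 0 then 0 else P.coeff (m - 1)) * star (if m = 0 then 0 else Q.coeff (m - 1)) := by
    intro m
    simp only [coeff_mul_lin]
    set p := P.coeff m
    set q := Q.coeff m
    set p' := (if m = 0 then 0 else P.coeff (m - 1))
    set q' := (if m = 0 then 0 else Q.coeff (m - 1))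
    calc ∑ c, (a c * p + b c * p') * star (a c * q + b c * q')
        = ∑ c, (a c * star (a c) * (p * star q) + a c * star (b c) * (p * star q') +
            b c * star (a c) * (p' * star q) + b c * star (b c) * (p' * star q')) := by
          refine Finset.sum_congr rfl (fun c _ => ?_)
          rw [star_add, star_mul', star_mul']; ring
      _ = _ := by
          simp only [Finset.sum_add_distrib, ← Finset.sum_mul, haa', hab', hba', hbb']
          ring
  simp only [e, Finset.sum_add_distrib]
  rw [Finset.sum_range_succ, Polynomial.coeff_eq_zero_of_natDegree_lt (by omega : P.natDegree < n + 1),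
    zero_mul, add_zero, Finset.sum_range_succ' _ (n + 1)]
  simp only [Nat.add_sub_cancel, Nat.add_eq_zero_iff, one_ne_zero, and_false, if_false, if_true,
    star_zero, mul_zero, add_zero]
  ring

lemma dst_apply {D n : ℕ} (a b : Fin D → ℂ) (u v : Fin n → Fin D) :
    dst a b n u v = (1 / 2 : ℂ) ^ n * ∑ m ∈ range (n + 1),
      (gen a b u).coeff m * star ((gen a b v).coeff m) := by
  unfold dst gv
  simp only [Matrix.smul_apply, Matrix.sum_apply, vecMulVec_apply, Pi.star_apply, smul_eq_mul]

lemma dst_right {D n : ℕ} (a b : Fin D → ℂ) (haa : star a ⬝ᵥ a = 1) (hbb : star b ⬝ᵥ b = 1)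
    (hab : star a ⬝ᵥ b = 0) (u v : Fin n → Fin D) :
    ∑ c, dst a b (n + 1) (Fin.snoc (α := fun _ => Fin D) u c)
      (Fin.snoc (α := fun _ => Fin D) v c) = dst a b n u v := by
  simp only [dst_apply, gen_snoc, ← Finset.mul_sum]
  rw [gen_sum a b haa hbb hab n _ _ (gen_natDegree a b u), pow_succ]
  ring

lemma dst_left {D n : ℕ} (a b : Fin D → ℂ) (haa : star a ⬝ᵥ a = 1) (hbb : star b ⬝ᵥ b = 1)
    (hab : star a ⬝ᵥ b = 0) (u v : Fin n → Fin D) :
    ∑ c, dst a b (n + 1) (Fin.cons (α := fun _ => Fin D) c u)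
      (Fin.cons (α := fun _ => Fin D) c v) = dst a b n u v := by
  simp only [dst_apply, gen_cons, ← Finset.mul_sum]
  rw [gen_sum a b haa hbb hab n _ _ (gen_natDegree a b u), pow_succ]
  ring

lemma dst_trace {D : ℕ} (a b : Fin D → ℂ) (haa : star a ⬝ᵥ a = 1) (hbb : star b ⬝ᵥ b = 1)
    (hab : star a ⬝ᵥ b = 0) (n : ℕ) : (dst a b n).trace = 1 := by
  induction n with
  | zero =>
    simp [Matrix.trace, dst_apply, gen]
  | succ n ih =>
    rw [← ih]
    unfold Matrix.trace Matrix.diag
    rw [← (Fin.snocEquiv (fun _ : Fin (n + 1) => Fin D)).sum_comp, Fintype.sum_prod_type,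
      Finset.sum_comm]
    exact Finset.sum_congr rfl (fun u _ => dst_right a b haa hbb hab u u)

lemma gv_tpow {D : ℕ} (U : Matrix (Fin D) (Fin D) ℂ) (a b : Fin D → ℂ) (α β : ℂ)
    (ha : U.mulVec a = α • a) (hb : U.mulVec b = β • b) (hα : α ≠ 0) (n m : ℕ) :
    (tpow U n).mulVec (gv a b n m) = (α ^ n * (β / α) ^ m) • gv a b n m := by
  funext u
  simp only [Matrix.mulVec, dotProduct, Pi.smul_apply, smul_eq_mul]
  have h1 : ∑ v, tpow U n u v * gv a b n m v =
      (∑ v : Fin n → Fin D, ∏ i, (Polynomial.C (U (u i) (v i)) *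
        (Polynomial.C (a (v i)) + Polynomial.C (b (v i)) * Polynomial.X))).coeff m := by
    rw [Polynomial.finsetSum_coeff]
    refine Finset.sum_congr rfl (fun v _ => ?_)
    rw [Finset.prod_mul_distrib]
    unfold tpow gv gen
    rw [← map_prod, Polynomial.coeff_C_mul]
  have h0 := Finset.prod_univ_sum (fun _ : Fin n => (univ : Finset (Fin D)))
    (fun i j => (Polynomial.C (U (u i) j) *
        (Polynomial.C (a j) + Polynomial.C (b j) * Polynomial.X)))
  rw [Fintype.piFinset_univ] at h0
  rw [h1, ← h0]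
  have h2 : ∀ i, ∑ j, (Polynomial.C (U (u i) j) *
        (Polynomial.C (a j) + Polynomial.C (b j) * Polynomial.X)) =
      Polynomial.C α * (Polynomial.C (a (u i)) + Polynomial.C (b (u i)) * Polynomial.X).comp
        (Polynomial.C (β / α) * Polynomial.X) := by
    intro i
    have ha' := congrFun ha (u i)
    have hb' := congrFun hb (u i)
    simp only [Matrix.mulVec, dotProduct, Pi.smul_apply, smul_eq_mul] at ha' hb'
    simp only [mul_add, Finset.sum_add_distrib, ← mul_assoc, ← Polynomial.C_mul,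
      ← Finset.sum_mul, ← map_sum, ha', hb', Polynomial.add_comp, Polynomial.C_comp,
      Polynomial.mul_comp, Polynomial.X_comp]
    congr 3
    field_simp
  simp only [h2]
  rw [Finset.prod_mul_distrib, Finset.prod_const, Finset.card_univ, Fintype.card_fin,
    ← Polynomial.prod_comp, ← Polynomial.C_pow, Polynomial.coeff_C_mul,
    Polynomial.comp_C_mul_X_coeff]
  unfold gv gen
  ring

theorem dst_isInvState {D : ℕ} (U : Matrix (Fin D) (Fin D) ℂ) (a b : Fin D → ℂ) (α β : ℂ)
    (ha : U.mulVec a = α • a) (hb : U.mulVec b = β • b) (hα : α * star α = 1)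
    (hβ : β * star β = 1) (haa : star a ⬝ᵥ a = 1) (hbb : star b ⬝ᵥ b = 1)
    (hab : star a ⬝ᵥ b = 0) : IsInvState U (dst a b) := by
  have hα0 : α ≠ 0 := by rintro rfl; simp at hα
  refine ⟨?_, dst_trace a b haa hbb hab, fun n u v => dst_right a b haa hbb hab u v,
    fun n u v => dst_left a b haa hbb hab u v, ?_⟩
  · intro n
    refine Matrix.PosSemidef.smul (Matrix.posSemidef_sum _ (fun m _ =>
      Matrix.posSemidef_vecMulVec_self_star _)) ?_
    have : ((1 / 2 : ℂ) ^ n) = (((1 / 2 : ℝ) ^ n : ℝ) : ℂ) := by push_cast; ring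
    rw [this]
    exact_mod_cast (by positivity : (0 : ℝ) ≤ (1 / 2) ^ n)
  · intro n
    unfold dst
    rw [Matrix.mul_smul, Matrix.smul_mul, Finset.mul_sum, Finset.sum_mul]
    congr 1
    refine Finset.sum_congr rfl (fun m _ => ?_)
    rw [Matrix.mul_vecMulVec, Matrix.vecMulVec_mul, ← Matrix.star_mulVec,
      gv_tpow U a b α β ha hb hα0]
    ext x y
    simp only [vecMulVec_apply, Pi.smul_apply, Pi.star_apply, smul_eq_mul, star_mul']
    have hz : (α ^ n * (β / α) ^ m) * star (α ^ n * (β / α) ^ m) = 1 := by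
      rw [star_mul', star_pow, star_pow, star_div₀]
      calc α ^ n * (β / α) ^ m * (star α ^ n * (star β / star α) ^ m)
          = (α * star α) ^ n * ((β * star β) / (α * star α)) ^ m := by
            rw [mul_pow, ← div_mul_div_comm, mul_pow]; ring
        _ = 1 := by rw [hα, hβ]; simp
    calc _ = (α ^ n * (β / α) ^ m) * star (α ^ n * (β / α) ^ m) *
          (gv a b n m x * star (gv a b n m y)) := by
            rw [star_mul']; ring
      _ = _ := by rw [hz, one_mul]

/-- the probability of a square -/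
lemma dst_two {D : ℕ} (a b : Fin D → ℂ) (x : Fin D) :
    dst a b 2 (fun _ => x) (fun _ => x) =
      (((‖a x‖ ^ 2) ^ 2 + 4 * (‖a x‖ ^ 2 * ‖b x‖ ^ 2) + (‖b x‖ ^ 2) ^ 2) / 4 : ℝ) := by
  have hg : gen a b (fun _ : Fin 2 => x) =
      Polynomial.C (a x * a x) + Polynomial.C (2 * (a x * b x)) * Polynomial.X +
        Polynomial.C (b x * b x) * Polynomial.X ^ 2 := by
    unfold gen
    rw [Fin.prod_univ_two]
    simp only [Polynomial.C_mul, map_ofNat]
    ring
  rw [dst_apply, hg]
  simp only [Finset.sum_range_succ, Finset.sum_range_zero, zero_add]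
  have c0 : (Polynomial.C (a x * a x) + Polynomial.C (2 * (a x * b x)) * Polynomial.X +
        Polynomial.C (b x * b x) * Polynomial.X ^ 2).coeff 0 = a x * a x := by
    simp only [Polynomial.coeff_add, Polynomial.coeff_C_mul, Polynomial.coeff_C,
      Polynomial.coeff_X, Polynomial.coeff_X_pow]
    norm_num
  have c1 : (Polynomial.C (a x * a x) + Polynomial.C (2 * (a x * b x)) * Polynomial.X +
        Polynomial.C (b x * b x) * Polynomial.X ^ 2).coeff 1 = 2 * (a x * b x) := by
    simp only [Polynomial.coeff_add, Polynomial.coeff_C_mul, Polynomial.coeff_C,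
      Polynomial.coeff_X, Polynomial.coeff_X_pow]
    norm_num
  have c2 : (Polynomial.C (a x * a x) + Polynomial.C (2 * (a x * b x)) * Polynomial.X +
        Polynomial.C (b x * b x) * Polynomial.X ^ 2).coeff 2 = b x * b x := by
    simp only [Polynomial.coeff_add, Polynomial.coeff_C_mul, Polynomial.coeff_C,
      Polynomial.coeff_X, Polynomial.coeff_X_pow]
    norm_num
  rw [c0, c1, c2]
  have ea : a x * star (a x) = ((‖a x‖ ^ 2 : ℝ) : ℂ) := by
    push_cast; exact Complex.mul_conj' _
  have eb : b x * star (b x) = ((‖b x‖ ^ 2 : ℝ) : ℂ) := by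
    push_cast; exact Complex.mul_conj' _
  have e2 : star (2 : ℂ) = 2 := by simp
  calc _ = (1 / 4 : ℂ) * ((a x * star (a x)) ^ 2 + 4 * ((a x * star (a x)) * (b x * star (b x))) +
        (b x * star (b x)) ^ 2) := by
          simp only [star_mul', e2]; ring
    _ = _ := by rw [ea, eb]; push_cast; ring

end Pool.Agent.helper65.WB
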