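import Mathlib

set_option autoImplicit false

/-!
# Tensor-product (Walsh) quantised baker maps: definitions
-/

namespace Pool.Agent.helper65.WB

open Finset Matrix
open scoped ComplexOrder

/-- The quantised baker map on `k + 1` sites with one-site unitary `U`:
`v₀ ⊗ v₁ ⊗ ⋯ ⊗ v_k ↦ v₁ ⊗ ⋯ ⊗ v_k ⊗ U v₀`.  Vectors are functions of the words
`x₀ x₁ ⋯ x_k` (with letters in `Fin D`); `Fin.init x` is `x₀ ⋯ x_{k-1}`. -/
noncomputable def baker {D : ℕ} (U : Matrix (Fin D) (Fin D) ℂ) {k : ℕ}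
    (ψ : (Fin (k + 1) → Fin D) → ℂ) : (Fin (k + 1) → Fin D) → ℂ :=
  fun x => ∑ y, U (x (Fin.last k)) y * ψ (Fin.cons y (Fin.init x))

/-- `ψ` is a normalised eigenvector of the quantised baker map. -/
def IsEigen {D : ℕ} (U : Matrix (Fin D) (Fin D) ℂ) {k : ℕ}
    (ψ : (Fin (k + 1) → Fin D) → ℂ) : Prop :=
  ∑ x, ‖ψ x‖ ^ 2 = 1 ∧ ∃ z : ℂ, ∀ x, baker U ψ x = z * ψ x

/-- The word `x` begins with the word `w`. -/
def Begins {D N n : ℕ} (x : Fin N → Fin D) (w : Fin n → Fin D) : Prop :=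
  ∀ (i : Fin n) (h : i.val < N), x ⟨i.val, h⟩ = w i

instance {D N n : ℕ} (x : Fin N → Fin D) (w : Fin n → Fin D) : Decidable (Begins x w) :=
  inferInstanceAs (Decidable (∀ (i : Fin n) (h : i.val < N), x ⟨i.val, h⟩ = w i))

/-- The probability, in the state `ψ`, that the position begins with the digits `w`. -/
noncomputable def prob {D N n : ℕ} (ψ : (Fin N → Fin D) → ℂ) (w : Fin n → Fin D) : ℝ :=
  ∑ x with Begins x w, ‖ψ x‖ ^ 2

/-- The set of infinite sequences of digits beginning with `w`. -/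
def cyl {D n : ℕ} (w : Fin n → Fin D) : Set (ℕ → Fin D) := {x | ∀ i : Fin n, x i.val = w i}

/-- `ν` is a quantum limit: the limit of the position distributions of normalised
eigenvectors of the quantised baker maps on `k_j + 1` sites, where `k_j → ∞`. -/
def IsQuantumLimit {D : ℕ} (U : Matrix (Fin D) (Fin D) ℂ)
    (ν : MeasureTheory.Measure (ℕ → Fin D)) : Prop :=
  ∃ (k : ℕ → ℕ) (ψ : ∀ j, (Fin (k j + 1) → Fin D) → ℂ), Filter.Tendsto k Filter.atTop Filter.atTop ∧
    (∀ j, IsEigen U (ψ j)) ∧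
    ∀ (n : ℕ) (w : Fin n → Fin D),
      Filter.Tendsto (fun j => prob (ψ j) w) Filter.atTop (nhds (ν (cyl w)).toReal)

/-- The tensor power `U ⊗ ⋯ ⊗ U`. -/
def tpow {D : ℕ} (U : Matrix (Fin D) (Fin D) ℂ) (n : ℕ) :
    Matrix (Fin n → Fin D) (Fin n → Fin D) ℂ := fun x y => ∏ i, U (x i) (y i)

/-- A state of the infinite quantum chain, given by its density matrices `ρ n` of `n`
consecutive sites, which is invariant under translations and under `U ⊗ U ⊗ ⋯`. -/
structure IsInvState {D : ℕ} (U : Matrix (Fin D) (Fin D) ℂ)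
    (ρ : ∀ n : ℕ, Matrix (Fin n → Fin D) (Fin n → Fin D) ℂ) : Prop where
  pos : ∀ n, (ρ n).PosSemidef
  trace : ∀ n, (ρ n).trace = 1
  right : ∀ (n : ℕ) (u v : Fin n → Fin D),
    ∑ c, ρ (n + 1) (Fin.snoc (α := fun _ => Fin D) u c) (Fin.snoc (α := fun _ => Fin D) v c) = ρ n u v
  left : ∀ (n : ℕ) (u v : Fin n → Fin D),
    ∑ c, ρ (n + 1) (Fin.cons (α := fun _ => Fin D) c u) (Fin.cons (α := fun _ => Fin D) c v) = ρ n u v
  inv : ∀ n, tpow U n * ρ n * (tpow U n)ᴴ = ρ n

/-! ## auxiliary definitions for the proof -/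

/-- tensor product over the sites `ι` of matrices on the one-site space `α` -/
def TP {ι α : Type} [Fintype ι] (R : ι → Matrix α α ℂ) : Matrix (ι → α) (ι → α) ℂ :=
  fun x y => ∏ i, R i (x i) (y i)

/-- cyclic extension of a word -/
def cyc {D k : ℕ} (x : Fin (k + 1) → Fin D) (m : ℕ) : Fin D :=
  x ⟨m % (k + 1), Nat.mod_lt _ (Nat.succ_pos k)⟩

/-- cyclic shift of a word: `(sh x) i = x (i - 1)` -/
def sh {D k : ℕ} (x : Fin (k + 1) → Fin D) : Fin (k + 1) → Fin D := fun i => cyc x (i.val + k)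

/-- number of times that the site `i` is hit by `U` in the first `t` steps -/
def cnt (k t : ℕ) (i : Fin (k + 1)) : ℕ := t / (k + 1) + if i.val < t % (k + 1) then 1 else 0

/-- cyclic frequency of the word `w` in the word `x` -/
noncomputable def freq {D k n : ℕ} (w : Fin n → Fin D) (x : Fin (k + 1) → Fin D) : ℝ :=
  (∑ i ∈ range (k + 1), if (∀ s : Fin n, cyc x (i + s.val) = w s) then (1 : ℝ) else 0) / (k + 1)

/-- the sites as pairs (block, place in the block) -/
def site {b l k : ℕ} (h : b * l = k + 1) : Fin b × Fin l ≃ Fin (k + 1) :=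
  finProdFinEquiv.trans (finCongr h)

/-- the `j`-th block of a word -/
def blk {D b l k : ℕ} (h : b * l = k + 1) (x : Fin (k + 1) → Fin D) (j : Fin b) : Fin l → Fin D :=
  fun i => x (site h (j, i))

end Pool.Agent.helper65.WB
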