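import Pool.Agent.helper65.WB.Defs

set_option autoImplicit false

/-!
# Tensor-product (Walsh) quantised baker maps: periodic orbits
-/

namespace Pool.Agent.helper65.WB

/-- the set of the translates (shifts) of `w` -/
def trans {D : ℕ} (w : ℕ → Fin D) : Set (ℕ → Fin D) := {x | ∃ r : ℕ, ∀ t, x t = w (t + r)}

/-- `U ^ m ⊗ U ^ m ⊗ ⋯` maps the sequence `w` to one of its translates, up to phases -/
def Returns {D : ℕ} (U : Matrix (Fin D) (Fin D) ℂ) (w : ℕ → Fin D) (m : ℕ) : Prop :=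
  1 ≤ m ∧ ∃ r : ℕ, ∀ t, ‖(U ^ m) (w (t + r)) (w t)‖ = 1

end Pool.Agent.helper65.WB
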