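import Pool.Agent.helper65.WB.Defs

set_option autoImplicit false

/-!
# The Walsh-quantised baker map and the complexity of sets of sequences
-/

namespace Pool.Agent.helper65.WB

/-- The inverse discrete Fourier matrix `exp (-2πi ab/D) / √D`. -/
noncomputable def fou (D : ℕ) : Matrix (Fin D) (Fin D) ℂ := fun a b =>
  Complex.exp (-(2 * Real.pi * Complex.I * (a.val * b.val) / D)) / (Real.sqrt D : ℝ)

/-- The set of the periodic sequences. -/
def Per (D : ℕ) : Set (ℕ → Fin D) := {x | ∃ s : ℕ, 1 ≤ s ∧ ∀ t, x (t + s) = x t}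

/-- The number of the words of length `n` with which elements of `S` begin. -/
noncomputable def complexity {D : ℕ} (S : Set (ℕ → Fin D)) (n : ℕ) : ℕ :=
  {w : Fin n → Fin D | ∃ x ∈ S, ∀ i : Fin n, x i.val = w i}.ncard

end Pool.Agent.helper65.WB
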