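import Pool.Agent.helper65.WB.Main

set_option autoImplicit false

/-!
# Every invariant state has a diagonal measure
-/

namespace Pool.Agent.helper65.WB

open Finset Matrix MeasureTheory Filter
open scoped ComplexOrder ENNReal

lemma cyl_isClopen {D n : ℕ} (w : Fin n → Fin D) : IsClopen (cyl w) := by
  have : cyl w = ⋂ i : Fin n, (fun x : ℕ → Fin D => x i.val) ⁻¹' {w i} := by
    ext x; simp [cyl]
  rw [this]
  refine isClopen_iInter_of_finite (fun i => ?_)
  exact (isClopen_discrete {w i}).preimage (continuous_apply _)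

lemma state_diag {D n : ℕ} (U : Matrix (Fin D) (Fin D) ℂ)
    (ρ : ∀ n : ℕ, Matrix (Fin n → Fin D) (Fin n → Fin D) ℂ) (hρ : IsInvState U ρ)
    (w : Fin n → Fin D) : 0 ≤ (ρ n w w).re ∧ ρ n w w = ((ρ n w w).re : ℂ) := by
  have h := (hρ.pos n).diag_nonneg (i := w)
  rw [Complex.le_def] at h
  refine ⟨by simpa using h.1, ?_⟩
  apply Complex.ext
  · simp
  · simpa using h.2.symm

theorem state_measure {D : ℕ} (U : Matrix (Fin D) (Fin D) ℂ)
    (ρ : ∀ n : ℕ, Matrix (Fin n → Fin D) (Fin n → Fin D) ℂ) (hρ : IsInvState U ρ) :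
    ∃ ν : Measure (ℕ → Fin D), IsProbabilityMeasure ν ∧
      ∀ (n : ℕ) (w : Fin n → Fin D), ρ n w w = ((ν (cyl w)).toReal : ℂ) := by
  classical
  have hD : 0 < D := by
    rcases Nat.eq_zero_or_pos D with h | h
    · subst h
      have h1 := hρ.trace 1
      have : IsEmpty (Fin 1 → Fin 0) := ⟨fun f => Fin.elim0 (f 0)⟩
      simp [Matrix.trace] at h1
    · exact h
  let ext : ∀ k, (Fin k → Fin D) → ℕ → Fin D :=
    fun k w t => if h : t < k then w ⟨t, h⟩ else ⟨0, hD⟩
  let μ : ∀ _ : ℕ, Measure (ℕ → Fin D) :=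
    fun k => ∑ w : Fin k → Fin D, ENNReal.ofReal (ρ k w w).re • Measure.dirac (ext k w)
  have hp0 : ∀ k (w : Fin k → Fin D), 0 ≤ (ρ k w w).re := fun k w => (state_diag U ρ hρ w).1
  have hμ : ∀ k, IsProbabilityMeasure (μ k) := by
    intro k
    constructor
    show (∑ w : Fin k → Fin D, ENNReal.ofReal (ρ k w w).re • Measure.dirac (ext k w)) Set.univ = 1
    rw [Measure.finsetSum_apply]
    simp only [Measure.smul_apply, measure_univ, smul_eq_mul, mul_one]
    rw [← ENNReal.ofReal_sum_of_nonneg (fun w _ => hp0 k w)]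
    have h1 := congrArg Complex.re (hρ.trace k)
    simp only [Matrix.trace, Matrix.diag, Complex.re_sum, Complex.one_re] at h1
    rw [h1, ENNReal.ofReal_one]
  have hcyl : ∀ k n (v : Fin n → Fin D), n ≤ k → (μ k (cyl v)) = ENNReal.ofReal (ρ n v v).re := by
    intro k n v hnk
    show (∑ w : Fin k → Fin D, ENNReal.ofReal (ρ k w w).re • Measure.dirac (ext k w)) (cyl v) = _
    rw [Measure.finsetSum_apply, ← marginal U ρ hρ n k 0 (by omega) v,
      ENNReal.ofReal_sum_of_nonneg (fun w _ => hp0 k w), Finset.sum_filter]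
    refine Finset.sum_congr rfl (fun w _ => ?_)
    rw [Measure.smul_apply, Measure.dirac_apply' _ (cyl_isClopen v).isOpen.measurableSet]
    have hiff : ext k w ∈ cyl v ↔ ∀ s : Fin n, w ⟨0 + s.val, by omega⟩ = v s := by
      show (∀ i : Fin n, ext k w i.val = v i) ↔ _
      refine forall_congr' (fun i => ?_)
      have hi : i.val < k := by omega
      simp only [ext, dif_pos hi, zero_add]
    by_cases hc : ∀ s : Fin n, w ⟨0 + s.val, by omega⟩ = v s
    · rw [if_pos hc, Set.indicator_of_mem (hiff.2 hc)]; simp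
    · rw [if_neg hc, Set.indicator_of_notMem (fun h => hc (hiff.1 h))]; simp
  let P : ℕ → ProbabilityMeasure (ℕ → Fin D) := fun k => ⟨μ k, hμ k⟩
  let F : Ultrafilter ℕ := Filter.hyperfilter ℕ
  have hF : (F : Filter ℕ) ≤ atTop := Nat.hyperfilter_le_atTop
  obtain ⟨ν, -, hν⟩ := isCompact_iff_ultrafilter_le_nhds.1
    (isCompact_univ (X := ProbabilityMeasure (ℕ → Fin D))) (F.map P) (by simp)
  have hν' : Tendsto P (F : Filter ℕ) (nhds ν) := hν
  refine ⟨ν, inferInstance, fun n w => ?_⟩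
  have hlim := ProbabilityMeasure.tendsto_measure_of_null_frontier_of_tendsto' hν' (E := cyl w)
    (by rw [(cyl_isClopen w).frontier_eq]; exact measure_empty)
  have hconst : Tendsto (fun k => (P k : Measure (ℕ → Fin D)) (cyl w)) (F : Filter ℕ)
      (nhds (ENNReal.ofReal (ρ n w w).re)) := by
    refine tendsto_const_nhds.congr' ?_
    filter_upwards [hF (eventually_ge_atTop n)] with k hk
    exact (hcyl k n w hk).symm
  have heq := tendsto_nhds_unique hlim hconst
  rw [heq, ENNReal.toReal_ofReal (hp0 n w)]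
  exact (state_diag U ρ hρ w).2

/-- every invariant state gives a quantum limit -/
theorem state_limit {D : ℕ} (U : Matrix (Fin D) (Fin D) ℂ)
    (hU : U ∈ Matrix.unitaryGroup (Fin D) ℂ)
    (ρ : ∀ n : ℕ, Matrix (Fin n → Fin D) (Fin n → Fin D) ℂ) (hρ : IsInvState U ρ) :
    ∃ ν : Measure (ℕ → Fin D), IsProbabilityMeasure ν ∧ IsQuantumLimit U ν ∧
      ∀ (n : ℕ) (w : Fin n → Fin D), ρ n w w = ((ν (cyl w)).toReal : ℂ) := by
  obtain ⟨ν, hν, h⟩ := state_measure U ρ hρ
  exact ⟨ν, hν, (classification U hU ν).2 ⟨ρ, hρ, h⟩, h⟩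

end Pool.Agent.helper65.WB
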