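import Pool.Agent.helper65.WB.TP

set_option autoImplicit false

/-!
# An almost-orthogonality inequality
-/

namespace Pool.Agent.helper65.WB

open Finset Matrix
open scoped ComplexOrder

/-- Bessel's inequality for almost orthonormal vectors -/
lemma bessel_like {E : Type} [NormedAddCommGroup E] [InnerProductSpace ℂ E] {P : Type} [Fintype P]
    [DecidableEq P] (f : P → E) (hf : ∀ p, ‖f p‖ = 1) (v : E) :
    ∑ p, ‖inner ℂ (f p) v‖ ^ 2 ≤
      (1 + ∑ p, ∑ q ∈ univ.erase p, ‖inner ℂ (f p) (f q)‖) * ‖v‖ ^ 2 := by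
  set b : P → ℂ := fun p => inner ℂ (f p) v with hb
  set Q : ℝ := ∑ p, ‖b p‖ ^ 2 with hQ
  set S : E := ∑ p, b p • f p with hS
  set G : ℝ := ∑ p, ∑ q ∈ univ.erase p, ‖inner ℂ (f p) (f q)‖ with hG
  have hG0 : 0 ≤ G := Finset.sum_nonneg (fun _ _ => Finset.sum_nonneg (fun _ _ => norm_nonneg _))
  have hQ0 : 0 ≤ Q := Finset.sum_nonneg (fun _ _ => by positivity)
  have h1 : inner ℂ S v = (Q : ℂ) := by
    rw [hS, sum_inner, hQ]
    push_cast
    refine Finset.sum_congr rfl (fun p _ => ?_)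
    rw [inner_smul_left]
    exact Complex.conj_mul' (b p)
  have h2 : Q ≤ ‖S‖ * ‖v‖ := by
    have := norm_inner_le_norm (𝕜 := ℂ) S v
    rw [h1, Complex.norm_real, Real.norm_of_nonneg hQ0] at this
    exact this
  have hbb : ∀ p q, ‖b p‖ * ‖b q‖ ≤ Q := by
    intro p q
    have hp : ‖b p‖ ^ 2 ≤ Q := Finset.single_le_sum (f := fun p => ‖b p‖ ^ 2)
      (fun _ _ => by positivity) (Finset.mem_univ p)
    have hq : ‖b q‖ ^ 2 ≤ Q := Finset.single_le_sum (f := fun p => ‖b p‖ ^ 2)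
      (fun _ _ => by positivity) (Finset.mem_univ q)
    nlinarith [sq_nonneg (‖b p‖ - ‖b q‖)]
  have h3 : ‖S‖ ^ 2 ≤ (1 + G) * Q := by
    have e1 : ‖S‖ ^ 2 = ‖inner ℂ S S‖ := by
      rw [inner_self_eq_norm_sq_to_K]; simp
    have e2 : inner ℂ S S = ∑ p, ∑ q, (starRingEnd ℂ) (b p) * (b q * inner ℂ (f p) (f q)) := by
      conv_lhs => rw [hS]
      rw [sum_inner]
      refine Finset.sum_congr rfl (fun p _ => ?_)
      rw [inner_smul_left, inner_sum, Finset.mul_sum]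
      refine Finset.sum_congr rfl (fun q _ => ?_)
      rw [inner_smul_right]
    rw [e1, e2]
    refine (norm_sum_le _ _).trans ?_
    have e3 : ∀ p ∈ (univ : Finset P),
        ‖∑ q, (starRingEnd ℂ) (b p) * (b q * inner ℂ (f p) (f q))‖
        ≤ ‖b p‖ ^ 2 + ∑ q ∈ univ.erase p, Q * ‖inner ℂ (f p) (f q)‖ := by
      intro p _
      refine (norm_sum_le _ _).trans ?_
      rw [← Finset.add_sum_erase _ _ (Finset.mem_univ p)]
      refine add_le_add ?_ (Finset.sum_le_sum (fun q _ => ?_))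
      · rw [norm_mul, norm_mul, RCLike.norm_conj, inner_self_eq_norm_sq_to_K, hf p]
        simp [sq]
      · rw [norm_mul, norm_mul, RCLike.norm_conj, ← mul_assoc]
        gcongr
        exact hbb p q
    refine (Finset.sum_le_sum e3).trans ?_
    rw [Finset.sum_add_distrib]
    simp only [← Finset.mul_sum]
    rw [← hQ, ← hG]
    linarith
  -- conclude
  have h4 : Q ^ 2 ≤ (1 + G) * Q * ‖v‖ ^ 2 := by
    calc Q ^ 2 ≤ (‖S‖ * ‖v‖) ^ 2 := by gcongr
      _ = ‖S‖ ^ 2 * ‖v‖ ^ 2 := by ring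
      _ ≤ (1 + G) * Q * ‖v‖ ^ 2 := by gcongr
  rcases hQ0.eq_or_lt with h0 | h0
  · show Q ≤ (1 + G) * ‖v‖ ^ 2
    rw [← h0]; positivity
  · have : Q * Q ≤ Q * ((1 + G) * ‖v‖ ^ 2) := by nlinarith
    exact le_of_mul_le_mul_left this h0

open scoped MatrixOrder in
lemma psd_fact {W : Type} [Fintype W] [DecidableEq W] (ρ : Matrix W W ℂ) (hρ : ρ.PosSemidef) :
    ∃ M : Matrix W W ℂ, ρ = Mᴴ * M := by
  have h := (CStarAlgebra.nonneg_iff_eq_star_mul_self (a := ρ)).1 hρ.nonneg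
  obtain ⟨M, hM⟩ := h
  exact ⟨M, hM⟩

/-- the sum of the expectations of almost orthonormal vectors in a density matrix -/
lemma gram_trace {W P : Type} [Fintype W] [DecidableEq W] [Fintype P] [DecidableEq P]
    (ρ : Matrix W W ℂ) (hρ : ρ.PosSemidef) (f : P → W → ℂ) (hf : ∀ p, ∑ x, ‖f p x‖ ^ 2 = 1) :
    ∑ p, (star (f p) ⬝ᵥ (ρ.mulVec (f p))).re ≤
      (1 + ∑ p, ∑ q ∈ univ.erase p, ‖star (f p) ⬝ᵥ f q‖) * ρ.trace.re := by
  obtain ⟨M, hM⟩ := psd_fact ρ hρ
  -- rows of `M`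
  set r : W → EuclideanSpace ℂ W := fun c => WithLp.toLp 2 (fun x => star (M c x)) with hr
  set F : P → EuclideanSpace ℂ W := fun p => WithLp.toLp 2 (f p) with hF
  have hFn : ∀ p, ‖F p‖ = 1 := by
    intro p
    rw [EuclideanSpace.norm_eq]
    simp only [hF]
    rw [hf p, Real.sqrt_one]
  have hin : ∀ p q, inner ℂ (F p) (F q) = star (f p) ⬝ᵥ f q := by
    intro p q
    rw [EuclideanSpace.inner_eq_star_dotProduct, dotProduct_comm]
  have hexp : ∀ p, star (f p) ⬝ᵥ (ρ.mulVec (f p)) = ((∑ c, ‖inner ℂ (F p) (r c)‖ ^ 2 : ℝ) : ℂ) := by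
    intro p
    rw [hM, ← Matrix.mulVec_mulVec, Matrix.dotProduct_mulVec, ← Matrix.star_mulVec]
    push_cast
    simp only [dotProduct, Pi.star_apply]
    refine Finset.sum_congr rfl (fun c _ => ?_)
    have : inner ℂ (F p) (r c) = star (M.mulVec (f p) c) := by
      rw [EuclideanSpace.inner_eq_star_dotProduct]
      simp only [hF, hr, Matrix.mulVec, dotProduct, Pi.star_apply, star_sum, star_mul']
    rw [this, norm_star, ← Complex.conj_mul']
    rfl
  have htr : ρ.trace = ((∑ c, ‖r c‖ ^ 2 : ℝ) : ℂ) := by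
    rw [hM]
    simp only [Matrix.trace, Matrix.diag, Matrix.mul_apply, Matrix.conjTranspose_apply]
    rw [Finset.sum_comm]
    push_cast
    refine Finset.sum_congr rfl (fun c _ => ?_)
    have hn : ‖r c‖ ^ 2 = ∑ x, ‖M c x‖ ^ 2 := by
      rw [EuclideanSpace.norm_sq_eq]; simp [hr]
    have hn' : ((‖r c‖ : ℂ)) ^ 2 = ((∑ x, ‖M c x‖ ^ 2 : ℝ) : ℂ) := by
      rw [← hn]; push_cast; rfl
    rw [hn']
    push_cast
    exact Finset.sum_congr rfl (fun x _ => Complex.conj_mul' (M c x))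
  simp only [hexp, Complex.ofReal_re, htr]
  rw [Finset.sum_comm, Finset.mul_sum]
  refine Finset.sum_le_sum (fun c _ => ?_)
  have := bessel_like F hFn (r c)
  simpa only [hin] using this

end Pool.Agent.helper65.WB
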