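import Pool.Agent.helper65.WB.Atm

set_option autoImplicit false

/-!
# Invariance of quantum limits under the shift and the parity
-/

namespace Pool.Agent.helper65.WB

open Finset Matrix MeasureTheory Filter
open scoped ComplexOrder ENNReal

/-- the shift -/
def shift {D : ℕ} (x : ℕ → Fin D) : ℕ → Fin D := fun t => x (t + 1)

lemma measurable_shift {D : ℕ} : Measurable (shift : (ℕ → Fin D) → _) := by
  unfold shift
  fun_prop

lemma shift_cyl {D n : ℕ} (μ : Measure (ℕ → Fin D)) (w : Fin n → Fin D) :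
    (μ.map shift) (cyl w) = ∑ c, μ (cyl (Fin.cons (α := fun _ => Fin D) c w)) := by
  rw [Measure.map_apply measurable_shift (cyl_isClopen w).isOpen.measurableSet]
  have h1 : shift ⁻¹' (cyl w) = ⋃ c : Fin D, cyl (Fin.cons (α := fun _ => Fin D) c w) := by
    ext x
    simp only [Set.mem_preimage, Set.mem_iUnion]
    constructor
    · intro h
      refine ⟨x 0, fun i => ?_⟩
      refine Fin.cases ?_ (fun j => ?_) i
      · rw [Fin.cons_zero]; rfl
      · rw [Fin.cons_succ]; exact h j
    · rintro ⟨c, hc⟩ i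
      have := hc i.succ
      rw [Fin.cons_succ] at this
      exact this
  rw [h1, measure_iUnion, tsum_fintype]
  · intro c d hcd
    rw [Function.onFun, Set.disjoint_left]
    intro x hx hy
    have h1 := hx 0
    have h2 := hy 0
    rw [Fin.cons_zero] at h1 h2
    exact hcd (h1.symm.trans h2)
  · intro c
    exact (cyl_isClopen _).isOpen.measurableSet

lemma snoc_cyl {D n : ℕ} (μ : Measure (ℕ → Fin D)) (w : Fin n → Fin D) :
    μ (cyl w) = ∑ c, μ (cyl (Fin.snoc (α := fun _ => Fin D) w c)) := by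
  have h1 : cyl w = ⋃ c : Fin D, cyl (Fin.snoc (α := fun _ => Fin D) w c) := by
    ext x
    simp only [Set.mem_iUnion]
    constructor
    · intro h
      refine ⟨x n, fun i => ?_⟩
      refine Fin.lastCases ?_ (fun j => ?_) i
      · rw [Fin.snoc_last]; rfl
      · rw [Fin.snoc_castSucc]; exact h j
    · rintro ⟨c, hc⟩ i
      have := hc i.castSucc
      rw [Fin.snoc_castSucc] at this
      exact this
  conv_lhs => rw [h1]
  rw [measure_iUnion, tsum_fintype]
  · intro c d hcd
    rw [Function.onFun, Set.disjoint_left]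
    intro x hx hy
    have h1 := hx (Fin.last n)
    have h2 := hy (Fin.last n)
    rw [Fin.snoc_last] at h1 h2
    exact hcd (h1.symm.trans h2)
  · intro c
    exact (cyl_isClopen _).isOpen.measurableSet

/-- quantum limits are shift-invariant -/
theorem limit_shift {D : ℕ} (U : Matrix (Fin D) (Fin D) ℂ)
    (hU : U ∈ Matrix.unitaryGroup (Fin D) ℂ) (ν : Measure (ℕ → Fin D)) [IsProbabilityMeasure ν]
    (hν : IsQuantumLimit U ν) : ν.map shift = ν := by
  obtain ⟨ρ, hρ, hd⟩ := (classification U hU ν).1 hν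
  have : IsFiniteMeasure (ν.map shift) := by
    have := Measure.isProbabilityMeasure_map (μ := ν) measurable_shift.aemeasurable
    infer_instance
  refine ext_cyl _ _ (fun n w => ?_)
  rw [shift_cyl]
  have h1 := hρ.left n w w
  simp only [hd] at h1
  have h2 : ∑ c, (ν (cyl (Fin.cons (α := fun _ => Fin D) c w))).toReal = (ν (cyl w)).toReal := by
    exact_mod_cast h1
  rw [← ENNReal.toReal_sum (fun c _ => measure_ne_top ν _)] at h2
  exact (ENNReal.toReal_eq_toReal_iff' (ENNReal.sum_ne_top.2 (fun c _ => measure_ne_top ν _))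
    (measure_ne_top ν _)).1 h2

/-- the parity -/
def par {D : ℕ} [NeZero D] (x : ℕ → Fin D) : ℕ → Fin D := fun t => -x t

lemma measurable_par {D : ℕ} [NeZero D] : Measurable (par : (ℕ → Fin D) → _) := by
  unfold par
  exact measurable_pi_lambda _ (fun t =>
    (measurable_of_finite (fun a : Fin D => -a)).comp (measurable_pi_apply t))

lemma par_cyl {D n : ℕ} [NeZero D] (μ : Measure (ℕ → Fin D)) (w : Fin n → Fin D) :
    (μ.map par) (cyl w) = μ (cyl (fun t => -w t)) := by
  rw [Measure.map_apply measurable_par (cyl_isClopen w).isOpen.measurableSet]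
  congr 1
  ext x
  show (∀ i : Fin n, -x i.val = w i) ↔ (∀ i : Fin n, x i.val = -w i)
  exact forall_congr' (fun i => neg_eq_iff_eq_neg)

lemma tpow_mul {D : ℕ} (U V : Matrix (Fin D) (Fin D) ℂ) (n : ℕ) :
    tpow U n * tpow V n = tpow (U * V) n :=
  TP_mul (fun _ : Fin n => U) (fun _ => V)

lemma tpow_fou2 {D : ℕ} [NeZero D] (n : ℕ) (u x : Fin n → Fin D) :
    tpow (fou D * fou D) n u x = if x = (fun t => -u t) then 1 else 0 := by
  unfold tpow
  simp only [fou_sq]
  by_cases h : x = fun t => -u t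
  · rw [if_pos h]
    refine Finset.prod_eq_one (fun i _ => ?_)
    rw [if_pos]
    rw [h, neg_neg]
  · rw [if_neg h]
    obtain ⟨t, ht⟩ := Function.ne_iff.1 h
    refine Finset.prod_eq_zero (Finset.mem_univ t) ?_
    rw [if_neg]
    intro h2
    exact ht (by rw [h2, neg_neg])

lemma conj_par {D : ℕ} [NeZero D] (n : ℕ) (M : Matrix (Fin n → Fin D) (Fin n → Fin D) ℂ)
    (u v : Fin n → Fin D) :
    (tpow (fou D) n * (tpow (fou D) n * M * (tpow (fou D) n)ᴴ) * (tpow (fou D) n)ᴴ) u v =
      M (fun t => -u t) (fun t => -v t) := by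
  have h1 : tpow (fou D) n * (tpow (fou D) n * M * (tpow (fou D) n)ᴴ) * (tpow (fou D) n)ᴴ =
      tpow (fou D * fou D) n * M * (tpow (fou D * fou D) n)ᴴ := by
    rw [← tpow_mul, Matrix.conjTranspose_mul]
    simp only [Matrix.mul_assoc]
  rw [h1, Matrix.mul_apply]
  simp only [Matrix.mul_apply, Matrix.conjTranspose_apply, tpow_fou2, ite_mul, one_mul, zero_mul,
    Finset.sum_ite_eq', Finset.mem_univ, if_true]
  rw [Finset.sum_eq_single (fun t => -v t)]
  · simp
  · intro y _ hy
    rw [if_neg hy]; simp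
  · intro h; exact absurd (Finset.mem_univ _) h

/-- quantum limits of the Walsh-quantised baker map are invariant under the parity -/
theorem limit_par {D : ℕ} [NeZero D] (ν : Measure (ℕ → Fin D)) [IsProbabilityMeasure ν]
    (hν : IsQuantumLimit (fou D) ν) : ν.map par = ν := by
  obtain ⟨ρ, hρ, hd⟩ := (classification (fou D) (fou_unitary D) ν).1 hν
  have : IsFiniteMeasure (ν.map par) := by
    have := Measure.isProbabilityMeasure_map (μ := ν) (measurable_par (D := D)).aemeasurable
    infer_instance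
  refine ext_cyl _ _ (fun n w => ?_)
  rw [par_cyl]
  have h1 := conj_par n (ρ n) w w
  rw [hρ.inv n, hρ.inv n, hd, hd] at h1
  have h2 : (ν (cyl w)).toReal = (ν (cyl (fun t => -w t))).toReal := by exact_mod_cast h1
  exact ((ENNReal.toReal_eq_toReal_iff' (measure_ne_top ν _) (measure_ne_top ν _)).1 h2).symm

/-! ## periodic sequences -/

lemma Per_countable (D : ℕ) : (Per D).Countable := by
  have h1 : Per D ⊆ ⋃ s : ℕ, Set.range (fun (v : Fin (s + 1) → Fin D) (t : ℕ) =>
      v ⟨t % (s + 1), Nat.mod_lt _ (Nat.succ_pos s)⟩) := by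
    rintro x ⟨s, hs, hx⟩
    obtain ⟨s', rfl⟩ := Nat.exists_eq_add_of_le' hs
    refine Set.mem_iUnion.2 ⟨s', fun i => x i.val, ?_⟩
    funext t
    have := per_mul x (s' + 1) hx (t / (s' + 1)) (t % (s' + 1))
    rw [mul_comm, Nat.mod_add_div] at this
    exact this.symm
  exact (Set.countable_iUnion (fun s => Set.countable_range _)).mono h1

lemma Per_measurable (D : ℕ) : MeasurableSet (Per D) := (Per_countable D).measurableSet

theorem Per_le {D : ℕ} (hD : 2 ≤ D) (ν : Measure (ℕ → Fin D)) [IsProbabilityMeasure ν]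
    (hν : IsQuantumLimit (fou D) ν) : ν (Per D) ≤ 1 / 2 := by
  classical
  have h1 : ν (Per D) = ∑' x : Per D, ν {x.1} := by
    conv_lhs => rw [← Set.biUnion_of_singleton (Per D)]
    rw [measure_biUnion (Per_countable D) ?_ (fun x _ => measurableSet_singleton x)]
    intro x _ y _ hxy
    exact Set.disjoint_singleton.2 hxy
  rw [h1, ENNReal.tsum_eq_iSup_sum]
  refine iSup_le (fun S => ?_)
  have h2 := finite_upper hD (S.map (Function.Embedding.subtype _)) ν hν
  rw [Finset.sum_map] at h2
  exact h2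

lemma shift_Per {D : ℕ} : Per D ⊆ shift ⁻¹' (Per D) := by
  rintro x ⟨s, hs, hx⟩
  refine ⟨s, hs, fun t => ?_⟩
  show x (t + s + 1) = x (t + 1)
  rw [add_right_comm, hx]

lemma par_Per {D : ℕ} [NeZero D] : par ⁻¹' (Per D) = Per D := by
  ext x
  constructor
  · rintro ⟨s, hs, hx⟩
    exact ⟨s, hs, fun t => neg_injective (hx t)⟩
  · rintro ⟨s, hs, hx⟩
    exact ⟨s, hs, fun t => by show -x (t + s) = -x t; rw [hx]⟩

lemma restrict_shift {D : ℕ} (ν : Measure (ℕ → Fin D)) [IsProbabilityMeasure ν]
    (h : ν.map shift = ν) : (ν.restrict (Per D)).map shift = ν.restrict (Per D) := by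
  ext A hA
  rw [Measure.map_apply measurable_shift hA, Measure.restrict_apply (measurable_shift hA),
    Measure.restrict_apply hA]
  have h1 : ν (shift ⁻¹' (Per D) \ Per D) = 0 := by
    rw [measure_sdiff shift_Per (Per_measurable D).nullMeasurableSet (measure_ne_top ν _)]
    have : ν (shift ⁻¹' (Per D)) = ν (Per D) := by
      conv_rhs => rw [← h]
      rw [Measure.map_apply measurable_shift (Per_measurable D)]
    rw [this, tsub_self]
  have h2 : ν (shift ⁻¹' (A ∩ Per D)) = ν (A ∩ Per D) := by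
    conv_rhs => rw [← h]
    rw [Measure.map_apply measurable_shift (hA.inter (Per_measurable D))]
  rw [← h2]
  refine le_antisymm (measure_mono ?_) ?_
  · rintro x ⟨hx1, hx2⟩
    exact ⟨hx1, shift_Per hx2⟩
  · calc ν (shift ⁻¹' (A ∩ Per D)) ≤ ν ((shift ⁻¹' A ∩ Per D) ∪ (shift ⁻¹' (Per D) \ Per D)) := by
          refine measure_mono ?_
          rintro x ⟨hx1, hx2⟩
          by_cases hx : x ∈ Per D
          · exact Or.inl ⟨hx1, hx⟩
          · exact Or.inr ⟨hx2, hx⟩
      _ ≤ ν (shift ⁻¹' A ∩ Per D) + ν (shift ⁻¹' (Per D) \ Per D) := measure_union_le _ _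
      _ = ν (shift ⁻¹' A ∩ Per D) := by rw [h1, add_zero]

lemma restrict_par {D : ℕ} [NeZero D] (ν : Measure (ℕ → Fin D))
    (h : ν.map par = ν) : (ν.restrict (Per D)).map par = ν.restrict (Per D) := by
  ext A hA
  rw [Measure.map_apply measurable_par hA, Measure.restrict_apply (measurable_par hA),
    Measure.restrict_apply hA]
  conv_rhs => rw [← h]
  rw [Measure.map_apply measurable_par (hA.inter (Per_measurable D)), Set.preimage_inter, par_Per]

end Pool.Agent.helper65.WB
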