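import Pool.Agent.helper65.WB.Low

set_option autoImplicit false

/-!
# The low-complexity parts of the quantum limits of the Walsh-quantised baker map
-/

namespace Pool.Agent.helper65.WB

open Finset Matrix MeasureTheory Filter
open scoped ComplexOrder ENNReal

lemma complexity_union {D : ℕ} (S T : Set (ℕ → Fin D)) (n : ℕ) :
    complexity (S ∪ T) n ≤ complexity S n + complexity T n := by
  unfold complexity
  refine le_trans (Set.ncard_le_ncard ?_ (Set.toFinite _)) (Set.ncard_union_le _ _)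
  rintro w ⟨x, hx | hx, hw⟩
  · exact Or.inl ⟨x, hx, hw⟩
  · exact Or.inr ⟨x, hx, hw⟩

/-- low complexity -/
def IsLow {D : ℕ} (S : Set (ℕ → Fin D)) : Prop :=
  Tendsto (fun n : ℕ => (complexity S n : ℝ) / (Real.sqrt D) ^ n) atTop (nhds 0)

lemma IsLow.union {D : ℕ} {S T : Set (ℕ → Fin D)} (hS : IsLow S) (hT : IsLow T) :
    IsLow (S ∪ T) := by
  have h := Tendsto.add hS hT
  rw [add_zero] at h
  refine squeeze_zero (fun n => by positivity) (fun n => ?_) h
  rw [← add_div]
  refine div_le_div_of_nonneg_right ?_ (by positivity)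
  exact_mod_cast complexity_union S T n

lemma IsLow.empty {D : ℕ} : IsLow (∅ : Set (ℕ → Fin D)) := by
  have : ∀ n, complexity (∅ : Set (ℕ → Fin D)) n = 0 := by
    intro n; unfold complexity; simp
  unfold IsLow
  simp [this]

/-- the mass of a low-complexity set is at most `1/2` -/
lemma low_half {D : ℕ} (ν : Measure (ℕ → Fin D)) [IsProbabilityMeasure ν]
    (hν : IsQuantumLimit (fou D) ν) (S : Set (ℕ → Fin D)) (hS : IsLow S) : ν S ≤ 1 / 2 := by
  have hD : D ≠ 0 := by
    rintro rfl
    have h1 : (Set.univ : Set (ℕ → Fin 0)) = ∅ := by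
      ext x; exact (Fin.elim0 (x 0))
    have h2 := measure_univ (μ := ν)
    rw [h1, measure_empty] at h2
    exact zero_ne_one h2
  have hc : ∀ j, 1 ≤ j → j < 2 → ∀ a b, ‖((fou D) ^ j) a b‖ ≤ 1 / Real.sqrt D := by
    intro j h1 h2 a b
    have : j = 1 := by omega
    subst this
    rw [pow_one]
    have h3 := fou_norm_sq D hD a b
    have h4 : ‖fou D a b‖ = Real.sqrt (1 / D) := by
      rw [← h3, Real.sqrt_sq (norm_nonneg _)]
    rw [h4, Real.sqrt_div zero_le_one, Real.sqrt_one]
  have h1 := fun n => low_upper (fou D) (fou_unitary D) 2 (1 / Real.sqrt D) (by positivity) hc ν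
    hν S n
  have h2 : Tendsto (fun n : ℕ => 1 + ((2 : ℕ) : ℝ) * (complexity S n * (1 / Real.sqrt D) ^ n))
      atTop (nhds (1 + ((2 : ℕ) : ℝ) * 0)) := by
    refine (Tendsto.const_mul _ ?_).const_add 1
    refine hS.congr (fun n => ?_)
    rw [one_div, inv_pow, div_eq_mul_inv]
  have h3 := ge_of_tendsto' h2 h1
  have h4 : (ν S).toReal ≤ (1 / 2 : ℝ≥0∞).toReal := by
    rw [ENNReal.toReal_div]; simp only [ENNReal.toReal_one, ENNReal.toReal_ofNat]
    push_cast at h3; linarith
  exact (ENNReal.toReal_le_toReal (measure_ne_top ν _) (by simp)).1 h4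

/-- and so is that of a countable union -/
lemma low_half_iUnion {D : ℕ} (ν : Measure (ℕ → Fin D)) [IsProbabilityMeasure ν]
    (hν : IsQuantumLimit (fou D) ν) (S : ℕ → Set (ℕ → Fin D)) (hS : ∀ k, IsLow (S k)) :
    ν (⋃ k, S k) ≤ 1 / 2 := by
  rw [measure_iUnion_eq_iSup_accumulate]
  refine iSup_le (fun k => low_half ν hν _ ?_)
  induction k with
  | zero =>
    have : Set.accumulate S 0 = S 0 := by
      ext x; simp
    rw [this]; exact hS 0
  | succ k ih =>
    rw [Set.accumulate_succ]
    exact ih.union (hS (k + 1))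

lemma leb_low {D : ℕ} [NeZero D] (S : Set (ℕ → Fin D)) (hS : IsLow S) : leb D S = 0 := by
  have hD0 : (0 : ℝ) < D := by exact_mod_cast Nat.pos_of_ne_zero (NeZero.ne D)
  have hD1 : (1 : ℝ) ≤ D := by exact_mod_cast Nat.one_le_iff_ne_zero.2 (NeZero.ne D)
  have hp := leb_prob D
  classical
  have h1 : ∀ n : ℕ, (leb D S).toReal ≤ (complexity S n : ℝ) / (Real.sqrt D) ^ n := by
    intro n
    set X : Finset (Fin n → Fin D) :=
      univ.filter (fun w => ∃ x ∈ S, ∀ i : Fin n, x i.val = w i) with hX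
    have hcard : (X.card : ℝ) = complexity S n := by
      unfold complexity
      rw [← Set.ncard_coe_finset]
      congr 2
      ext w; simp [hX]
    have h2 : (leb D S).toReal ≤ ∑ w : X, (leb D (cyl w.1)).toReal := by
      rw [← ENNReal.toReal_sum (fun r _ => measure_ne_top _ _)]
      refine ENNReal.toReal_mono (ENNReal.sum_ne_top.2 (fun r _ => measure_ne_top _ _)) ?_
      refine le_trans (measure_mono ?_) (measure_iUnion_fintype_le _ _)
      intro x hx
      refine Set.mem_iUnion.2 ⟨⟨fun i => x i.val, ?_⟩, fun i => rfl⟩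
      rw [hX, Finset.mem_filter]
      exact ⟨Finset.mem_univ _, x, hx, fun i => rfl⟩
    refine h2.trans ?_
    simp only [leb_cyl, Finset.sum_const, Finset.card_univ, Fintype.card_coe, nsmul_eq_mul, hcard]
    rw [div_eq_mul_inv]
    refine mul_le_mul_of_nonneg_left ?_ (Nat.cast_nonneg _)
    rw [one_mul, inv_pow]
    refine inv_anti₀ (by positivity) ?_
    refine pow_le_pow_left₀ (Real.sqrt_nonneg _) ?_ n
    rw [Real.sqrt_le_left hD0.le]
    nlinarith
  have h3 := ge_of_tendsto' hS h1
  have h4 : (leb D S).toReal = 0 := le_antisymm h3 ENNReal.toReal_nonneg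
  rcases (ENNReal.toReal_eq_zero_iff _).1 h4 with h | h
  · exact h
  · exact absurd h (measure_ne_top _ _)

lemma restrict_shift' {D : ℕ} (ν : Measure (ℕ → Fin D)) [IsProbabilityMeasure ν]
    (h : ν.map shift = ν) (S : Set (ℕ → Fin D)) (hS : MeasurableSet S)
    (hsS : S ⊆ shift ⁻¹' S) : (ν.restrict S).map shift = ν.restrict S := by
  ext A hA
  rw [Measure.map_apply measurable_shift hA, Measure.restrict_apply (measurable_shift hA),
    Measure.restrict_apply hA]
  have h1 : ν (shift ⁻¹' S \ S) = 0 := by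
    rw [measure_sdiff hsS hS.nullMeasurableSet (measure_ne_top ν _)]
    have : ν (shift ⁻¹' S) = ν S := by
      conv_rhs => rw [← h]
      rw [Measure.map_apply measurable_shift hS]
    rw [this, tsub_self]
  have h2 : ν (shift ⁻¹' (A ∩ S)) = ν (A ∩ S) := by
    conv_rhs => rw [← h]
    rw [Measure.map_apply measurable_shift (hA.inter hS)]
  rw [← h2]
  refine le_antisymm (measure_mono ?_) ?_
  · rintro x ⟨hx1, hx2⟩
    exact ⟨hx1, hsS hx2⟩
  · calc ν (shift ⁻¹' (A ∩ S)) ≤ ν ((shift ⁻¹' A ∩ S) ∪ (shift ⁻¹' S \ S)) := by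
          refine measure_mono ?_
          rintro x ⟨hx1, hx2⟩
          by_cases hx : x ∈ S
          · exact Or.inl ⟨hx1, hx⟩
          · exact Or.inr ⟨hx2, hx⟩
      _ ≤ ν (shift ⁻¹' A ∩ S) + ν (shift ⁻¹' S \ S) := measure_union_le _ _
      _ = ν (shift ⁻¹' A ∩ S) := by rw [h1, add_zero]

lemma restrict_par' {D : ℕ} [NeZero D] (ν : Measure (ℕ → Fin D))
    (h : ν.map par = ν) (S : Set (ℕ → Fin D)) (hS : MeasurableSet S)
    (hpS : par ⁻¹' S = S) : (ν.restrict S).map par = ν.restrict S := by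
  ext A hA
  rw [Measure.map_apply measurable_par hA, Measure.restrict_apply (measurable_par hA),
    Measure.restrict_apply hA]
  conv_rhs => rw [← h]
  rw [Measure.map_apply measurable_par (hA.inter hS), Set.preimage_inter, hpS]

/-- the low-complexity parts of the quantum limits of the Walsh-quantised baker map -/
theorem low_parts {D : ℕ} [NeZero D] (S : ℕ → Set (ℕ → Fin D))
    (hS : ∀ k, MeasurableSet (S k) ∧
      Tendsto (fun n : ℕ => (complexity (S k) n : ℝ) / (Real.sqrt D) ^ n) atTop (nhds 0))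
    (hshift : ∀ x ∈ ⋃ k, S k, (fun t => x (t + 1)) ∈ ⋃ k, S k)
    (hpar : ∀ x ∈ ⋃ k, S k, (fun t => -x t) ∈ ⋃ k, S k) (η : Measure (ℕ → Fin D)) :
    (∃ ν : Measure (ℕ → Fin D), IsProbabilityMeasure ν ∧ IsQuantumLimit (fou D) ν ∧
      η = ν.restrict (⋃ k, S k)) ↔
    (η (⋃ k, S k)ᶜ = 0 ∧ η.map (fun x t => x (t + 1)) = η ∧ η.map (fun x t => -x t) = η ∧
      η Set.univ ≤ 1 / 2) := by
  have hm : MeasurableSet (⋃ k, S k) := MeasurableSet.iUnion (fun k => (hS k).1)
  have hlow : ∀ k, IsLow (S k) := fun k => (hS k).2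
  have hpp : par ⁻¹' (⋃ k, S k) = ⋃ k, S k := by
    apply Set.Subset.antisymm
    · intro x hx
      have h1 := hpar _ hx
      have h2 : (fun t => -(par x) t) = x := by funext t; exact neg_neg _
      rw [h2] at h1
      exact h1
    · intro x hx
      exact hpar x hx
  constructor
  · rintro ⟨ν, hν, hq, rfl⟩
    refine ⟨?_, restrict_shift' ν (limit_shift _ (fou_unitary D) ν hq) _ hm
      (fun x hx => hshift x hx), restrict_par' ν (limit_par ν hq) _ hm hpp, ?_⟩
    · rw [Measure.restrict_apply hm.compl, Set.compl_inter_self, measure_empty]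
    · rw [Measure.restrict_apply_univ]
      exact low_half_iUnion ν hq S hlow
  · rintro ⟨h0, h1, h2, h3⟩
    obtain ⟨hp, hq⟩ := prescribed_limit η h1 h2 h3
    refine ⟨_, hp, hq, ?_⟩
    have hleb : leb D (⋃ k, S k) = 0 := by
      rw [measure_iUnion_null_iff]
      exact fun k => leb_low (S k) (hlow k)
    rw [Measure.restrict_add, Measure.restrict_smul, Measure.restrict_eq_zero.2 hleb,
      smul_zero, add_zero]
    refine (Measure.restrict_eq_self_of_ae_mem ?_).symm
    rw [ae_iff]
    exact h0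

end Pool.Agent.helper65.WB
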