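import Pool.Agent.helper65.WB.Bom
import Pool.Agent.helper65.WB.Cvs

set_option autoImplicit false

/-!
# The mass of quantum limits on sets of low complexity
-/

namespace Pool.Agent.helper65.WB

open Finset Matrix MeasureTheory Filter
open scoped ComplexOrder ENNReal

lemma dot_unitary' {W : Type} [Fintype W] [DecidableEq W] (V : Matrix W W ℂ)
    (hV : V ∈ Matrix.unitaryGroup W ℂ) (φ χ : W → ℂ) :
    star (V.mulVec φ) ⬝ᵥ V.mulVec χ = star φ ⬝ᵥ χ := by
  rw [Matrix.star_mulVec, ← Matrix.dotProduct_mulVec, Matrix.mulVec_mulVec]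
  have h : Vᴴ * V = 1 := by
    have := Matrix.mem_unitaryGroup_iff'.1 hV
    simpa [Matrix.star_eq_conjTranspose] using this
  rw [h, Matrix.one_mulVec]

lemma single_dot {W : Type} [Fintype W] [DecidableEq W] (V : Matrix W W ℂ) (a b : W) :
    star (Pi.single a 1 : W → ℂ) ⬝ᵥ V.mulVec (Pi.single b 1) = V a b := by
  rw [Matrix.mulVec_single_one]
  unfold dotProduct
  rw [Finset.sum_eq_single a]
  · simp [Matrix.col]
  · intro c _ hc; simp [hc]
  · intro h; exact absurd (Finset.mem_univ _) h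

lemma expect_pow {W : Type} [Fintype W] [DecidableEq W] (T ρ : Matrix W W ℂ)
    (hT : T ∈ Matrix.unitaryGroup W ℂ) (h : T * ρ * Tᴴ = ρ) (f : W → ℂ) (j : ℕ) :
    star ((T ^ j).mulVec f) ⬝ᵥ (ρ.mulVec ((T ^ j).mulVec f)) = star f ⬝ᵥ (ρ.mulVec f) := by
  induction j with
  | zero => rw [pow_zero, Matrix.one_mulVec]
  | succ j ih =>
    rw [pow_succ', ← Matrix.mulVec_mulVec, expect_inv T ρ hT h, ih]

lemma tpow_pow {D : ℕ} (U : Matrix (Fin D) (Fin D) ℂ) (n j : ℕ) :
    (tpow U n) ^ j = tpow (U ^ j) n :=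
  TP_pow (fun _ : Fin n => U) j

theorem low_upper {D : ℕ} (U : Matrix (Fin D) (Fin D) ℂ)
    (hU : U ∈ Matrix.unitaryGroup (Fin D) ℂ) (M : ℕ) (c : ℝ) (hc0 : 0 ≤ c)
    (hc : ∀ j, 1 ≤ j → j < M → ∀ a b, ‖(U ^ j) a b‖ ≤ c)
    (ν : Measure (ℕ → Fin D)) [IsProbabilityMeasure ν] (hν : IsQuantumLimit U ν)
    (S : Set (ℕ → Fin D)) (n : ℕ) :
    M * (ν S).toReal ≤ 1 + M * (complexity S n * c ^ n) := by
  classical
  obtain ⟨ρ, hρ, hd⟩ := (classification U hU ν).1 hν
  set X : Finset (Fin n → Fin D) :=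
    univ.filter (fun w => ∃ x ∈ S, ∀ i : Fin n, x i.val = w i) with hX
  have hcard : (X.card : ℝ) = complexity S n := by
    unfold complexity
    rw [← Set.ncard_coe_finset]
    congr 2
    ext w; simp [hX]
  set T := tpow U n with hT
  have hTu : T ∈ Matrix.unitaryGroup (Fin n → Fin D) ℂ := tpow_unitary U hU n
  let f : Fin M × X → (Fin n → Fin D) → ℂ := fun p => (T ^ p.1.val).mulVec (Pi.single p.2.1 1)
  -- the inner products
  have hdot : ∀ (j k : ℕ) (v w : Fin n → Fin D),
      star ((T ^ j).mulVec (Pi.single v 1)) ⬝ᵥ (T ^ (j + k)).mulVec (Pi.single w 1) =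
        (T ^ k) v w := by
    intro j k v w
    rw [pow_add, ← Matrix.mulVec_mulVec, dot_unitary' _ (pow_mem hTu j), single_dot]
  have hsmall : ∀ k, 1 ≤ k → k < M → ∀ v w, ‖(T ^ k) v w‖ ≤ c ^ n := by
    intro k hk1 hk2 v w
    rw [hT, tpow_pow]
    unfold tpow
    rw [norm_prod]
    calc ∏ i, ‖(U ^ k) (v i) (w i)‖ ≤ ∏ _i : Fin n, c :=
          Finset.prod_le_prod (fun i _ => norm_nonneg _) (fun i _ => hc k hk1 hk2 _ _)
      _ = c ^ n := by simp
  have hcomm : ∀ f g : (Fin n → Fin D) → ℂ, ‖star f ⬝ᵥ g‖ = ‖star g ⬝ᵥ f‖ := by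
    intro f g
    have : star (star f ⬝ᵥ g) = star g ⬝ᵥ f := by rw [Matrix.star_dotProduct, star_star]
    rw [← this, norm_star]
  have hR : ∀ p, ∑ q, ‖star (f p) ⬝ᵥ f q‖ ≤ 1 + M * (complexity S n * c ^ n) := by
    rintro ⟨j, v⟩
    rw [Fintype.sum_prod_type, ← Finset.add_sum_erase _ _ (Finset.mem_univ j)]
    refine add_le_add ?_ ?_
    · have e : ∀ w : X, ‖star (f (j, v)) ⬝ᵥ f (j, w)‖ = if v = w then 1 else 0 := by
        intro w
        have h1 := hdot j.val 0 v.1 w.1
        rw [add_zero] at h1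
        show ‖star ((T ^ j.val).mulVec (Pi.single v.1 1)) ⬝ᵥ
          (T ^ j.val).mulVec (Pi.single w.1 1)‖ = _
        rw [h1, pow_zero, Matrix.one_apply]
        by_cases hvw : v = w
        · rw [if_pos hvw, if_pos (by rw [hvw])]; simp
        · rw [if_neg hvw, if_neg (fun h => hvw (Subtype.ext h))]; simp
      rw [Finset.sum_congr rfl (fun w _ => e w)]
      simp
    · have e : ∀ k ∈ univ.erase j, ∑ w : X, ‖star (f (j, v)) ⬝ᵥ f (k, w)‖ ≤
          complexity S n * c ^ n := by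
        intro k hk
        have hkj : k ≠ j := (Finset.mem_erase.1 hk).1
        have hle : ∀ w : X, ‖star (f (j, v)) ⬝ᵥ f (k, w)‖ ≤ c ^ n := by
          intro w
          show ‖star ((T ^ j.val).mulVec (Pi.single v.1 1)) ⬝ᵥ
            (T ^ k.val).mulVec (Pi.single w.1 1)‖ ≤ _
          rcases lt_trichotomy j.val k.val with h | h | h
          · obtain ⟨d, hd'⟩ := Nat.exists_eq_add_of_lt h
            rw [show k.val = j.val + (d + 1) by omega, hdot]
            exact hsmall _ (by omega) (by omega) _ _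
          · exact absurd (Fin.ext h.symm) hkj
          · obtain ⟨d, hd'⟩ := Nat.exists_eq_add_of_lt h
            rw [hcomm, show j.val = k.val + (d + 1) by omega, hdot]
            exact hsmall _ (by omega) (by omega) _ _
        refine (Finset.sum_le_sum (fun w _ => hle w)).trans ?_
        rw [Finset.sum_const, Finset.card_univ, Fintype.card_coe, nsmul_eq_mul, hcard]
      refine (Finset.sum_le_sum e).trans ?_
      rw [Finset.sum_const, nsmul_eq_mul]
      refine mul_le_mul_of_nonneg_right ?_ (by positivity)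
      have : (univ.erase j).card ≤ M := by
        rw [Finset.card_erase_of_mem (Finset.mem_univ j), Finset.card_univ, Fintype.card_fin]
        omega
      exact_mod_cast this
  have hR0 : 0 ≤ 1 + M * (complexity S n * c ^ n) := by positivity
  have h1 := bombieri_trace (ρ n) (hρ.pos n) f _ hR hR0
  rw [hρ.trace n, Complex.one_re, mul_one] at h1
  have h5 : ∀ p : Fin M × X, (star (f p) ⬝ᵥ ((ρ n).mulVec (f p))).re = (ν (cyl p.2.1)).toReal := by
    intro p
    show (star ((T ^ p.1.val).mulVec (Pi.single p.2.1 1)) ⬝ᵥ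
      ((ρ n).mulVec ((T ^ p.1.val).mulVec (Pi.single p.2.1 1)))).re = _
    rw [expect_pow T (ρ n) hTu (hρ.inv n), single_dot, hd, Complex.ofReal_re]
  simp only [h5] at h1
  refine le_trans ?_ h1
  rw [Fintype.sum_prod_type]
  simp only [Finset.sum_const, Finset.card_univ, Fintype.card_fin, nsmul_eq_mul]
  have h4 : (ν S).toReal ≤ ∑ w : X, (ν (cyl w.1)).toReal := by
    rw [← ENNReal.toReal_sum (fun r _ => measure_ne_top ν _)]
    refine ENNReal.toReal_mono (ENNReal.sum_ne_top.2 (fun r _ => measure_ne_top ν _)) ?_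
    refine le_trans (measure_mono ?_) (measure_iUnion_fintype_le ν _)
    intro x hx
    refine Set.mem_iUnion.2 ⟨⟨fun i => x i.val, ?_⟩, fun i => rfl⟩
    rw [hX, Finset.mem_filter]
    exact ⟨Finset.mem_univ _, x, hx, fun i => rfl⟩
  exact mul_le_mul_of_nonneg_left h4 (Nat.cast_nonneg _)

end Pool.Agent.helper65.WB
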