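import Pool.Agent.helper38.WB.APX
import Pool.Agent.helper38.WB.LIM

set_option autoImplicit false

/-!
# WB project (MP_07c750_an): the classification of the quantum limits of tensor-product baker maps
-/

namespace Pool.Agent.helper65.WB

open Finset Matrix Filter
open scoped ComplexOrder

/-- The quantum limits of the tensor-product baker maps are exactly the diagonals of the
translation-invariant and `U ⊗ U ⊗ ⋯`-invariant states of the chain. -/
theorem classification {D : ℕ} (U : Matrix (Fin D) (Fin D) ℂ)
    (hU : U ∈ Matrix.unitaryGroup (Fin D) ℂ) (ν : MeasureTheory.Measure (ℕ → Fin D))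
    [MeasureTheory.IsProbabilityMeasure ν] :
    IsQuantumLimit U ν ↔
      ∃ ρ : ∀ n : ℕ, Matrix (Fin n → Fin D) (Fin n → Fin D) ℂ, IsInvState U ρ ∧
        ∀ (n : ℕ) (w : Fin n → Fin D), ρ n w w = ((ν (cyl w)).toReal : ℂ) := by
  constructor
  · rintro ⟨k, ψ, hk, hψ, hc⟩
    exact limit_state U hU k ψ hk hψ _ hc
  · rintro ⟨ρ, hρ, hν⟩
    choose k ψ hk hψ hap using fun j : ℕ => approx U hU ρ hρ j (1 / ((j : ℝ) + 1)) (by positivity)
    refine ⟨k, ψ, tendsto_atTop_mono hk tendsto_id, hψ, fun n w => ?_⟩
    rw [tendsto_iff_dist_tendsto_zero]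
    refine squeeze_zero' (Eventually.of_forall fun j => dist_nonneg) ?_
      tendsto_one_div_add_atTop_nhds_zero_nat
    filter_upwards [eventually_ge_atTop n] with j hj
    have := hap j n hj w
    rw [hν n w, Complex.ofReal_re] at this
    rwa [Real.dist_eq]

end Pool.Agent.helper65.WB
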