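import Pool.Agent.helper65.WB.Prod

set_option autoImplicit false

/-!
# The measures of mixtures of product states
-/

namespace Pool.Agent.helper65.WB

open Finset Matrix MeasureTheory
open scoped ComplexOrder ENNReal

/-- the one-site distribution of `φ` -/
noncomputable def mu1 {D : ℕ} (φ : Fin D → ℂ) : Measure (Fin D) :=
  ∑ x, ENNReal.ofReal (‖φ x‖ ^ 2) • Measure.dirac x

lemma mu1_singleton {D : ℕ} (φ : Fin D → ℂ) (a : Fin D) :
    mu1 φ {a} = ENNReal.ofReal (‖φ a‖ ^ 2) := by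
  unfold mu1
  rw [Measure.finset_sum_apply, Finset.sum_eq_single a]
  · simp
  · intro b _ hb; simp [hb]
  · intro h; exact absurd (Finset.mem_univ _) h

lemma norm_sq_sum {D : ℕ} (φ : Fin D → ℂ) (hφ : ∑ c, φ c * star (φ c) = 1) :
    ∑ c, ‖φ c‖ ^ 2 = 1 := by
  have h : ((∑ c, ‖φ c‖ ^ 2 : ℝ) : ℂ) = 1 := by
    rw [← hφ]
    push_cast
    refine Finset.sum_congr rfl (fun c _ => ?_)
    exact (Complex.mul_conj' (φ c)).symm
  exact_mod_cast h

instance mu1_prob {D : ℕ} (φ : Fin D → ℂ) [h : Fact (∑ c, φ c * star (φ c) = 1)] :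
    IsProbabilityMeasure (mu1 φ) := by
  constructor
  unfold mu1
  rw [Measure.finset_sum_apply]
  simp only [Measure.smul_apply, measure_univ, smul_eq_mul, mul_one]
  rw [← ENNReal.ofReal_sum_of_nonneg (fun _ _ => by positivity), norm_sq_sum φ h.out]
  simp

/-- the measure of the orbit mixture -/
noncomputable def nuOrb {D : ℕ} (U : Matrix (Fin D) (Fin D) ℂ) (φ : Fin D → ℂ) (m : ℕ)
    (h : ∀ j : ℕ, IsProbabilityMeasure (mu1 ((U ^ j).mulVec φ))) : Measure (ℕ → Fin D) :=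
  ∑ j ∈ range m, (ENNReal.ofReal (1 / m)) • Measure.infinitePi (fun _ : ℕ => mu1 ((U ^ j).mulVec φ))

lemma cyl_eq {D n : ℕ} (w : Fin n → Fin D) :
    cyl w = Set.pi (range n : Set ℕ) (fun i => if h : i < n then {w ⟨i, h⟩} else Set.univ) := by
  ext x
  simp only [cyl, Set.mem_ofPred_eq, Set.mem_pi, Finset.coe_range, Set.mem_Iio]
  constructor
  · intro h i hi
    rw [dif_pos hi]
    exact h ⟨i, hi⟩
  · intro h i
    have := h i.val i.isLt
    rw [dif_pos i.isLt] at this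
    exact this

lemma infinitePi_cyl {D n : ℕ} (μ : Measure (Fin D)) [IsProbabilityMeasure μ] (w : Fin n → Fin D) :
    Measure.infinitePi (fun _ : ℕ => μ) (cyl w) = ∏ i, μ {w i} := by
  rw [cyl_eq, Measure.infinitePi_pi]
  · rw [Finset.prod_range]
    refine Finset.prod_congr rfl (fun i _ => ?_)
    rw [dif_pos i.isLt]
  · intro i _
    split_ifs
    · exact measurableSet_singleton _
    · exact MeasurableSet.univ

lemma nuOrb_prob {D : ℕ} (U : Matrix (Fin D) (Fin D) ℂ) (φ : Fin D → ℂ) (m : ℕ) (hm : 1 ≤ m)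
    (h : ∀ j : ℕ, IsProbabilityMeasure (mu1 ((U ^ j).mulVec φ))) :
    IsProbabilityMeasure (nuOrb U φ m h) := by
  constructor
  unfold nuOrb
  rw [Measure.finset_sum_apply]
  simp only [Measure.smul_apply, measure_univ, smul_eq_mul, mul_one, Finset.sum_const,
    Finset.card_range, nsmul_eq_mul]
  have hm0 : (0 : ℝ) < m := by exact_mod_cast hm
  rw [← ENNReal.ofReal_natCast, ← ENNReal.ofReal_mul (Nat.cast_nonneg _), mul_one_div_cancel hm0.ne',
    ENNReal.ofReal_one]

lemma nuOrb_cyl {D n : ℕ} (U : Matrix (Fin D) (Fin D) ℂ) (φ : Fin D → ℂ) (m : ℕ)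
    (h : ∀ j : ℕ, IsProbabilityMeasure (mu1 ((U ^ j).mulVec φ))) (w : Fin n → Fin D) :
    (nuOrb U φ m h (cyl w)).toReal =
      1 / m * ∑ j ∈ range m, ∏ i, ‖(U ^ j).mulVec φ (w i)‖ ^ 2 := by
  unfold nuOrb
  rw [Measure.finset_sum_apply]
  simp only [Measure.smul_apply, smul_eq_mul, infinitePi_cyl, mu1_singleton]
  rw [ENNReal.toReal_sum, Finset.mul_sum]
  · refine Finset.sum_congr rfl (fun j _ => ?_)
    rw [ENNReal.toReal_mul, ENNReal.toReal_prod, ENNReal.toReal_ofReal (by positivity)]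
    congr 1
    exact Finset.prod_congr rfl (fun i _ => ENNReal.toReal_ofReal (by positivity))
  · intro j _
    refine ENNReal.mul_ne_top ENNReal.ofReal_ne_top ?_
    exact (ENNReal.prod_lt_top (fun i _ => ENNReal.ofReal_lt_top)).ne

lemma orb_diag {D n : ℕ} (U : Matrix (Fin D) (Fin D) ℂ) (φ : Fin D → ℂ) (m : ℕ)
    (h : ∀ j : ℕ, IsProbabilityMeasure (mu1 ((U ^ j).mulVec φ))) (w : Fin n → Fin D) :
    orb U φ m n w w = ((nuOrb U φ m h (cyl w)).toReal : ℂ) := by
  rw [nuOrb_cyl]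
  unfold orb
  simp only [Matrix.smul_apply, Matrix.sum_apply, pst, vecMulVec_apply, Pi.star_apply, pv,
    star_prod, smul_eq_mul]
  push_cast
  congr 1
  refine Finset.sum_congr rfl (fun j _ => ?_)
  rw [← Finset.prod_mul_distrib]
  refine Finset.prod_congr rfl (fun i _ => ?_)
  exact Complex.mul_conj' _

end Pool.Agent.helper65.WB
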