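import Pool.Agent.helper65.WB.Dck

set_option autoImplicit false

/-!
# Quantum unique ergodicity fails for every tensor-product baker map
-/

namespace Pool.Agent.helper65.WB

open Finset Matrix MeasureTheory
open scoped ComplexOrder

/-- normalisation of an eigenvector -/
lemma normalise {D : ℕ} (U : Matrix (Fin D) (Fin D) ℂ) (φ : Fin D → ℂ) (z : ℂ)
    (h : U.mulVec φ = z • φ) (hφ : φ ≠ 0) :
    ∃ c : ℂ, c ≠ 0 ∧ star (c • φ) ⬝ᵥ (c • φ) = 1 ∧ U.mulVec (c • φ) = z • (c • φ) := by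
  have hs : 0 < ∑ x, ‖φ x‖ ^ 2 := by
    obtain ⟨x, hx⟩ := Function.ne_iff.1 hφ
    have hx' : 0 < ‖φ x‖ := norm_pos_iff.2 hx
    have := Finset.single_le_sum (f := fun x => ‖φ x‖ ^ 2) (fun i _ => sq_nonneg _)
      (Finset.mem_univ x)
    have h3 : 0 < ‖φ x‖ ^ 2 := by positivity
    linarith
  set S : ℝ := ∑ x, ‖φ x‖ ^ 2 with hS
  have hd : star φ ⬝ᵥ φ = (S : ℂ) := by
    rw [hS]; unfold dotProduct; push_cast
    exact Finset.sum_congr rfl (fun x _ => Complex.conj_mul' _)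
  refine ⟨((1 / Real.sqrt S : ℝ) : ℂ), ?_, ?_, ?_⟩
  · have : (1 / Real.sqrt S : ℝ) ≠ 0 := by positivity
    exact_mod_cast this
  · rw [star_smul, smul_dotProduct, dotProduct_smul, hd, smul_eq_mul, smul_eq_mul,
      Complex.star_def, Complex.conj_ofReal]
    have : (1 / Real.sqrt S) * ((1 / Real.sqrt S) * S) = 1 := by
      have h1 := Real.mul_self_sqrt hs.le
      have h2 : Real.sqrt S ≠ 0 := by positivity
      field_simp
      nlinarith
    exact_mod_cast this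
  · rw [Matrix.mulVec_smul, h, smul_comm]

lemma two_eigs {D : ℕ} (hD : 2 ≤ D) (U : Matrix (Fin D) (Fin D) ℂ)
    (hU : U ∈ Matrix.unitaryGroup (Fin D) ℂ)
    (hflat : ∀ (φ : Fin D → ℂ) (z : ℂ), star φ ⬝ᵥ φ = 1 → U.mulVec φ = z • φ →
      ∀ x, ‖φ x‖ ^ 2 = 1 / D) :
    ∃ (a b : Fin D → ℂ) (α β : ℂ), U.mulVec a = α • a ∧ U.mulVec b = β • b ∧
      ‖α‖ = 1 ∧ ‖β‖ = 1 ∧ star a ⬝ᵥ a = 1 ∧ star b ⬝ᵥ b = 1 ∧ star a ⬝ᵥ b = 0 := by
  classical
  have hD0 : (0 : ℝ) < D := by exact_mod_cast (by omega : 0 < D)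
  have hD2 : (2 : ℝ) ≤ D := by exact_mod_cast hD
  set x₀ : Fin D := ⟨0, by omega⟩ with hx₀
  obtain ⟨Z, f, hf, hfZ, hsum⟩ := SEL_decomp U hU (bas x₀)
  have hb1 : star (bas x₀) ⬝ᵥ bas x₀ = 1 := by rw [bas_dot, if_pos rfl]
  have hne : ∃ z, f z ≠ 0 := by
    by_contra hc
    push Not at hc
    rw [hsum] at hb1
    simp [hc] at hb1
  obtain ⟨z, hz⟩ := hne
  have hne2 : ∃ z', z' ≠ z ∧ f z' ≠ 0 := by
    by_contra hc
    push Not at hc
    have h1 : bas x₀ = f z := by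
      rw [hsum]
      by_cases hzZ : z ∈ Z
      · exact Finset.sum_eq_single z (fun y _ hy => hc y hy) (fun h => absurd hzZ h)
      · exact absurd (hfZ z hzZ) hz
    have h2 := hflat (bas x₀) z hb1 (by rw [h1]; exact hf z) x₀
    have h3 : ‖(bas x₀ : Fin D → ℂ) x₀‖ ^ 2 = 1 := by simp [bas]
    rw [h3, eq_div_iff hD0.ne'] at h2
    linarith
  obtain ⟨z', hzz, hz'⟩ := hne2
  obtain ⟨c, hc0, hc1, hc2⟩ := normalise U (f z) z (hf z) hz
  obtain ⟨c', hc0', hc1', hc2'⟩ := normalise U (f z') z' (hf z') hz'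
  have hn := SEL_eig_norm U hU (f z) z (hf z) hz
  have hn' := SEL_eig_norm U hU (f z') z' (hf z') hz'
  refine ⟨_, _, z, z', hc2, hc2', hn, hn', hc1, hc1', ?_⟩
  have horth : star (f z) ⬝ᵥ f z' = 0 := by
    have h1 := dot_unitary U hU (f z) (f z')
    rw [hf z, hf z', star_smul, smul_dotProduct, dotProduct_smul, smul_eq_mul, smul_eq_mul,
      ← mul_assoc] at h1
    by_contra h0
    have h2 : star z * z' = 1 := by
      have : (star z * z' - 1) * (star (f z) ⬝ᵥ f z') = 0 := by rw [sub_mul, h1, one_mul, sub_self]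
      rcases mul_eq_zero.1 this with h | h
      · exact sub_eq_zero.1 h
      · exact absurd h h0
    have h3 : z * star z = 1 := by
      rw [Complex.star_def, Complex.mul_conj', hn]; simp
    apply hzz
    calc z' = (z * star z) * z' := by rw [h3, one_mul]
      _ = z * (star z * z') := by ring
      _ = z := by rw [h2, mul_one]
  rw [star_smul, smul_dotProduct, dotProduct_smul, horth]
  simp

theorem no_que {D : ℕ} (hD : 2 ≤ D) (U : Matrix (Fin D) (Fin D) ℂ)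
    (hU : U ∈ Matrix.unitaryGroup (Fin D) ℂ) :
    ∃ ν : Measure (ℕ → Fin D), IsProbabilityMeasure ν ∧ IsQuantumLimit U ν ∧
      ∃ (n : ℕ) (w : Fin n → Fin D), (ν (cyl w)).toReal ≠ 1 / (D : ℝ) ^ n := by
  classical
  have hD0 : (0 : ℝ) < D := by exact_mod_cast (by omega : 0 < D)
  by_cases hflat : ∀ (φ : Fin D → ℂ) (z : ℂ), star φ ⬝ᵥ φ = 1 → U.mulVec φ = z • φ →
      ∀ x, ‖φ x‖ ^ 2 = 1 / D
  · obtain ⟨a, b, α, β, ha, hb, hα, hβ, haa, hbb, hab⟩ := two_eigs hD U hU hflat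
    have hα' : α * star α = 1 := by rw [Complex.star_def, Complex.mul_conj', hα]; simp
    have hβ' : β * star β = 1 := by rw [Complex.star_def, Complex.mul_conj', hβ]; simp
    have hst := dst_isInvState U a b α β ha hb hα' hβ' haa hbb hab
    obtain ⟨ν, hν, hq, hd⟩ := state_limit U hU _ hst
    refine ⟨ν, hν, hq, 2, fun _ => ⟨0, by omega⟩, ?_⟩
    have h1 := hd 2 (fun _ => ⟨0, by omega⟩)
    rw [dst_two, hflat a α haa ha, hflat b β hbb hb] at h1
    have h2 : (ν (cyl (fun _ : Fin 2 => (⟨0, by omega⟩ : Fin D)))).toReal =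
        ((1 / (D : ℝ)) ^ 2 + 4 * (1 / D * (1 / D)) + (1 / D) ^ 2) / 4 := by
      exact_mod_cast h1.symm
    rw [h2]
    intro h3
    field_simp at h3
    norm_num at h3
  · push Not at hflat
    obtain ⟨φ, z, hφ, hz, x, hx⟩ := hflat
    have hφ0 : φ ≠ 0 := by rintro rfl; simp at hφ
    have hφ' : ∑ c, φ c * star (φ c) = 1 := by
      rw [← hφ]; exact Finset.sum_congr rfl (fun c _ => mul_comm _ _)
    have hz1 : z * star z = 1 := by
      rw [Complex.star_def, Complex.mul_conj', SEL_eig_norm U hU φ z hz hφ0]; simp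
    have hst := orb_isInvState U hU φ hφ' 1 le_rfl z hz1 (by rw [pow_one]; exact hz)
    obtain ⟨ν, hν, hq, hd⟩ := state_limit U hU _ hst
    refine ⟨ν, hν, hq, 1, fun _ => x, ?_⟩
    have h1 := hd 1 (fun _ => x)
    have h2 : orb U φ 1 1 (fun _ => x) (fun _ => x) = ((‖φ x‖ ^ 2 : ℝ) : ℂ) := by
      unfold orb pst pv
      simp only [Finset.range_one, Finset.sum_singleton, pow_zero, Matrix.one_mulVec,
        Matrix.smul_apply, vecMulVec_apply, Pi.star_apply, Fin.prod_univ_one, smul_eq_mul]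
      push_cast
      rw [Complex.star_def, Complex.mul_conj']
      simp
    rw [h2] at h1
    have h3 : ‖φ x‖ ^ 2 = (ν (cyl (fun _ : Fin 1 => x))).toReal := by exact_mod_cast h1
    rw [← h3, pow_one]
    exact hx

end Pool.Agent.helper65.WB
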