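import Pool.Agent.helper65.WB.TP

set_option autoImplicit false

/-!
# Product states
-/

namespace Pool.Agent.helper65.WB

open Finset Matrix
open scoped ComplexOrder

/-- the product vector `φ ⊗ ⋯ ⊗ φ` -/
def pv {D : ℕ} (φ : Fin D → ℂ) (n : ℕ) : (Fin n → Fin D) → ℂ := fun x => ∏ i, φ (x i)

/-- the product state of `φ` -/
def pst {D : ℕ} (φ : Fin D → ℂ) (n : ℕ) : Matrix (Fin n → Fin D) (Fin n → Fin D) ℂ :=
  vecMulVec (pv φ n) (star (pv φ n))

lemma tpow_pv {D : ℕ} (U : Matrix (Fin D) (Fin D) ℂ) (φ : Fin D → ℂ) (n : ℕ) :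
    (tpow U n).mulVec (pv φ n) = pv (U.mulVec φ) n := by
  funext x
  simp only [Matrix.mulVec, dotProduct, tpow, pv]
  rw [Finset.prod_univ_sum, Fintype.piFinset_univ]
  exact Finset.sum_congr rfl (fun z _ => Finset.prod_mul_distrib.symm)

lemma tpow_pst {D : ℕ} (U : Matrix (Fin D) (Fin D) ℂ) (φ : Fin D → ℂ) (n : ℕ) :
    tpow U n * pst φ n * (tpow U n)ᴴ = pst (U.mulVec φ) n := by
  unfold pst
  rw [Matrix.mul_vecMulVec, Matrix.vecMulVec_mul, tpow_pv, ← tpow_pv, ← Matrix.star_mulVec]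

lemma sum_pv_sq {D : ℕ} (φ : Fin D → ℂ) (hφ : ∑ c, φ c * star (φ c) = 1) (n : ℕ) :
    ∑ x, pv φ n x * star (pv φ n x) = 1 := by
  have : ∀ x : Fin n → Fin D, pv φ n x * star (pv φ n x) = ∏ i, (φ (x i) * star (φ (x i))) := by
    intro x; unfold pv; rw [star_prod, Finset.prod_mul_distrib]
  rw [Finset.sum_congr rfl (fun x _ => this x)]
  have h := Finset.prod_univ_sum (fun _ : Fin n => (univ : Finset (Fin D)))
    (fun _ c => φ c * star (φ c))
  rw [Fintype.piFinset_univ] at h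
  rw [← h]
  simp only [hφ, Finset.prod_const_one]

lemma pst_trace {D : ℕ} (φ : Fin D → ℂ) (hφ : ∑ c, φ c * star (φ c) = 1) (n : ℕ) :
    (pst φ n).trace = 1 := by
  unfold pst Matrix.trace
  simpa [Matrix.diag, vecMulVec_apply] using sum_pv_sq φ hφ n

lemma pst_pos {D : ℕ} (φ : Fin D → ℂ) (n : ℕ) : (pst φ n).PosSemidef :=
  Matrix.posSemidef_vecMulVec_self_star _

lemma pst_right {D : ℕ} (φ : Fin D → ℂ) (hφ : ∑ c, φ c * star (φ c) = 1) (n : ℕ)
    (u v : Fin n → Fin D) :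
    ∑ c, pst φ (n + 1) (Fin.snoc (α := fun _ => Fin D) u c) (Fin.snoc (α := fun _ => Fin D) v c)
      = pst φ n u v := by
  simp only [pst, vecMulVec_apply, pv, Pi.star_apply, Fin.prod_univ_castSucc, Fin.snoc_castSucc,
    Fin.snoc_last, star_mul']
  rw [← mul_one ((∏ i, φ (u i)) * star (∏ i, φ (v i))), ← hφ, Finset.mul_sum]
  exact Finset.sum_congr rfl (fun c _ => by ring)

lemma pst_left {D : ℕ} (φ : Fin D → ℂ) (hφ : ∑ c, φ c * star (φ c) = 1) (n : ℕ)
    (u v : Fin n → Fin D) :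
    ∑ c, pst φ (n + 1) (Fin.cons (α := fun _ => Fin D) c u) (Fin.cons (α := fun _ => Fin D) c v)
      = pst φ n u v := by
  simp only [pst, vecMulVec_apply, pv, Pi.star_apply, Fin.prod_univ_succ, Fin.cons_succ,
    Fin.cons_zero, star_mul']
  rw [← mul_one ((∏ i, φ (u i)) * star (∏ i, φ (v i))), ← hφ, Finset.mul_sum]
  exact Finset.sum_congr rfl (fun c _ => by ring)

lemma unit_mulVec {D : ℕ} (U : Matrix (Fin D) (Fin D) ℂ)
    (hU : U ∈ Matrix.unitaryGroup (Fin D) ℂ) (φ : Fin D → ℂ)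
    (hφ : ∑ c, φ c * star (φ c) = 1) : ∑ c, U.mulVec φ c * star (U.mulVec φ c) = 1 := by
  have h1 : star (U.mulVec φ) ⬝ᵥ (U.mulVec φ) = star φ ⬝ᵥ φ := by
    rw [Matrix.star_mulVec, ← Matrix.dotProduct_mulVec, Matrix.mulVec_mulVec]
    have h : Uᴴ * U = 1 := by
      have := Matrix.mem_unitaryGroup_iff'.1 hU
      simpa [Matrix.star_eq_conjTranspose] using this
    rw [h, Matrix.one_mulVec]
  simp only [dotProduct, Pi.star_apply] at h1
  rw [Finset.sum_congr rfl (fun c _ => mul_comm (U.mulVec φ c) _), h1,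
    Finset.sum_congr rfl (fun c _ => mul_comm (star (φ c)) _), hφ]

lemma pst_smul {D : ℕ} (φ : Fin D → ℂ) (z : ℂ) (hz : z * star z = 1) (n : ℕ) :
    pst (z • φ) n = pst φ n := by
  ext x y
  simp only [pst, vecMulVec_apply, pv, Pi.star_apply, Pi.smul_apply, smul_eq_mul,
    Finset.prod_mul_distrib, Finset.prod_const, star_mul']
  have : (z ^ (univ : Finset (Fin n)).card) * star (z ^ (univ : Finset (Fin n)).card) = 1 := by
    rw [star_pow, ← mul_pow, hz, one_pow]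
  calc _ = (z ^ (univ : Finset (Fin n)).card) * star (z ^ (univ : Finset (Fin n)).card) *
        ((∏ i, φ (x i)) * star (∏ i, φ (y i))) := by ring
    _ = _ := by rw [this, one_mul]

/-- the mixture of the product states of the orbit of `φ` -/
noncomputable def orb {D : ℕ} (U : Matrix (Fin D) (Fin D) ℂ) (φ : Fin D → ℂ) (m n : ℕ) :
    Matrix (Fin n → Fin D) (Fin n → Fin D) ℂ :=
  (1 / (m : ℂ)) • ∑ j ∈ range m, pst ((U ^ j).mulVec φ) n

lemma unit_pow {D : ℕ} (U : Matrix (Fin D) (Fin D) ℂ)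
    (hU : U ∈ Matrix.unitaryGroup (Fin D) ℂ) (φ : Fin D → ℂ)
    (hφ : ∑ c, φ c * star (φ c) = 1) (j : ℕ) :
    ∑ c, (U ^ j).mulVec φ c * star ((U ^ j).mulVec φ c) = 1 :=
  unit_mulVec (U ^ j) (pow_mem hU j) φ hφ

theorem orb_isInvState {D : ℕ} (U : Matrix (Fin D) (Fin D) ℂ)
    (hU : U ∈ Matrix.unitaryGroup (Fin D) ℂ) (φ : Fin D → ℂ)
    (hφ : ∑ c, φ c * star (φ c) = 1) (m : ℕ) (hm : 1 ≤ m) (z : ℂ) (hz : z * star z = 1)
    (h : (U ^ m).mulVec φ = z • φ) : IsInvState U (orb U φ m) := by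
  have hm0 : (m : ℂ) ≠ 0 := by exact_mod_cast (by omega : m ≠ 0)
  refine ⟨?_, ?_, ?_, ?_, ?_⟩
  · intro n
    refine Matrix.PosSemidef.smul (Matrix.posSemidef_sum _ (fun j _ => pst_pos _ n)) ?_
    rw [one_div, ← Complex.ofReal_natCast, ← Complex.ofReal_inv]
    exact_mod_cast (by positivity : (0 : ℝ) ≤ (m : ℝ)⁻¹)
  · intro n
    unfold orb
    rw [Matrix.trace_smul, Matrix.trace_sum,
      Finset.sum_congr rfl (fun j _ => pst_trace _ (unit_pow U hU φ hφ j) n)]
    simp [hm0]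
  · intro n u v
    unfold orb
    simp only [Matrix.smul_apply, Matrix.sum_apply, ← Finset.smul_sum]
    rw [Finset.sum_comm, Finset.sum_congr rfl
      (fun j _ => pst_right _ (unit_pow U hU φ hφ j) n u v)]
  · intro n u v
    unfold orb
    simp only [Matrix.smul_apply, Matrix.sum_apply, ← Finset.smul_sum]
    rw [Finset.sum_comm, Finset.sum_congr rfl
      (fun j _ => pst_left _ (unit_pow U hU φ hφ j) n u v)]
  · intro n
    unfold orb
    rw [Matrix.mul_smul, Matrix.smul_mul, Finset.mul_sum, Finset.sum_mul]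
    congr 1
    have e : ∀ j ∈ range m, tpow U n * pst ((U ^ j).mulVec φ) n * (tpow U n)ᴴ
        = pst ((U ^ (j + 1)).mulVec φ) n := by
      intro j _
      rw [tpow_pst, Matrix.mulVec_mulVec, ← pow_succ']
    rw [Finset.sum_congr rfl e]
    have h1 := Finset.sum_range_succ' (fun j => pst ((U ^ j).mulVec φ) n) m
    have h2 := Finset.sum_range_succ (fun j => pst ((U ^ j).mulVec φ) n) m
    rw [h2] at h1
    simp only [h, pst_smul φ z hz] at h1
    simp only [pow_zero, Matrix.one_mulVec] at h1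
    exact (add_right_cancel h1).symm

end Pool.Agent.helper65.WB
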