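import Pool.Agent.helper65.WB.Per
import Pool.Agent.helper65.WB.Gram
import Pool.Agent.helper65.WB.Main
import Pool.Agent.helper65.WB.Defs2

set_option autoImplicit false

/-!
# Scarring on periodic orbits: the measure of the optimal state
-/

namespace Pool.Agent.helper65.WB

open Finset Matrix MeasureTheory
open scoped ComplexOrder ENNReal

lemma mu1_prob' {D : ℕ} (φ : Fin D → ℂ) (h : star φ ⬝ᵥ φ = 1) : IsProbabilityMeasure (mu1 φ) := by
  have h' : ∑ c, φ c * star (φ c) = 1 := by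
    rw [← h]; exact Finset.sum_congr rfl (fun c _ => mul_comm _ _)
  have : Fact (∑ c, φ c * star (φ c) = 1) := ⟨h'⟩
  exact mu1_prob φ

/-- the product measure of a sequence of unit vectors -/
noncomputable def nuF {D : ℕ} (φ : ℕ → Fin D → ℂ) : Measure (ℕ → Fin D) :=
  Measure.infinitePi (fun t : ℕ => mu1 (φ t))

lemma nuF_prob {D : ℕ} (φ : ℕ → Fin D → ℂ) (h : ∀ t, star (φ t) ⬝ᵥ φ t = 1) :
    IsProbabilityMeasure (nuF φ) := by
  have : ∀ t, IsProbabilityMeasure (mu1 (φ t)) := fun t => mu1_prob' _ (h t)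
  unfold nuF
  infer_instance

lemma nuF_cyl {D n : ℕ} (φ : ℕ → Fin D → ℂ) (h : ∀ t, star (φ t) ⬝ᵥ φ t = 1)
    (w : Fin n → Fin D) : (nuF φ (cyl w)).toReal = ∏ i : Fin n, ‖φ i.val (w i)‖ ^ 2 := by
  have : ∀ t, IsProbabilityMeasure (mu1 (φ t)) := fun t => mu1_prob' _ (h t)
  unfold nuF
  rw [cyl_eq, Measure.infinitePi_pi]
  · rw [Finset.prod_range, ENNReal.toReal_prod]
    refine Finset.prod_congr rfl (fun i _ => ?_)
    rw [dif_pos i.isLt, mu1_singleton, ENNReal.toReal_ofReal (by positivity)]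
  · intro i _
    split_ifs
    · exact measurableSet_singleton _
    · exact MeasurableSet.univ

lemma psts_diag {D n : ℕ} (φ : ℕ → Fin D → ℂ) (h : ∀ t, star (φ t) ⬝ᵥ φ t = 1)
    (w : Fin n → Fin D) : psts φ n w w = ((nuF φ (cyl w)).toReal : ℂ) := by
  rw [nuF_cyl φ h]
  simp only [psts, vecMulVec_apply, pvs, Pi.star_apply, star_prod]
  rw [← Finset.prod_mul_distrib]
  push_cast
  exact Finset.prod_congr rfl (fun i _ => Complex.mul_conj' _)

lemma nuF_singleton {D : ℕ} (x : ℕ → Fin D) : nuF (fun t => bas (x t)) {x} = 1 := by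
  have h : ∀ t, star (bas (x t)) ⬝ᵥ bas (x t) = 1 := fun t => by rw [bas_dot, if_pos rfl]
  have : ∀ t, IsProbabilityMeasure (mu1 (bas (x t))) := fun t => mu1_prob' _ (h t)
  unfold nuF
  rw [Measure.infinitePi_singleton]
  have : ∀ t : ℕ, mu1 (bas (x t)) {x t} = 1 := by
    intro t
    rw [mu1_singleton]
    simp [bas]
  simp only [this, tprod_one]

/-- the measure of `orbP` -/
noncomputable def nuP {D : ℕ} (U : Matrix (Fin D) (Fin D) ℂ) (w : ℕ → Fin D) (m s : ℕ) :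
    Measure (ℕ → Fin D) :=
  ∑ i ∈ range m, ∑ r ∈ range s, (ENNReal.ofReal (1 / ((m : ℝ) * s))) • nuF (fam U w i r)

lemma nuP_apply {D : ℕ} (U : Matrix (Fin D) (Fin D) ℂ) (w : ℕ → Fin D) (m s : ℕ)
    (A : Set (ℕ → Fin D)) : nuP U w m s A =
      ∑ i ∈ range m, ∑ r ∈ range s, ENNReal.ofReal (1 / ((m : ℝ) * s)) * nuF (fam U w i r) A := by
  unfold nuP
  simp only [Measure.finsetSum_apply, Measure.smul_apply, smul_eq_mul]

lemma nuP_prob {D : ℕ} (U : Matrix (Fin D) (Fin D) ℂ) (hU : U ∈ Matrix.unitaryGroup (Fin D) ℂ)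
    (w : ℕ → Fin D) (m s : ℕ) (hm : 1 ≤ m) (hs : 1 ≤ s) : IsProbabilityMeasure (nuP U w m s) := by
  constructor
  rw [nuP_apply]
  have h : ∀ i r, nuF (fam U w i r) Set.univ = 1 := by
    intro i r
    have := nuF_prob (fam U w i r) (fam_unit U hU w i r)
    exact measure_univ
  simp only [h, mul_one, Finset.sum_const, Finset.card_range, nsmul_eq_mul]
  have hm0 : (0 : ℝ) < m := by exact_mod_cast hm
  have hs0 : (0 : ℝ) < s := by exact_mod_cast hs
  rw [← ENNReal.ofReal_natCast, ← ENNReal.ofReal_natCast, ← ENNReal.ofReal_mul (Nat.cast_nonneg _),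
    ← ENNReal.ofReal_mul (Nat.cast_nonneg _)]
  rw [show (m : ℝ) * (s * (1 / (m * s))) = 1 by field_simp, ENNReal.ofReal_one]

lemma orbP_diag {D : ℕ} (U : Matrix (Fin D) (Fin D) ℂ) (hU : U ∈ Matrix.unitaryGroup (Fin D) ℂ)
    (w : ℕ → Fin D) (m s n : ℕ) (v : Fin n → Fin D) :
    orbP U w m s n v v = ((nuP U w m s (cyl v)).toReal : ℂ) := by
  rw [nuP_apply]
  have hfin : ∀ i r, ENNReal.ofReal (1 / ((m : ℝ) * s)) * nuF (fam U w i r) (cyl v) ≠ ∞ := by
    intro i r
    have := nuF_prob (fam U w i r) (fam_unit U hU w i r)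
    exact ENNReal.mul_ne_top ENNReal.ofReal_ne_top (measure_ne_top _ _)
  rw [ENNReal.toReal_sum (fun i _ => ENNReal.sum_ne_top.2 (fun r _ => hfin i r))]
  rw [Finset.sum_congr rfl (fun i _ => ENNReal.toReal_sum (fun r _ => hfin i r))]
  unfold orbP
  simp only [Matrix.smul_apply, Matrix.sum_apply, smul_eq_mul, ENNReal.toReal_mul]
  rw [ENNReal.toReal_ofReal (by positivity)]
  push_cast
  rw [Finset.mul_sum]
  refine Finset.sum_congr rfl (fun i _ => ?_)
  rw [Finset.mul_sum]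
  refine Finset.sum_congr rfl (fun r _ => ?_)
  rw [psts_diag _ (fam_unit U hU w i r)]

lemma nuP_ge {D : ℕ} (U : Matrix (Fin D) (Fin D) ℂ) (w : ℕ → Fin D) (m s : ℕ) (hm : 1 ≤ m)
    (hs : 1 ≤ s) : ENNReal.ofReal (1 / m) ≤ nuP U w m s (trans w) := by
  rw [nuP_apply]
  have h1 : ∀ r, 1 ≤ nuF (fam U w 0 r) (trans w) := by
    intro r
    have h2 : fam U w 0 r = fun t => bas ((fun t => w (t + r)) t) := by
      funext t; unfold fam; rw [pow_zero, Matrix.one_mulVec]
    rw [h2, ← nuF_singleton (fun t => w (t + r))]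
    refine measure_mono ?_
    intro x hx
    rw [Set.mem_singleton_iff] at hx
    exact ⟨r, fun t => by rw [hx]⟩
  have hm0 : (0 : ℝ) < m := by exact_mod_cast hm
  have hs0 : (0 : ℝ) < s := by exact_mod_cast hs
  calc ENNReal.ofReal (1 / m) = ∑ r ∈ range s, ENNReal.ofReal (1 / ((m : ℝ) * s)) * 1 := by
        simp only [mul_one, Finset.sum_const, Finset.card_range, nsmul_eq_mul]
        rw [← ENNReal.ofReal_natCast, ← ENNReal.ofReal_mul (Nat.cast_nonneg _)]
        congr 1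
        field_simp
    _ ≤ ∑ r ∈ range s, ENNReal.ofReal (1 / ((m : ℝ) * s)) * nuF (fam U w 0 r) (trans w) := by
        refine Finset.sum_le_sum (fun r _ => ?_)
        gcongr
        exact h1 r
    _ ≤ _ := Finset.single_le_sum (f := fun i => ∑ r ∈ range s,
          ENNReal.ofReal (1 / ((m : ℝ) * s)) * nuF (fam U w i r) (trans w))
          (fun _ _ => zero_le) (Finset.mem_range.2 (by omega : 0 < m))

theorem nuP_limit {D : ℕ} (U : Matrix (Fin D) (Fin D) ℂ)
    (hU : U ∈ Matrix.unitaryGroup (Fin D) ℂ) (w : ℕ → Fin D) (s : ℕ) (hs : 1 ≤ s)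
    (hw : ∀ t, w (t + s) = w t) (m : ℕ) (hm : 1 ≤ m) (r₀ : ℕ)
    (h : ∀ t, ‖(U ^ m) (w (t + r₀)) (w t)‖ = 1) : IsQuantumLimit U (nuP U w m s) := by
  have := nuP_prob U hU w m s hm hs
  exact (classification U hU _).2 ⟨orbP U w m s, orbP_isInvState U hU w s hs hw m hm r₀ h,
    fun n v => orbP_diag U hU w m s n v⟩

end Pool.Agent.helper65.WB
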