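import Pool.Agent.helper78.WB.SpecIII

set_option autoImplicit false

namespace Pool.Agent.WB

theorem ZIN_two_mul (n : ℕ) : 2 * s3 n = (n + 1) * (n + 2) := by
  unfold s3
  exact Nat.mul_div_cancel' (Nat.even_mul_succ_self (n + 1)).two_dvd

theorem ZIN : ZIN_stmt := by
  intro d k m hd hm h
  have h1 := ZIN_two_mul (m * (k + 1) - 1)
  have h2 := ZIN_two_mul (m * (k + 1) - 1 - d)
  have h3 := ZIN_two_mul k
  have h4 : 2 * (m * (m + 1) / 2) = m * (m + 1) :=
    Nat.mul_div_cancel' (Nat.even_mul_succ_self m).two_dvd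
  generalize m * (m + 1) / 2 = B at h4 ⊢
  generalize s3 k = A at h3 ⊢
  generalize s3 (m * (k + 1) - 1) = P at h1 ⊢
  generalize s3 (m * (k + 1) - 1 - d) = Q at h2 ⊢
  obtain ⟨e, he⟩ : ∃ e, m * (k + 1) = e + d := ⟨m * (k + 1) - d, by omega⟩
  have e1 : m * (k + 1) - 1 + 1 = e + d := by omega
  have e2 : m * (k + 1) - 1 - d + 1 = e := by omega
  have e1' : m * (k + 1) - 1 + 2 = e + d + 1 := by omega
  have e2' : m * (k + 1) - 1 - d + 2 = e + 1 := by omega
  rw [e1, e1'] at h1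
  rw [e2, e2'] at h2
  have h5 : 5 * d ≤ e := by omega
  have h6 : 4 * (A * B) = (e + d) * (e + d + k + m + 2) := by
    calc 4 * (A * B) = (2 * A) * (2 * B) := by ring
      _ = ((k + 1) * (k + 2)) * (m * (m + 1)) := by rw [h3, h4]
      _ = (m * (k + 1)) * (m * (k + 1) + k + m + 2) := by ring
      _ = (e + d) * (e + d + k + m + 2) := by rw [he]
  have h7 : 4 * P < 4 * Q + 4 * (A * B) := by
    have q1 : 4 * P = 2 * ((e + d) * (e + d + 1)) := by rw [← h1]; ring
    have q2 : 4 * Q = 2 * (e * (e + 1)) := by rw [← h2]; ring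
    rw [q1, q2, h6]
    nlinarith [Nat.zero_le k, Nat.zero_le m, mul_le_mul_left h5 d, mul_le_mul_left h5 e,
      Nat.zero_le (e * k), Nat.zero_le (d * k), Nat.zero_le (e * m), Nat.zero_le (d * m)]
  omega

end Pool.Agent.WB
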